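import Pool.Agent.PTE.Stmts
import Pool.Agent.RI.PDGE

/-!
# Prime twists of rank zero: module DSUM (sum of densities)
-/

open Finset

namespace Pool.Agent.PTE

namespace DSUM

open RI.PD in
/-- the pointwise inequality -/
lemma point {ι : Type} [Fintype ι] (S S' : ι → Set ℕ) (T R : Set ℕ) (N : ℕ)
    (h3 : ∀ i q, q.Prime → N < q → q ∈ S' i → q ∈ R)
    (h4 : ∀ i q, q.Prime → N < q → q ∈ S i → q ∈ T)
    (h5 : ∀ q : ℕ, q.Prime → N < q → ∃ i₁ i₂, ∀ i, q ∈ S i ∨ q ∈ S' i → i = i₁ ∨ i = i₂)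
    (s : ℝ) (n : ℕ) :
    ∑ i : ι, Set.indicator {q : ℕ | q.Prime ∧ q ∈ S i ∪ S' i} (fun n : ℕ => (n : ℝ) ^ (-s)) n ≤
      2 * Set.indicator {q : ℕ | q.Prime ∧ q ∈ T} (fun n : ℕ => (n : ℝ) ^ (-s)) n +
      2 * Set.indicator {q : ℕ | q.Prime ∧ q ∈ R} (fun n : ℕ => (n : ℝ) ^ (-s)) n +
      Fintype.card ι * Set.indicator ((Finset.range (N + 1) : Finset ℕ) : Set ℕ)
        (fun n : ℕ => (n : ℝ) ^ (-s)) n := by
  classical
  have hg := term_nonneg s n
  have hT0 : 0 ≤ Set.indicator {q : ℕ | q.Prime ∧ q ∈ T} (fun n : ℕ => (n : ℝ) ^ (-s)) n :=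
    Set.indicator_nonneg (fun x _ => term_nonneg s x) n
  have hR0 : 0 ≤ Set.indicator {q : ℕ | q.Prime ∧ q ∈ R} (fun n : ℕ => (n : ℝ) ^ (-s)) n :=
    Set.indicator_nonneg (fun x _ => term_nonneg s x) n
  have hN0 : 0 ≤ (Fintype.card ι : ℝ) * Set.indicator ((Finset.range (N + 1) : Finset ℕ) : Set ℕ)
      (fun n : ℕ => (n : ℝ) ^ (-s)) n :=
    mul_nonneg (Nat.cast_nonneg _) (Set.indicator_nonneg (fun x _ => term_nonneg s x) n)
  by_cases hp : n.Prime
  swap
  · have h0 : ∑ i : ι, Set.indicator {q : ℕ | q.Prime ∧ q ∈ S i ∪ S' i}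
        (fun n : ℕ => (n : ℝ) ^ (-s)) n = 0 := by
      refine Finset.sum_eq_zero fun i _ => ?_
      rw [Set.indicator_of_notMem]
      rintro ⟨h, _⟩
      exact hp h
    rw [h0]
    linarith
  by_cases hN : n ≤ N
  · have h1 : ∑ i : ι, Set.indicator {q : ℕ | q.Prime ∧ q ∈ S i ∪ S' i}
        (fun n : ℕ => (n : ℝ) ^ (-s)) n ≤ ∑ _i : ι, (n : ℝ) ^ (-s) := by
      refine Finset.sum_le_sum fun i _ => ?_
      exact Set.indicator_le_self' (fun x _ => term_nonneg s x) n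
    rw [Finset.sum_const, nsmul_eq_mul, Finset.card_univ] at h1
    have h2 : n ∈ ((Finset.range (N + 1) : Finset ℕ) : Set ℕ) := by
      simp only [Finset.coe_range, Set.mem_Iio]
      omega
    rw [Set.indicator_of_mem h2]
    linarith
  · have hN' : N < n := not_le.1 hN
    obtain ⟨i₁, i₂, hi⟩ := h5 n hp hN'
    by_cases hex : ∃ i, n ∈ S i ∪ S' i
    · -- the indicator of `T` or `R` is positive
      have h1 : ∑ i : ι, Set.indicator {q : ℕ | q.Prime ∧ q ∈ S i ∪ S' i}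
          (fun n : ℕ => (n : ℝ) ^ (-s)) n ≤ 2 * (n : ℝ) ^ (-s) := by
        have h2 : ∑ i : ι, Set.indicator {q : ℕ | q.Prime ∧ q ∈ S i ∪ S' i}
            (fun n : ℕ => (n : ℝ) ^ (-s)) n =
            ∑ i ∈ ({i₁, i₂} : Finset ι), Set.indicator {q : ℕ | q.Prime ∧ q ∈ S i ∪ S' i}
            (fun n : ℕ => (n : ℝ) ^ (-s)) n := by
          symm
          refine Finset.sum_subset (Finset.subset_univ _) fun i _ hi' => ?_
          rw [Set.indicator_of_notMem]
          rintro ⟨_, h⟩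
          rcases hi i h with h | h
          · exact hi' (by rw [h]; exact Finset.mem_insert_self _ _)
          · exact hi' (by rw [h]; exact Finset.mem_insert_of_mem (Finset.mem_singleton_self _))
        rw [h2]
        have h6 : ∑ i ∈ ({i₁, i₂} : Finset ι), Set.indicator {q : ℕ | q.Prime ∧ q ∈ S i ∪ S' i}
            (fun n : ℕ => (n : ℝ) ^ (-s)) n ≤ ∑ _i ∈ ({i₁, i₂} : Finset ι), (n : ℝ) ^ (-s) :=
          Finset.sum_le_sum fun i _ => Set.indicator_le_self' (fun x _ => term_nonneg s x) n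
        rw [Finset.sum_const, nsmul_eq_mul] at h6
        have h7 : (({i₁, i₂} : Finset ι).card : ℝ) ≤ 2 := by
          exact_mod_cast Finset.card_le_two
        have h8 := mul_le_mul_of_nonneg_right h7 hg
        linarith
      obtain ⟨i, hi'⟩ := hex
      rcases hi' with h | h
      · have h2 : n ∈ {q : ℕ | q.Prime ∧ q ∈ T} := ⟨hp, h4 i n hp hN' h⟩
        rw [Set.indicator_of_mem h2]
        linarith
      · have h2 : n ∈ {q : ℕ | q.Prime ∧ q ∈ R} := ⟨hp, h3 i n hp hN' h⟩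
        rw [Set.indicator_of_mem h2]
        linarith
    · have h0 : ∑ i : ι, Set.indicator {q : ℕ | q.Prime ∧ q ∈ S i ∪ S' i}
          (fun n : ℕ => (n : ℝ) ^ (-s)) n = 0 := by
        refine Finset.sum_eq_zero fun i _ => ?_
        rw [Set.indicator_of_notMem]
        rintro ⟨_, h⟩
        exact hex ⟨i, h⟩
      rw [h0]
      linarith

end DSUM

open DSUM RI.PD in
theorem DSUM_thm : DSUM := by
  classical
  intro ι _ S S' T R d u N h1 h2 h3 h4 h5
  obtain ⟨K, hK⟩ := h2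
  choose C hC using h1
  refine ⟨(∑ i, C i + 2 * K + Fintype.card ι * ((Finset.range (N + 1)).card : ℝ)) / 2,
    fun s hs hs2 => ?_⟩
  have hKs := hK s hs hs2
  rw [sub_eq] at hKs ⊢
  have hsum := summ hs
  have hSi : ∀ i ∈ (Finset.univ : Finset ι), Summable (Set.indicator
      {q : ℕ | q.Prime ∧ q ∈ S i ∪ S' i} (fun n : ℕ => (n : ℝ) ^ (-s))) :=
    fun i _ => hsum.indicator _
  have hT := (hsum.indicator {q : ℕ | q.Prime ∧ q ∈ T}).mul_left 2
  have hR := (hsum.indicator {q : ℕ | q.Prime ∧ q ∈ R}).mul_left 2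
  have hA := (hsum.indicator ((Finset.range (N + 1) : Finset ℕ) : Set ℕ)).mul_left
    (Fintype.card ι : ℝ)
  have h6 := (summable_sum hSi).tsum_le_tsum
    (fun n => by
      have := point S S' T R N h3 h4 h5 s n
      simpa using this) ((hT.add hR).add hA)
  rw [Summable.tsum_finsetSum hSi, (hT.add hR).tsum_add hA, hT.tsum_add hR, tsum_mul_left,
    tsum_mul_left, tsum_mul_left] at h6
  have h7 : ∑ i : ι, (d * Real.log (1 / (s - 1)) - C i) ≤ ∑ i : ι, ∑' n : ℕ,
      Set.indicator {q : ℕ | q.Prime ∧ q ∈ S i ∪ S' i} (fun n : ℕ => (n : ℝ) ^ (-s)) n := by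
    refine Finset.sum_le_sum fun i _ => ?_
    have h8 := hC i s hs hs2
    rwa [sub_eq] at h8
  rw [Finset.sum_sub_distrib, Finset.sum_const, nsmul_eq_mul, Finset.card_univ] at h7
  have h9 := fin_le hs (Finset.range (N + 1))
  have h10 := mul_le_mul_of_nonneg_left h9 (Nat.cast_nonneg (α := ℝ) (Fintype.card ι))
  have h11 : (Fintype.card ι * d - 2 * u) / 2 * Real.log (1 / (s - 1)) =
      (Fintype.card ι * (d * Real.log (1 / (s - 1))) - 2 * (u * Real.log (1 / (s - 1)))) / 2 := by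
    ring
  rw [h11]
  linarith

end Pool.Agent.PTE
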