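import Pool.Agent.PTE.Stmts

/-!
# Prime twists of rank zero, twists by primes `1` modulo `3`: the class and the systems
-/

set_option autoImplicit false

namespace Pool.Agent.PTE

open Pool.Agent.Lib_helper18 Pool.Agent.Lib_helper18.Eis Pool.Agent.Lib_helper84.Cub
open Pool.Agent.PT

namespace ECLS

/-- a rational cube that is an integer is a cube -/
lemma cube_of {z u t : ℤ} (hu : u ≠ 0) (h : z * u ^ 3 = t ^ 3) : ∃ m : ℤ, m ^ 3 = z := by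
  have h1 : u ^ 3 ∣ t ^ 3 := ⟨z, by rw [← h]; ring⟩
  have h2 : u ∣ t := (Int.pow_dvd_pow_iff (by norm_num)).1 h1
  obtain ⟨m, hm⟩ := h2
  refine ⟨m, ?_⟩
  have h3 : z * u ^ 3 = m ^ 3 * u ^ 3 := by rw [h, hm]; ring
  exact (mul_right_cancel₀ (pow_ne_zero 3 hu) h3).symm

/-- the choice of `w0` -/
lemma exists_w0 (x : ZMod 3) : ∃ w0 : ZMod 3, w0 ≠ 0 ∧ x + w0 ≠ 0 := by
  revert x
  decide

/-- the restriction of a system to the first indices -/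
lemma sys_restr {s : ℕ} {b : Fin (s + 1) → ℤ} {P Q P' Q' : Fin (s + 1) → Fin (s + 1) → ℤ}
    (h : Sys b P Q P' Q') : Sys (rv b) (rs P) (rs Q) (rs P') (rs Q') where
  ind := by
    rintro c ⟨i, hi⟩ ⟨t, ht⟩
    refine h.ind (Fin.snoc (α := fun _ => ℕ) c 0) ⟨i.castSucc, ?_⟩ ⟨t, ?_⟩
    · rw [Fin.snoc_castSucc]
      exact hi
    · rw [ht, Fin.prod_univ_castSucc, Fin.snoc_last, pow_zero, mul_one]
      refine Finset.prod_congr rfl fun j _ => ?_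
      rw [Fin.snoc_castSucc]
      rfl
  c9 i j hij := h.c9 i.castSucc j.castSucc fun h1 => hij (Fin.castSucc_injective _ h1)
  sol j i hji := h.sol j.castSucc i.castSucc fun h1 => hji (Fin.castSucc_injective _ h1)
  sw j i hji := h.sw j.castSucc i.castSucc fun h1 => hji (Fin.castSucc_injective _ h1)

/-- the class of a point gives a kernel vector -/
lemma det_zero (hTEND : TEND) {s : ℕ} {b : Fin s → ℤ} {P Q P' Q' : Fin s → Fin s → ℤ} {B : ℤ}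
    (hSys : Sys b P Q P' Q') (hB : BOk B) (hA : ∀ i, Adm B (b i)) {z X1 Y1 : ℤ}
    (hPt : Pt B z X1 Y1) (hcube : ¬ ∃ t : ℤ, t ^ 3 = z) {g : Fin s → ℕ} {u v : ℤ} (hu : u ≠ 0)
    (hv : v ≠ 0) (hg : z * u ^ 3 = (∏ i, b i ^ g i) * v ^ 3) : (Mat b P Q P' Q' B).det = 0 := by
  obtain ⟨W, hW⟩ : ∃ W : ℤ, W = ∏ i, b i ^ g i := ⟨_, rfl⟩
  rw [← hW] at hg
  have hex : ∃ i, ¬ 3 ∣ g i := by
    by_contra hcon
    push Not at hcon
    choose g' hg' using hcon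
    apply hcube
    have h1 : z * u ^ 3 = ((∏ i, b i ^ g' i) * v) ^ 3 := by
      rw [hg, hW, mul_pow, ← Finset.prod_pow]
      congr 1
      refine Finset.prod_congr rfl fun i _ => ?_
      rw [← pow_mul, hg' i, mul_comm]
    exact cube_of hu h1
  have hPt' : Pt B (∏ i, b i ^ g i) (u * v * X1) (v ^ 2 * Y1) := by
    refine ⟨mul_ne_zero (mul_ne_zero hu hv) hPt.hX, mul_ne_zero (pow_ne_zero 2 hv) hPt.hY, ?_⟩
    obtain ⟨c0, hc0, h1⟩ := hPt.eq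
    refine ⟨c0 * u ^ 2, mul_ne_zero hc0 (pow_ne_zero 2 hu), ?_⟩
    rw [← hW]
    have e1 : W * ((u * v * X1) ^ 3 + W * (v ^ 2 * Y1) ^ 3) =
        (W * v ^ 3) * (u ^ 3 * X1 ^ 3 + (W * v ^ 3) * Y1 ^ 3) := by ring
    rw [e1, ← hg]
    have e2 : z * u ^ 3 * (u ^ 3 * X1 ^ 3 + z * u ^ 3 * Y1 ^ 3) =
        u ^ 6 * (z * (X1 ^ 3 + z * Y1 ^ 3)) := by ring
    rw [e2, h1]
    ring
  have hker := (hTEND s b P Q P' Q' B hSys hB hA).2 g _ _ hex hPt'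
  rw [← Matrix.exists_mulVec_eq_zero_iff]
  refine ⟨fun i => (g i : ZMod 3), ?_, ?_⟩
  · intro h1
    obtain ⟨i, hi⟩ := hex
    apply hi
    have h2 := congrFun h1 i
    exact (ZMod.natCast_eq_zero_iff (g i) 3).1 h2
  · ext j
    exact hker j

end ECLS

open ECLS in
/-- ECLS: the class and the systems. -/
theorem ECLS_thm (hEMAT : EMAT) (hEHPL : EHPL) (hESYS : ESYS) (hEADMS : EADMS) (hHYPS : HYPS)
    (hFD1 : FD1) (hFD2S : FD2S) (hTEND : TEND) (hSPLT : SPLT) : ECLS := by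
  intro n m k π p e r f hNF hk
  obtain ⟨w0, hw0, hwt⟩ := exists_w0 (wt ((n : ℤ) ^ 2))
  obtain ⟨c, _, hdet⟩ := hEMAT n m k π p e r f none hNF (fun j hj => by cases hj)
  obtain ⟨v, hv, hδ⟩ := hEHPL n m k π p e r f w0 c hNF hk.pos hwt hdet
  refine ⟨w0, c, v, hw0, fun i => ⟨(hv i).ne, (hv i).supp⟩, ?_⟩
  intro δ hδ0
  obtain ⟨s, b, hs, hAdm, hV, hind, hc9, hρ⟩ := hδ δ hδ0
  obtain ⟨P, Q, P', Q', hSys⟩ := hESYS n m k π p e r f w0 c (s + 1) b hNF hAdm hV hind hc9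
  refine ⟨s, b, P, Q, P', Q', hs, ⟨hSys.ind, hSys.sol⟩, fun i => (hAdm i).ne, ?_, ?_⟩
  · intro ρ h1 h2 h3
    exact (hρ ρ h1 h2 h3).1
  intro q ρ hq hIn hqn hq3 hqρ h0 h1
  obtain ⟨hB, hE⟩ := hEADMS n m k π p e r f w0 c q ρ hNF hq hIn hqn hqρ
  have hA : ∀ i : Fin s, Adm ((n : ℤ) * q) (b i.castSucc) := fun i =>
    (hE _ (hAdm i.castSucc).supp).1 ⟨hAdm i.castSucc, h0 i⟩
  have hR := sys_restr hSys
  refine ⟨hB, hA, (hTEND s (rv b) _ _ _ _ _ hR hB hA).1, ?_⟩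
  rintro ⟨X, Y, hXY⟩
  have hn0 : 0 < n := by
    rcases Nat.eq_zero_or_pos n with h | h
    · exact absurd (by rw [h]; exact dvd_zero q) hqn
    · exact h
  have h3 : 3 ≤ |(n : ℤ) * q| := by
    have h1 : (3 : ℤ) ≤ (n : ℤ) * q := by
      have h2 : 3 ≤ n * q := by nlinarith
      exact_mod_cast h2
    exact h1.trans (le_abs_self _)
  have hH : HypM ((n : ℤ) * q) := hHYPS n m k π p e r f w0 c q ρ (b (Fin.last s)) hNF hq hIn hqn
    hqρ hwt hdet (hAdm _) h1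
  obtain ⟨a, x, hC⟩ := hFD1 ((n : ℤ) * q) hB h3 hH ⟨X, Y, by rw [hXY]; push_cast; ring⟩
  obtain ⟨z, X1, Y1, hPt, hAz, hsupp, hcube⟩ := hFD2S n q a x hq hIn.1 hqn hn0 hB hC
  obtain ⟨hz1, hz2⟩ := (hE z hsupp).2 hAz
  have hρn : ¬ ρ.1 ∣ (n : Eis) := by
    intro h2
    have h4 := (hSPLT.2 q ρ hq hIn.1 hqρ).2.2.2.1 (n : ℤ)
    rw [Int.cast_natCast] at h4
    exact hqn (Int.natCast_dvd_natCast.1 (h4.1 h2))
  obtain ⟨g, u, t, hu, ht, hg⟩ := (hρ ρ hρn h0 h1).2 z hz1 hz2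
  exact det_zero hTEND hR hB hA hPt hcube hu ht hg

end Pool.Agent.PTE
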