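import Pool.Agent.PTE.Stmts
import Pool.Agent.PT.EBAS
import Pool.Agent.PT.EVEC

/-!
# Twists by primes `q = 1 (mod 3)`: bases adapted to a hyperplane (module EHPL)
-/

namespace Pool.Agent.PTE

open Pool.Agent.Lib_helper18 Pool.Agent.Lib_helper18.Eis Pool.Agent.Lib_helper84.Cub
open Pool.Agent.PT

namespace EHPL

/-- A linear form that vanishes on the kernel of another one. -/
theorem form_eq {M : Type} [AddCommGroup M] [Module (ZMod 3) M] (D F : M →ₗ[ZMod 3] ZMod 3)
    (h : ∀ x, D x = 0 → F x = 0) (y : M) (hD : D y ≠ 0) (hF : F y ≠ 0) :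
    ∃ ε : ZMod 3, ε ≠ 0 ∧ ∀ x, F x = ε * D x := by
  refine ⟨F y / D y, div_ne_zero hF hD, fun x => ?_⟩
  have h1 : F (x - (D x / D y) • y) = 0 := by
    apply h
    rw [map_sub, map_smul, smul_eq_mul, div_mul_cancel₀ _ hD, sub_self]
  rw [map_sub, map_smul, smul_eq_mul, sub_eq_zero] at h1
  rw [h1]
  ring

/-- A basis adapted to the kernel of a nonzero form `D` such that the form `W` vanishes at all its
members with at most one exception. -/
theorem exists_family {M : Type} [AddCommGroup M] [Module (ZMod 3) M] [Module.Finite (ZMod 3) M]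
    (W D : M →ₗ[ZMod 3] ZMod 3) (hD : D ≠ 0) :
    ∃ (s : ℕ) (b : Fin (s + 1) → M), s + 1 = Module.finrank (ZMod 3) M ∧
      (∀ g : Fin (s + 1) → ZMod 3, ∑ i, g i • b i = 0 → ∀ i, g i = 0) ∧
      (∀ i j, i ≠ j → W (b i) = 0 ∨ W (b j) = 0) ∧
      (∀ i : Fin s, D (b i.castSucc) = 0) ∧ D (b (Fin.last s)) ≠ 0 ∧
      ∀ x, D x = 0 → ∃ g : Fin s → ZMod 3, x = ∑ i, g i • b i.castSucc := by
  classical
  obtain ⟨bH, hbH⟩ := EBAS.exists_basis W (LinearMap.ker D)
  have hDb : ∀ i, D (bH i : M) = 0 := fun i => LinearMap.mem_ker.mp (bH i).2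
  obtain ⟨y0, hy0⟩ : ∃ y, D y ≠ 0 := by
    by_contra hc
    push Not at hc
    exact hD (LinearMap.ext hc)
  obtain ⟨y, hy, hyW⟩ : ∃ y, D y ≠ 0 ∧ (W y = 0 ∨ ∀ i, W (bH i : M) = 0) := by
    by_cases h : ∀ i, W (bH i : M) = 0
    · exact ⟨y0, hy0, Or.inr h⟩
    · push Not at h
      obtain ⟨i0, hi0⟩ := h
      refine ⟨y0 - (W y0 / W (bH i0 : M)) • (bH i0 : M), ?_, Or.inl ?_⟩
      · rw [map_sub, map_smul, hDb, smul_zero, sub_zero]
        exact hy0
      · rw [map_sub, map_smul, smul_eq_mul, div_mul_cancel₀ _ hi0, sub_self]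
  have hrk : Module.finrank (ZMod 3) (LinearMap.ker D) + 1 = Module.finrank (ZMod 3) M := by
    have h1 := LinearMap.finrank_range_add_finrank_ker D
    rw [LinearMap.range_eq_top.mpr (LinearMap.surjective hD), finrank_top,
      Module.finrank_self] at h1
    omega
  let b : Fin (Module.finrank (ZMod 3) (LinearMap.ker D) + 1) → M :=
    Fin.snoc (α := fun _ => M) (fun i => (bH i : M)) y
  have hb1 : ∀ i : Fin (Module.finrank (ZMod 3) (LinearMap.ker D)),
      b i.castSucc = (bH i : M) := fun i => Fin.snoc_castSucc (α := fun _ => M) _ _ _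
  have hb2 : b (Fin.last _) = y := Fin.snoc_last (α := fun _ => M) _ _
  refine ⟨_, b, hrk, fun g hg => ?_, fun i j hij => ?_, fun i => ?_, ?_, fun x hx => ?_⟩
  · rw [Fin.sum_univ_castSucc, hb2] at hg
    simp only [hb1] at hg
    have hl : g (Fin.last _) = 0 := by
      have h1 := congrArg D hg
      rw [map_add, map_sum, map_smul, map_zero, smul_eq_mul] at h1
      have h2 : ∑ i, D (g (Fin.castSucc i) • (bH i : M)) = 0 :=
        Finset.sum_eq_zero fun i _ => by rw [map_smul, hDb, smul_zero]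
      rw [h2, zero_add] at h1
      exact (mul_eq_zero.mp h1).resolve_right hy
    rw [hl, zero_smul, add_zero] at hg
    have h3 : ∑ i, g (Fin.castSucc i) • bH i = 0 := by
      apply Subtype.ext
      rw [AddSubmonoidClass.coe_finsetSum]
      exact hg
    have h4 := Fintype.linearIndependent_iff.mp bH.linearIndependent _ h3
    intro i
    induction i using Fin.lastCases with
    | last => exact hl
    | cast i => exact h4 i
  · induction i using Fin.lastCases with
    | last =>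
      induction j using Fin.lastCases with
      | last => exact absurd rfl hij
      | cast j =>
        rw [hb2, hb1]
        rcases hyW with h | h
        · exact Or.inl h
        · exact Or.inr (h j)
    | cast i =>
      induction j using Fin.lastCases with
      | last =>
        rw [hb2, hb1]
        rcases hyW with h | h
        · exact Or.inr h
        · exact Or.inl (h i)
      | cast j =>
        rw [hb1, hb1]
        exact hbH i j fun h => hij (congrArg _ h)
  · rw [hb1]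
    exact hDb i
  · rw [hb2]
    exact hy
  · refine ⟨fun i => bH.repr ⟨x, LinearMap.mem_ker.mpr hx⟩ i, ?_⟩
    simp only [hb1]
    have h3 := congrArg (fun z : LinearMap.ker D => (z : M))
      (bH.sum_repr ⟨x, LinearMap.mem_ker.mpr hx⟩)
    simp only [AddSubmonoidClass.coe_finsetSum] at h3
    exact h3.symm

/-- The linear form with given values at the primes. -/
def Fm {m k : ℕ} (a : Fin m → ZMod 3) (b : Fin k → ZMod 3) :
    EBAS.EV m k →ₗ[ZMod 3] ZMod 3 where
  toFun v := (∑ i, v.1 i * a i) + ∑ j, v.2 j * b j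
  map_add' := by
    intro v v'
    simp only [Prod.fst_add, Prod.snd_add, Pi.add_apply, add_mul, Finset.sum_add_distrib]
    ring
  map_smul' := by
    intro t v
    simp only [Prod.smul_fst, Prod.smul_snd, Pi.smul_apply, smul_eq_mul, mul_assoc,
      RingHom.id_apply, ← Finset.mul_sum]
    ring

section

variable {n m k : ℕ} {π : Fin m → PP} {p e : Fin m → ℕ} {r f : Fin k → ℕ}

/-- A prime not dividing `n` does not divide the numbers supported on `n`. -/
theorem not_dvd (hSPP : SPP) (ρ : PP) (hρ : ¬ ρ.1 ∣ (n : Eis)) {x : ℤ}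
    (hs : ∀ l : ℕ, l.Prime → (l : ℤ) ∣ x → l ∣ n) : ¬ ρ.1 ∣ (x : Eis) := by
  intro hd
  obtain ⟨l, hl, hcase⟩ := hSPP.2.2.2.2.2 ρ
  have h1 : ρ.1 ∣ (l : Eis) ∧ (l : ℤ) ∣ x := by
    rcases hcase with ⟨-, h1⟩ | ⟨h0, h1, h2, h3⟩
    · refine ⟨dvd_of_eq h1, EBAS.int_dvd ?_⟩
      rw [h1] at hd
      push_cast
      exact hd
    · refine ⟨⟨conj ρ.1, h2⟩, ?_⟩
      exact EVEC.Sp.dvd_int ⟨hl, h0, ρ.2.1, (hSPP.2.2.2.1 ρ).1, h1, h2, h3⟩ hd
  refine hρ (h1.1.trans ?_)
  obtain ⟨c, hc⟩ := hs l hl h1.2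
  refine ⟨(c : Eis), ?_⟩
  rw [hc]
  push_cast
  rfl

/-- The symbol as a function of the exponent vector. -/
theorem sym_eq (hSPP : SPP) (h : NF n π p e r f) (ρ : PP) (hρ : ¬ ρ.1 ∣ (n : Eis)) {x : ℤ}
    (hx : x ≠ 0) (hs : ∀ l : ℕ, l.Prime → (l : ℤ) ∣ x → l ∣ n) :
    sym ρ.1 (x : Eis) = Fm (fun i => ch ρ.1 (p i : Eis)) (fun j => ch ρ.1 (r j : Eis))
      (EBAS.ev p r x) := by
  have hcast : ∀ a : ℤ, a ≠ 0 → (a : Eis) ≠ 0 := by
    intro a ha h0
    apply ha
    have := congrArg Eis.re h0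
    simpa using this
  have h1 := EVEC.fun_eq h (fun a : ℤ => ch ρ.1 (a : Eis)) (fun a b ha hb _ _ => by
    rw [Int.cast_mul]
    exact EVEC.ch_mul ρ.2.1 (hSPP.2.2.2.1 ρ).1 (hcast a ha) (hcast b hb)) (by
    rw [Int.cast_neg, Int.cast_one]
    exact EVEC.ch_neg_one ρ.2.1 (hSPP.2.2.2.1 ρ).1) hx hs
  simp only [Int.cast_natCast] at h1
  rw [← EVEC.ch_not_dvd ρ.2.1 (not_dvd hSPP ρ hρ hs), h1]
  rfl

end

end EHPL

open EHPL EBAS in
/-- EHPL: bases of the admissible classes adapted to a hyperplane. -/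
theorem EHPL_thm (hEVEC : EVEC) (hSPP : SPP) (hSTM : STM) : EHPL := by
  classical
  intro n m k π p e r f w0 c h _ hw hdet
  obtain ⟨hE1, hE2⟩ := hEVEC n m k π p e r f w0 c h
  have hB0 : ∀ v : EV m k, (toN p r v : ℤ) ≠ 0 := fun v => by
    exact_mod_cast toN_ne h v
  set S : Submodule (ZMod 3) (EV m k) := LinearMap.ker (Lm n π p e r c) with hS
  have hSk : Module.finrank (ZMod 3) S = k := by
    have h1 := LinearMap.finrank_range_add_finrank_ker
      (Lm n π p e r c : EV m k →ₗ[ZMod 3] (Fin m → ZMod 3))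
    rw [LinearMap.range_eq_top.mpr (surj_none n π p e r c hdet), finrank_top] at h1
    simp only [Module.finrank_prod, Module.finrank_fintype_fun_eq_card, Fintype.card_fin] at h1
    rw [hS]
    omega
  have hadm : ∀ x : ℤ, x ≠ 0 → ¬ (3 : ℤ) ∣ x → (∀ l : ℕ, l.Prime → (l : ℤ) ∣ x → l ∣ n) →
      (AdmC n π w0 c x ↔ ev p r x ∈ S) := by
    intro x h1 h2 h3
    rw [(hE1 x h1 h2 h3).1, hS, LinearMap.mem_ker, funext_iff]
    exact ⟨fun h4 => h4.1, fun h4 => ⟨h4, fun h5 => absurd h5 hw⟩⟩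
  have hadmB : ∀ u : S, AdmC n π w0 c (toN p r (u : EV m k) : ℤ) := by
    intro u
    rw [hadm _ (hB0 _) (three_toN h _) (supp_toN h _), ev_toN h]
    exact u.2
  let B0 : Module.Basis (Fin k) (ZMod 3) S := Module.finBasisOfFinrankEq (ZMod 3) S hSk
  refine ⟨fun i => (toN p r (B0 i : EV m k) : ℤ), fun i => hadmB _, fun δ hδ => ?_⟩
  let D : S →ₗ[ZMod 3] ZMod 3 := B0.constr (ZMod 3) δ
  have hDB : ∀ i, D (B0 i) = δ i := fun i => B0.constr_basis (ZMod 3) δ i
  have hD : D ≠ 0 := by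
    intro h0
    apply hδ
    funext i
    rw [← hDB i, h0]
    rfl
  obtain ⟨s, b, hs, hli, hW, hb0, hb1, hspan⟩ := exists_family ((Wm p r).comp S.subtype) D hD
  refine ⟨s, fun i => (toN p r (b i : EV m k) : ℤ), hs.trans hSk, fun i => hadmB _,
    fun i π' => ?_, fun g hg => ?_, fun i j hij => ?_, fun ρ hρ hρ0 hρ1 => ?_⟩
  · obtain ⟨l, hl, hle⟩ := V_le hSPP π' (hB0 (b i))
    refine hle.trans ?_
    rw [padicValInt.of_nat]
    exact val_le h _ l hl
  · rintro ⟨t, ht⟩
    have hprod : ∏ i, (toN p r (b i : EV m k) : ℤ) ^ g i ≠ 0 :=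
      Finset.prod_ne_zero_iff.mpr fun i _ => pow_ne_zero _ (hB0 _)
    have ht0 : t ≠ 0 := by
      rintro rfl
      apply hprod
      rw [← ht]
      norm_num
    have h1 := ev_prod h (fun i => (toN p r (b i : EV m k) : ℤ)) (fun i => hB0 _) g
    rw [← ht, ev_cube h t ht0] at h1
    simp only [ev_toN h] at h1
    have h2 : ∑ i, (g i : ZMod 3) • b i = 0 := by
      apply Subtype.ext
      rw [AddSubmonoidClass.coe_finsetSum]
      exact h1.symm
    have h3 := hli _ h2
    obtain ⟨i, hi⟩ := hg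
    exact hi ((ZMod.natCast_eq_zero_iff _ _).mp (h3 i))
  · have h1 : ∀ i, C9 (toN p r (b i : EV m k) : ℤ) ↔ Wm p r (b i : EV m k) = 0 := by
      intro i
      rw [(hE1 _ (hB0 _) (three_toN h _) (supp_toN h _)).2]
      change Wm p r (ev p r (toN p r (b i : EV m k) : ℤ)) = 0 ↔ _
      rw [ev_toN h]
    rcases hW i j hij with h2 | h2
    · exact Or.inl ((h1 i).mpr h2)
    · exact Or.inr ((h1 j).mpr h2)
  · let F : S →ₗ[ZMod 3] ZMod 3 :=
      (Fm (fun i => ch ρ.1 (p i : Eis)) (fun j => ch ρ.1 (r j : Eis))).comp S.subtype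
    have hF : ∀ u : S, sym ρ.1 ((toN p r (u : EV m k) : ℤ) : Eis) = F u := by
      intro u
      rw [sym_eq hSPP h ρ hρ (hB0 _) (supp_toN h _), ev_toN h]
      rfl
    have hF0 : ∀ u : S, D u = 0 → F u = 0 := by
      intro u hu
      obtain ⟨g, hg⟩ := hspan u hu
      rw [hg, map_sum]
      refine Finset.sum_eq_zero fun i _ => ?_
      rw [map_smul, ← hF, hρ0 i, smul_zero]
    obtain ⟨ε, hε, hFD⟩ := form_eq D F hF0 (b (Fin.last s)) hb1 (by rw [← hF]; exact hρ1)
    refine ⟨⟨ε, hε, fun i => ?_⟩, fun x hx hx0 => ?_⟩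
    · rw [hF, hFD, hDB]
    · have hxS : ev p r x ∈ S := (hadm x hx.ne hx.three hx.supp).mp hx
      have hDx : D ⟨ev p r x, hxS⟩ = 0 := by
        have h1 := hFD ⟨ev p r x, hxS⟩
        have h2 : F ⟨ev p r x, hxS⟩ = 0 := by
          rw [sym_eq hSPP h ρ hρ hx.ne hx.supp] at hx0
          exact hx0
        rw [h2] at h1
        exact (mul_eq_zero.mp h1.symm).resolve_left hε
      obtain ⟨g, hg⟩ := hspan _ hDx
      refine ⟨fun i => (g i).val, ?_⟩
      rw [hE2 x _ hx.ne (Finset.prod_ne_zero_iff.mpr fun i _ => pow_ne_zero _ (hB0 _)) hx.supp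
        (fun l hl hd => ?_)]
      · have h1 := ev_prod h (fun i : Fin s => (toN p r (b i.castSucc : EV m k) : ℤ))
          (fun i => hB0 _) (fun i => (g i).val)
        simp only [ev_toN h, ZMod.natCast_zmod_val] at h1
        have h2 : ev p r x = ev p r (∏ i : Fin s, (toN p r (b i.castSucc : EV m k) : ℤ) ^
            (g i).val) := by
          rw [h1]
          have h3 := congrArg (fun z : S => (z : EV m k)) hg
          simp only [AddSubmonoidClass.coe_finsetSum] at h3
          exact h3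
        exact ⟨fun i => congrFun (congrArg Prod.fst h2) i,
          fun j => congrFun (congrArg Prod.snd h2) j⟩
      · obtain ⟨i, -, hi⟩ := (Nat.prime_iff_prime_int.mp hl).dvd_finsetProd_iff _ |>.mp hd
        exact supp_toN h _ l hl ((Nat.prime_iff_prime_int.mp hl).dvd_of_dvd_pow hi)

end Pool.Agent.PTE
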