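import Pool.Agent.PTE.Stmts
import Pool.Agent.PT.EHYP

/-!
# HYPS: the minus part of the Selmer group is trivial, twists by primes `= 1 (mod 3)`
-/

set_option autoImplicit false

namespace Pool.Agent.PTE

open Pool.Agent.Lib_helper18 Pool.Agent.Lib_helper18.Eis Pool.Agent.Lib_helper84.Cub
open Pool.Agent.PT Pool.Agent.PT.EHYP

namespace HYPS

section

variable {n m k : ℕ} {π : Fin m → PP} {p e : Fin m → ℕ} {r f : Fin k → ℕ}

/-- the extended normal form -/
theorem ext (h : NF n π p e r f) {q : ℕ} (ρ : PP) (hq : q.Prime) (hq1 : q % 3 = 1)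
    (hqn : ¬ q ∣ n) (hρ : (q : Eis) = ρ.1 * conj ρ.1) :
    NF (n * q) (Fin.cons ρ π : Fin (m + 1) → PP) (Fin.cons q p : Fin (m + 1) → ℕ)
      (Fin.cons 1 e : Fin (m + 1) → ℕ) r f where
  pp i := by
    refine Fin.cases ?_ (fun i => ?_) i
    · exact hq
    · exact h.pp i
  p1 i := by
    refine Fin.cases ?_ (fun i => ?_) i
    · exact hq1
    · exact h.p1 i
  pπ i := by
    refine Fin.cases ?_ (fun i => ?_) i
    · exact hρ
    · exact h.pπ i
  pe i := by
    refine Fin.cases ?_ (fun i => ?_) i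
    · exact Or.inl rfl
    · exact h.pe i
  pinj := by
    rw [Fin.cons_injective_iff]
    refine ⟨?_, h.pinj⟩
    rintro ⟨i, hi⟩
    apply hqn
    rw [← hi, h.eq]
    refine Dvd.dvd.mul_right ?_ _
    have h1 : p i ^ e i ∣ ∏ i, p i ^ e i := Finset.dvd_prod_of_mem _ (Finset.mem_univ i)
    refine (dvd_pow_self _ ?_).trans h1
    have := h.pe i
    omega
  rp := h.rp
  r2 := h.r2
  rf := h.rf
  rinj := h.rinj
  eq := by
    rw [Fin.prod_univ_succ]
    simp only [Fin.cons_zero, Fin.cons_succ, pow_one]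
    rw [h.eq]
    ring

theorem n_ne0 (h : NF n π p e r f) : (n : Eis) ≠ 0 := by
  intro h0
  have := congrArg Eis.re h0
  simp only [natCast_re, zero_re] at this
  exact n_ne h (by exact_mod_cast this)

/-- the primes dividing `n` -/
theorem cls (hSPP : SPP) (h : NF n π p e r f) {l : Eis} (hl : Prime l) (hd : l ∣ (n : Eis)) :
    (∃ i, Associated l (π i).1 ∨ Associated l (conj (π i).1)) ∨
      ∃ j, Associated l (r j : Eis) := by
  rw [h.eq] at hd
  push_cast at hd
  rcases hl.dvd_or_dvd hd with hd | hd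
  · obtain ⟨i, -, hi⟩ := hl.exists_mem_finset_dvd hd
    have h2 := hl.dvd_of_dvd_pow hi
    rw [h.pπ i] at h2
    left
    refine ⟨i, ?_⟩
    rcases hl.dvd_or_dvd h2 with h3 | h3
    · exact Or.inl (hl.associated_of_dvd (π i).2.1 h3)
    · exact Or.inr (hl.associated_of_dvd (prime_conj (π i).2.1) h3)
  · obtain ⟨j, -, hj⟩ := hl.exists_mem_finset_dvd hd
    have h2 := hl.dvd_of_dvd_pow hj
    exact Or.inr ⟨j, hl.associated_of_dvd (inert hSPP (h.rp j) (h.r2 j)).1 h2⟩

theorem e_sq (h : NF n π p e r f) (i : Fin m) : (e i : ZMod 3) * (e i : ZMod 3) = 1 := by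
  rcases h.pe i with h1 | h1 <;> rw [h1] <;> decide

/-- the local terms at a split pair -/
theorem pair (hSPP : SPP) (hSCJ : SCJ) (h : NF n π p e r f) {z t : Eis} (hz : z ≠ 0)
    (hzt : z * conj z = t ^ 3) (htm : ∀ σ : PP, tm σ.1 z (n : Eis) = 0) (i : Fin m) (x : ℤ)
    (hx : x ≠ 0) :
    tm (π i).1 z (x : Eis) + tm (conj (π i).1) z (x : Eis) =
      (e i : ZMod 3) * (V (π i).1 z : ZMod 3) * tm (π i).1 (x : Eis) (n : Eis) := by
  have hx0 : (x : Eis) ≠ 0 := by
    intro h0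
    have := congrArg Eis.re h0
    simp only [intCast_re, zero_re] at this
    exact hx this
  have h3 := (hSPP.2.2.2.1 (π i)).1
  obtain ⟨κ, hκ⟩ := (hSPP.2.2.2.1 (π i)).2
  have hA := htm (π i)
  have hA' := htm κ
  rw [hκ] at hA'
  have hc := hSCJ.1 (π i).1 (x : Eis) (n : Eis) (π i).2.1 h3 hx0 (n_ne0 h)
  rw [conj_intCast, conj_natCast] at hc
  have hVn : V (π i).1 (n : Eis) = e i := V_n_i hSPP h i
  have hVn' : V (conj (π i).1) (n : Eis) = e i := by
    have h1 := V_conj (π i).2.1 (n_ne0 h)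
    rw [conj_natCast, hVn] at h1
    exact h1
  have hV : ((V (π i).1 z + V (conj (π i).1) z : ℕ) : ZMod 3) = 0 :=
    (ZMod.natCast_eq_zero_iff _ 3).2 (V_add_conj (π i).2.1 hz hzt)
  push_cast at hV
  have hE := e_sq h i
  unfold tm at hA hA' hc ⊢
  rw [hVn] at hA hc ⊢
  rw [hVn'] at hA' hc
  have h0 := three_zero ((e i : ZMod 3) * (V (π i).1 z : ZMod 3) *
    ((e i : ZMod 3) * ch (π i).1 (x : Eis) - (V (π i).1 (x : Eis) : ZMod 3) *
      ch (π i).1 (n : Eis)))
  generalize (V (π i).1 z : ZMod 3) = v at *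
  generalize (V (conj (π i).1) z : ZMod 3) = v' at *
  generalize (e i : ZMod 3) = E at *
  generalize (V (π i).1 (x : Eis) : ZMod 3) = a at *
  generalize (V (conj (π i).1) (x : Eis) : ZMod 3) = a' at *
  generalize ch (π i).1 z = cz at *
  generalize ch (conj (π i).1) z = cz' at *
  generalize ch (π i).1 (x : Eis) = cx at *
  generalize ch (conj (π i).1) (x : Eis) = cx' at *
  generalize ch (π i).1 (n : Eis) = cn at *
  generalize ch (conj (π i).1) (n : Eis) = cn' at *
  linear_combination (exp := 1) E * a * hA + E * a' * hA' - (a * cz - v * cx) * hE -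
    (a' * cz' - v' * cx') * hE - h0 + v' * E * hc * (-1) +
    E * (E * cx - a * cn) * hV

/-- the local terms at the other places -/
theorem other (hSPP : SPP) (h : NF n π p e r f) {z t : Eis} (hz : z ≠ 0)
    (hzt : z * conj z = t ^ 3) (htm : ∀ σ : PP, tm σ.1 z (n : Eis) = 0)
    (hun : ∀ σ : PP, ¬ σ.1 ∣ (n : Eis) → 3 ∣ V σ.1 z) (x : ℤ)
    (hxn : ∀ σ : PP, σ.1 ∣ (x : Eis) → σ.1 ∣ (n : Eis)) (σ : PP)
    (h1 : ∀ i, ¬ Associated σ.1 (π i).1) (h2 : ∀ i, ¬ Associated σ.1 (conj (π i).1)) :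
    tm σ.1 z (x : Eis) = 0 := by
  by_cases hd : σ.1 ∣ (n : Eis)
  · rcases cls hSPP h σ.2.1 hd with ⟨i, h3 | h3⟩ | ⟨j, h3⟩
    · exact absurd h3 (h1 i)
    · exact absurd h3 (h2 i)
    · have hj := inert hSPP (h.rp j) (h.r2 j)
      have h4 : 3 ∣ V σ.1 z := by
        rw [V_assoc h3]
        exact self_conj hj.1 (by rw [conj_natCast]) hz hzt
      have h5 := htm σ
      unfold tm at h5 ⊢
      rw [(ZMod.natCast_eq_zero_iff _ 3).2 h4, zero_mul, sub_zero] at h5 ⊢
      have hf : (f j : ZMod 3) ≠ 0 := by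
        rcases h.rf j with h10 | h10 <;> rw [h10] <;> decide
      have : Fact (Nat.Prime 3) := ⟨Nat.prime_three⟩
      rw [V_assoc h3, V_n_j hSPP h] at h5
      rw [(mul_eq_zero.1 h5).resolve_left hf, mul_zero]
  · unfold tm
    rw [V_eq_zero fun h3 => hd (hxn σ h3), (ZMod.natCast_eq_zero_iff _ 3).2 (hun σ hd)]
    simp

/-- the sum of the local terms -/
theorem finsum_tm (hSPP : SPP) (hSCJ : SCJ) (h : NF n π p e r f) {z t : Eis} (hz : z ≠ 0)
    (hzt : z * conj z = t ^ 3) (htm : ∀ σ : PP, tm σ.1 z (n : Eis) = 0)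
    (hun : ∀ σ : PP, ¬ σ.1 ∣ (n : Eis) → 3 ∣ V σ.1 z) (x : ℤ) (hx : x ≠ 0)
    (hxn : ∀ σ : PP, σ.1 ∣ (x : Eis) → σ.1 ∣ (n : Eis)) :
    ∑ᶠ σ : PP, tm σ.1 z (x : Eis) =
      ∑ i, (e i : ZMod 3) * (V (π i).1 z : ZMod 3) * tm (π i).1 (x : Eis) (n : Eis) := by
  classical
  choose κ hκ using fun i => (hSPP.2.2.2.1 (π i)).2
  have hg : Function.Injective (Sum.elim π κ) := by
    rintro (i | i) (j | j) hij
    · have h1 : π i = π j := hij
      rw [assoc_iff h i j (by rw [h1])]
    · have h1 : π i = κ j := hij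
      exact absurd (by rw [h1, hκ j]) (not_assoc h i j)
    · have h1 : κ i = π j := hij
      exact absurd (by rw [← h1, hκ i]) (not_assoc h j i)
    · have h1 : κ i = κ j := hij
      have h2 : conj (π i).1 = conj (π j).1 := by rw [← hκ i, ← hκ j, h1]
      have h3 : (π i).1 = (π j).1 := by rw [← conj_conj (π i).1, h2, conj_conj]
      rw [assoc_iff h i j (by rw [h3])]
  have hsup : Function.support (fun σ : PP => tm σ.1 z (x : Eis)) ⊆
      ((Finset.univ.image (Sum.elim π κ) : Finset PP) : Set PP) := by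
    intro σ hσ
    by_contra hn
    apply hσ
    have hn' : ∀ y, Sum.elim π κ y ≠ σ := by
      intro y hy
      apply hn
      rw [Finset.mem_coe, Finset.mem_image]
      exact ⟨y, Finset.mem_univ _, hy⟩
    refine other hSPP h hz hzt htm hun x hxn σ (fun i hi => ?_) fun i hi => ?_
    · exact hn' (Sum.inl i) (hSPP.2.1 _ _ hi.symm)
    · exact hn' (Sum.inr i) (hSPP.2.1 _ _ (by
        change Associated (κ i).1 σ.1
        rw [hκ i]
        exact hi.symm))
  rw [finsum_eq_sum_of_support_subset _ hsup, Finset.sum_image fun a _ b _ hab => hg hab,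
    Fintype.sum_sum_type, ← Finset.sum_add_distrib]
  refine Finset.sum_congr rfl fun i _ => ?_
  rw [← pair hSPP hSCJ h hz hzt htm i x hx]
  change tm (π i).1 z (x : Eis) + tm (κ i).1 z (x : Eis) = _
  rw [hκ i]

end

/-- a rational integer supported on `n` -/
theorem supp (hSPP : SPP) {n : ℕ} {x : ℤ} (hs : ∀ l : ℕ, l.Prime → (l : ℤ) ∣ x → l ∣ n)
    (σ : PP) (hd : σ.1 ∣ (x : Eis)) : σ.1 ∣ (n : Eis) := by
  obtain ⟨l, hl, h1⟩ := hSPP.2.2.2.2.2 σ
  have h2 : (l : ℤ) ∣ σ.1.norm := by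
    rcases h1 with ⟨-, h1⟩ | ⟨-, h1, -⟩
    · rw [h1, norm_natCast]
      exact dvd_pow_self _ (by norm_num)
    · rw [h1]
  have h3 : (l : ℤ) ∣ x ^ 2 := by
    refine h2.trans ?_
    obtain ⟨y, hy⟩ := hd
    rw [← norm_intCast, hy, norm_mul]
    exact dvd_mul_right _ _
  have h4 : (l : ℤ) ∣ x := (Nat.prime_iff_prime_int.1 hl).dvd_of_dvd_pow h3
  have h5 : (l : Eis) ∣ (n : Eis) := by
    obtain ⟨y, hy⟩ := hs l hl h4
    exact ⟨(y : Eis), by rw [hy]; push_cast; rfl⟩
  refine Dvd.dvd.trans ?_ h5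
  rcases h1 with ⟨-, h1⟩ | ⟨-, -, h1, -⟩
  · rw [h1]
  · rw [h1]
    exact dvd_mul_right _ _

end HYPS

open HYPS in
/-- HYPS -/
theorem HYPS_thm (_hSTM : STM) (hSPP : SPP) (hSSL : SSL) (hSREC : SREC) (hSCJ : SCJ)
    (_hSPLT : SPLT) : HYPS := by
  intro n m k π p e r f w0 c q ρ y h hq hcl hqn hρ hw0 hdet hy hsy z t hz hzt htm hun
  obtain ⟨hq1, hq9, hqs⟩ := hcl
  have h' := ext h ρ hq hq1 hqn hρ
  have hB : (((n : ℤ) * q : ℤ) : Eis) = ((n * q : ℕ) : Eis) := by push_cast; rfl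
  rw [hB] at htm hun
  have hB2 : ((n * q : ℕ) : Eis) = (n : Eis) * (q : Eis) := by push_cast; rfl
  have hn0 := n_ne0 h
  have hB0 := n_ne0 h'
  have hq0 : (q : Eis) ≠ 0 := fun h0 => hB0 (by rw [hB2, h0, mul_zero])
  have h3n := three_n h
  have hun2 : ∀ σ : PP, ¬ σ.1 ∣ ((((n * q : ℕ) : ℤ) * (2 : ℕ) : ℤ) : Eis) → 3 ∣ V σ.1 z := by
    intro σ hσ
    refine hun σ fun h1 => hσ ?_
    push_cast
    rw [hB2] at h1
    exact Dvd.dvd.mul_right h1 _
  obtain ⟨a, hF, hcube⟩ := decomp hSPP h' Nat.prime_two rfl hz hzt hun2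
  have h3 : ∀ i, ¬ (π i).1 ∣ 3 := fun i => (hSPP.2.2.2.1 (π i)).1
  have hP : ∀ σ : PP, Prim σ.1 := fun σ => ⟨σ.2.2.2, by
    have := σ.2.2.1
    omega⟩
  have hPB : Prim ((n * q : ℕ) : Eis) := by
    refine ⟨by simp, ?_⟩
    rw [natCast_re]
    intro h4
    have h5 : 3 ∣ n * q := by exact_mod_cast h4
    rcases (Nat.prime_three.dvd_mul).1 h5 with h5 | h5
    · exact h3n h5
    · omega
  -- the unit
  have ha : (a : ZMod 3) = 0 := by
    have hsl : sl z ((n * q : ℕ) : Eis) = 0 := by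
      unfold sl
      rw [finsum_eq_zero_of_forall_eq_zero fun π => htm π, neg_zero]
    have h2 := hF _ (add3_sl hSSL hB0)
    have h4 : ∀ σ : PP, sl σ.1 ((n * q : ℕ) : Eis) = 0 := fun σ => hSREC.1 _ _ (hP σ) hPB
    have h5 : ∀ σ : PP, sl (conj σ.1) ((n * q : ℕ) : Eis) = 0 := fun σ =>
      hSREC.1 _ _ (hP σ).conj hPB
    simp only [h4, h5, sub_zero, mul_zero, Finset.sum_const_zero, add_zero] at h2
    rw [hsl, hSSL.2.1 _ w hB0 w_ne, hSREC.2.1 _ hPB] at h2
    have h6 : wt ((n * q : ℕ) : Eis).norm = wt ((n : ℤ) ^ 2) + w0 := by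
      rw [← hq9, ← wt_mul]
      · rw [norm_natCast]
        push_cast
        rw [mul_pow]
      · exact sq_mod_three fun h7 => h3n (by exact_mod_cast h7)
      · refine sq_mod_three fun h7 => ?_
        have h8 : 3 ∣ q := by exact_mod_cast h7
        omega
    rw [← h6] at hw0
    have h8 : (a : ZMod 3) * wt ((n * q : ℕ) : Eis).norm = 0 := by linear_combination h2
    have : Fact (Nat.Prime 3) := ⟨Nat.prime_three⟩
    exact (mul_eq_zero.1 h8).resolve_right hw0
  -- the product formula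
  have key : ∀ x : ℤ, x ≠ 0 → ¬ (3 : ℤ) ∣ x → (∀ σ : PP, σ.1 ∣ (x : Eis) → σ.1 ∣ (n : Eis)) →
      (V ρ.1 z : ZMod 3) * tm ρ.1 (x : Eis) ((n * q : ℕ) : Eis) +
        ∑ i, (e i : ZMod 3) * (V (π i).1 z : ZMod 3) *
          tm (π i).1 (x : Eis) ((n * q : ℕ) : Eis) = 0 := by
    intro x hx hx3 hxn
    have hx0 : (x : Eis) ≠ 0 := by
      intro h0
      have := congrArg Eis.re h0
      simp only [intCast_re, zero_re] at this
      exact hx this
    have hPx : Prim (x : Eis) := ⟨by simp, by rwa [intCast_re]⟩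
    have h2 := hF _ (add3_sl hSSL hx0)
    have h4 : ∀ σ : PP, sl σ.1 (x : Eis) = 0 := fun σ => hSREC.1 _ _ (hP σ) hPx
    have h5 : ∀ σ : PP, sl (conj σ.1) (x : Eis) = 0 := fun σ => hSREC.1 _ _ (hP σ).conj hPx
    simp only [h4, h5, sub_zero, mul_zero, Finset.sum_const_zero, add_zero, ha, zero_mul] at h2
    have h6 := finsum_tm hSPP hSCJ h' hz hzt htm hun x hx fun σ hσ => by
      rw [hB2]
      exact Dvd.dvd.mul_right (hxn σ hσ) _
    rw [Fin.sum_univ_succ] at h6
    simp only [Fin.cons_zero, Fin.cons_succ, Nat.cast_one, one_mul] at h6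
    rw [← h6]
    unfold sl at h2
    rwa [neg_eq_zero] at h2
  have hi : ∀ i, Prime (π i).1 := fun i => (π i).2.1
  have hqi : ∀ i, ¬ (π i).1 ∣ (q : Eis) := fun i h5 => by
    rw [hρ] at h5
    have h6 := not_assoc h' i.succ 0
    have h7 := mt (assoc_iff h' i.succ 0) (Fin.succ_ne_zero i)
    simp only [Fin.cons_zero, Fin.cons_succ] at h6 h7
    rcases (hi i).dvd_or_dvd h5 with h5 | h5
    · exact h7 ((hi i).associated_of_dvd ρ.2.1 h5)
    · exact h6 ((hi i).associated_of_dvd (prime_conj ρ.2.1) h5)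
  have hVB : ∀ i, V (π i).1 ((n * q : ℕ) : Eis) = e i := fun i => by
    rw [hB2, V_mul (hi i) hn0 hq0, V_n_i hSPP h, V_eq_zero (hqi i), add_zero]
  have hcB : ∀ i, ch (π i).1 ((n * q : ℕ) : Eis) = ch (π i).1 (n : Eis) + c i := fun i => by
    rw [hB2, ch_mul (hi i) (h3 i) hn0 hq0, ch_of_not_dvd (hi i) (hqi i), hqs i]
  have hρn : ¬ ρ.1 ∣ (n : Eis) := by
    intro h1
    rcases cls hSPP h ρ.2.1 h1 with ⟨i, h2 | h2⟩ | ⟨j, h2⟩
    · have h7 := mt (assoc_iff h' 0 i.succ) (Fin.succ_ne_zero i).symm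
      simp only [Fin.cons_zero, Fin.cons_succ] at h7
      exact h7 h2
    · have h6 := not_assoc h' 0 i.succ
      simp only [Fin.cons_zero, Fin.cons_succ] at h6
      exact h6 h2
    · have h6 := not_assoc_nat h' 0 (r j)
      simp only [Fin.cons_zero] at h6
      exact h6 h2
  have hVρB : V ρ.1 ((n * q : ℕ) : Eis) = 1 := by
    have h1 := V_n_i hSPP h' 0
    simpa only [Fin.cons_zero] using h1
  have htmρ : ∀ x : ℤ, ¬ ρ.1 ∣ (x : Eis) →
      tm ρ.1 (x : Eis) ((n * q : ℕ) : Eis) = sym ρ.1 (x : Eis) := by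
    intro x hx
    unfold tm
    rw [hVρB, V_eq_zero hx, ch_of_not_dvd ρ.2.1 hx]
    simp
  have : Fact (Nat.Prime 3) := ⟨Nat.prime_three⟩
  -- the prime above `q`
  have hy2 := supp hSPP hy.supp
  have hV0 : (V ρ.1 z : ZMod 3) = 0 := by
    have h1 := key y hy.ne hy.three hy2
    have h2 : ∀ i, (e i : ZMod 3) * (V (π i).1 z : ZMod 3) *
        tm (π i).1 (y : Eis) ((n * q : ℕ) : Eis) = 0 := by
      intro i
      have h4 := hy.sym i
      rw [V_n_i hSPP h, ← hcB i] at h4
      unfold tm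
      rw [hVB i, h4, mul_zero]
    rw [Finset.sum_congr rfl fun i _ => h2 i, Finset.sum_const_zero, add_zero,
      htmρ y fun h4 => hρn (hy2 ρ h4)] at h1
    exact (mul_eq_zero.1 h1).resolve_right hsy
  -- the other primes
  have hVi : ∀ i, (V (π i).1 z : ZMod 3) = 0 := by
    have hpn : ∀ i, (p i : Eis) ∣ (n : Eis) := fun i => by
      have h1 : p i ∣ n := by
        rw [h.eq]
        refine Dvd.dvd.mul_right ?_ _
        have h1 : p i ^ e i ∣ ∏ i, p i ^ e i := Finset.dvd_prod_of_mem _ (Finset.mem_univ i)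
        refine (dvd_pow_self _ ?_).trans h1
        have := h.pe i
        omega
      obtain ⟨d, hd⟩ := h1
      exact ⟨(d : Eis), by rw [hd]; push_cast; rfl⟩
    have hvec : Matrix.vecMul
        (Fin.cons 0 fun i => (e i : ZMod 3) * (V (π i).1 z : ZMod 3) : Fin (m + 1) → ZMod 3)
        (Mp n π p e r none c) = 0 := by
      funext b
      refine Fin.cases ?_ (fun i' => ?_) b
      · simp [Matrix.vecMul, dotProduct, Mp, Fin.sum_univ_succ]
      · have h1 : Matrix.vecMul
            (Fin.cons 0 fun i => (e i : ZMod 3) * (V (π i).1 z : ZMod 3) : Fin (m + 1) → ZMod 3)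
            (Mp n π p e r none c) i'.succ = ∑ i, (e i : ZMod 3) * (V (π i).1 z : ZMod 3) *
              (if i' = i then
                (e i : ZMod 3) * sym (π i).1 (conj (π i).1) - ch (π i).1 (n : Eis) - c i
              else (e i : ZMod 3) * sym (π i).1 (p i' : Eis)) := by
          simp [Matrix.vecMul, dotProduct, Mp, Fin.sum_univ_succ]
        rw [h1, Pi.zero_apply]
        have h2 := key (p i') (by exact_mod_cast (h.pp i').ne_zero) (by
          intro h4
          have h5 : 3 ∣ p i' := by exact_mod_cast h4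
          have := h.p1 i'
          omega) (fun σ hσ => by
          rw [Int.cast_natCast] at hσ
          exact hσ.trans (hpn i'))
        rw [hV0, zero_mul, zero_add] at h2
        rw [← h2]
        refine Finset.sum_congr rfl fun i _ => ?_
        congr 1
        rw [Int.cast_natCast]
        unfold tm
        rw [hVB i, hcB i]
        split_ifs with hii
        · subst hii
          have hcj : ¬ (π i').1 ∣ conj (π i').1 := fun h5 =>
            not_assoc h i' i' ((hi i').associated_of_dvd (prime_conj (π i').2.1) h5)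
          rw [h.pπ i', V_mul (hi i') (hi i').ne_zero (prime_conj (π i').2.1).ne_zero, V_self,
            V_eq_zero hcj, ch_mul (hi i') (h3 i') (hi i').ne_zero
              (prime_conj (π i').2.1).ne_zero, ch_self (hi i') (h3 i'),
            ch_of_not_dvd (hi i') hcj]
          push_cast
          ring
        · have hnd : ¬ (π i).1 ∣ (p i' : Eis) := by
            rw [h.pπ i']
            intro h5
            rcases (hi i).dvd_or_dvd h5 with h5 | h5
            · exact hii (assoc_iff h i i' ((hi i).associated_of_dvd (π i').2.1 h5)).symm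
            · exact not_assoc h i i' ((hi i).associated_of_dvd (prime_conj (π i').2.1) h5)
          rw [V_eq_zero hnd, ch_of_not_dvd (hi i) hnd]
          push_cast
          ring
    have hx := Matrix.eq_zero_of_vecMul_eq_zero hdet hvec
    intro i
    have h1 := congrFun hx i.succ
    simp only [Fin.cons_succ, Pi.zero_apply] at h1
    refine (mul_eq_zero.1 h1).resolve_left fun h2 => ?_
    have h4 := e_sq h i
    rw [h2, mul_zero] at h4
    exact zero_ne_one h4
  refine hcube ha fun i => ?_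
  refine Fin.cases ?_ (fun i => ?_) i
  · exact hV0
  · exact hVi i

end Pool.Agent.PTE
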