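import Pool.Agent.PTE.Stmts

/-!
# The number of classes modulo `f`
-/

namespace Pool.Agent.PTE

open Pool.Agent.PT

namespace CLSCS

lemma kappa_neg_one {f m : ℕ} (κ : (ZMod f)ˣ →* Multiplicative (Fin (m + 1) → ZMod 3)) :
    (κ (-1)).toAdd = 0 := by
  have h1 : κ (-1) * κ (-1) = 1 := by
    rw [← map_mul]
    simp
  have h2 : (κ (-1)).toAdd + (κ (-1)).toAdd = 0 := by
    have := congrArg Multiplicative.toAdd h1
    simpa using this
  funext i
  have h3 := congrFun h2 i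
  simp only [Pi.add_apply, Pi.zero_apply] at h3 ⊢
  generalize (κ (-1)).toAdd i = x at h3
  revert x
  decide

lemma kappa_neg {f m : ℕ} (κ : (ZMod f)ˣ →* Multiplicative (Fin (m + 1) → ZMod 3))
    (a : (ZMod f)ˣ) : (κ (-a)).toAdd = (κ a).toAdd := by
  have h : -a = -1 * a := by simp
  rw [h, map_mul, toAdd_mul, kappa_neg_one, zero_add]

lemma val_neg {f : ℕ} (hf : 0 < f) (h3 : 3 ∣ f) (a : (ZMod f)ˣ) (i j : ℕ) (hi : i < 3) (hj : j < 3)
    (hij : i + j = 3) (h : (a : ZMod f).val % 3 = i) : ((-a : (ZMod f)ˣ) : ZMod f).val % 3 = j := by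
  have : NeZero f := ⟨hf.ne'⟩
  have h0 : (a : ZMod f) ≠ 0 := by
    intro h0
    rw [h0, ZMod.val_zero] at h
    omega
  rw [Units.val_neg, ZMod.neg_val, if_neg h0]
  have hlt := ZMod.val_lt (a : ZMod f)
  obtain ⟨k, rfl⟩ := h3
  omega

end CLSCS

open CLSCS in
/-- CLSCS. -/
theorem CLSCS_thm : CLSCS := by
  intro f m κ hf h9 H c
  have h3 : 3 ∣ f := (by norm_num : 3 ∣ 9).trans h9
  rw [← H c]
  congr 1
  refine Nat.card_congr
    { toFun := fun a => ⟨-a.1, ?_, ?_⟩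
      invFun := fun a => ⟨-a.1, ?_, ?_⟩
      left_inv := fun a => by simp
      right_inv := fun a => by simp }
  · exact val_neg hf h3 a.1 1 2 (by norm_num) (by norm_num) rfl a.2.1
  · rw [kappa_neg]; exact a.2.2
  · exact val_neg hf h3 a.1 2 1 (by norm_num) (by norm_num) rfl a.2.1
  · rw [kappa_neg]; exact a.2.2

end Pool.Agent.PTE
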