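import Pool.Agent.PTE.Stmts
import Pool.Agent.PT.DCNT

/-!
# DCNTS: elements with nonsingular matrix in a class of the Galois group
-/

namespace Pool.Agent.PTE.DCNTS

open Pool.Agent.PT

/-- the nonsingular alternating matrices -/
theorem nonsing (hSING : SING) (s : ℕ) (hs : Even s) :
    rh s * (Nat.card (Fin s → Fin s → ZMod 3) : ℝ) ≤
      (Nat.card {v : Fin s → Fin s → ZMod 3 // (alt v).det ≠ 0} : ℝ) := by
  classical
  by_cases h0 : s = 0
  · subst h0
    have h1 : Nat.card {v : Fin 0 → Fin 0 → ZMod 3 // (alt v).det ≠ 0} =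
        Nat.card (Fin 0 → Fin 0 → ZMod 3) := by
      refine Nat.card_congr (Equiv.subtypeUnivEquiv fun v => ?_)
      rw [Matrix.det_isEmpty]
      exact one_ne_zero
    rw [h1, rh, if_pos rfl, one_mul]
  · have h1 := hSING s hs
    have h2 : Nat.card {v : Fin s → Fin s → ZMod 3 // (alt v).det = 0} +
        Nat.card {v : Fin s → Fin s → ZMod 3 // (alt v).det ≠ 0} =
        Nat.card (Fin s → Fin s → ZMod 3) := by
      rw [← Nat.card_sum]
      exact Nat.card_congr (Equiv.sumCompl fun v : Fin s → Fin s → ZMod 3 => (alt v).det = 0)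
    have h3 : 5 * Nat.card (Fin s → Fin s → ZMod 3) ≤
        8 * Nat.card {v : Fin s → Fin s → ZMod 3 // (alt v).det ≠ 0} := by
      omega
    have h4 : (5 : ℝ) * Nat.card (Fin s → Fin s → ZMod 3) ≤
        8 * Nat.card {v : Fin s → Fin s → ZMod 3 // (alt v).det ≠ 0} := by
      exact_mod_cast h3
    rw [rh, if_neg h0]
    linarith

/-- the number of elements in a class -/
theorem cls {f : ℕ} {G : Type} [Group G] [Finite G] (χ : G →* (ZMod f)ˣ) (hf : 0 < f)
    (hχ : Function.Surjective χ) (a : (ZMod f)ˣ) :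
    Nat.card {g : G // χ g = a} * f.totient = Nat.card G := by
  have : NeZero f := ⟨hf.ne'⟩
  obtain ⟨g0, hg0⟩ := hχ a
  have h1 : Nat.card {g : G // χ g = a} = Nat.card χ.ker := by
    refine Nat.card_congr ⟨fun g => ⟨g0⁻¹ * g.1, ?_⟩, fun g => ⟨g0 * g.1, ?_⟩, ?_, ?_⟩
    · rw [MonoidHom.mem_ker, map_mul, map_inv, hg0, g.2, inv_mul_cancel]
    · rw [map_mul, hg0, MonoidHom.mem_ker.mp g.2, mul_one]
    · intro g
      exact Subtype.ext (mul_inv_cancel_left _ _)
    · intro g
      exact Subtype.ext (inv_mul_cancel_left _ _)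
  have h2 : χ.ker.index = f.totient := by
    rw [Subgroup.index_ker, MonoidHom.range_eq_top.mpr hχ, Subgroup.card_top,
      Nat.card_eq_fintype_card, ZMod.card_units_eq_totient]
  rw [h1, ← h2, Subgroup.card_mul_index]

end Pool.Agent.PTE.DCNTS

namespace Pool.Agent.PTE

open Pool.Agent.PT

open DCNT (Up alt_congr) in
theorem DCNTS_thm (hSING : SING) : DCNTS := by
  classical
  intro s f G _ _ χ F t hs hf hχ ht hc a C ha
  have hft : Fintype G := Fintype.ofFinite G
  let A : Finset G := Finset.univ.filter fun g => χ g = a ∧ F g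
  have hcard : ∀ P : G → Prop, Nat.card {g : G // χ g = a ∧ F g ∧ P g} = (A.filter P).card := by
    intro P
    rw [Nat.card_eq_fintype_card, Fintype.card_subtype, Finset.filter_filter]
    simp only [and_assoc]
  have hA : ∀ v v' : Fin s → Fin s → ZMod 3,
      (A.filter fun g => Up (t g) v).card = (A.filter fun g => Up (t g) v').card := by
    intro v v'
    rw [← hcard, ← hcard]
    exact ht a v v' ha
  obtain ⟨N, K, hK, hNK⟩ := DCNT.count A t hA
  have hall : K * A.card = N * Nat.card (Fin s → Fin s → ZMod 3) := by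
    have h1 := hNK (fun _ => True) (fun _ _ _ _ => trivial)
    rw [Finset.filter_true, Finset.filter_true, Finset.card_univ] at h1
    rw [h1, Nat.card_eq_fintype_card]
  have hAc : Nat.card {g : G // χ g = a ∧ F g} = A.card := by
    rw [Nat.card_eq_fintype_card, Fintype.card_subtype]
  have hφ : (0 : ℝ) < (f.totient : ℝ) := by exact_mod_cast Nat.totient_pos.2 hf
  have h4 : (Nat.card G : ℝ) / f.totient = (Nat.card {g : G // χ g = a} : ℝ) := by
    rw [div_eq_iff hφ.ne']
    exact_mod_cast (DCNTS.cls χ hf hχ a).symm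
  have h5 : (2 / 3 ^ (s + 1) : ℝ) * (Nat.card {g : G // χ g = a} : ℝ) = (A.card : ℝ) := by
    have h6 : (3 : ℝ) ^ (s + 1) * (Nat.card {g : G // χ g = a ∧ F g} : ℝ) =
        2 * (Nat.card {g : G // χ g = a} : ℝ) := by exact_mod_cast hc a ha
    rw [div_mul_eq_mul_div, ← h6, hAc]
    field_simp
  have hKR : (0 : ℝ) < (K : ℝ) := by exact_mod_cast hK
  have hmain : ∀ P : (Fin s → Fin s → ZMod 3) → Prop, (∀ v w, Up v w → P v → P w) →
      Nat.card {v : Fin s → Fin s → ZMod 3 // P v} =
        Nat.card {v : Fin s → Fin s → ZMod 3 // (alt v).det ≠ 0} →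
      rh s * (2 / 3 ^ (s + 1)) * ((Nat.card G : ℝ) / f.totient) ≤
        (Nat.card {g : G // χ g = a ∧ F g ∧ P (t g)} : ℝ) := by
    intro P hP hPc
    have h1 := hNK P hP
    rw [← Fintype.card_subtype, ← Nat.card_eq_fintype_card, hPc] at h1
    have h2 := DCNTS.nonsing hSING s hs
    rw [hcard (fun g => P (t g)), mul_assoc, h4, h5]
    have h1R : (K : ℝ) * ((A.filter fun g => P (t g)).card : ℝ) =
        N * (Nat.card {v : Fin s → Fin s → ZMod 3 // (alt v).det ≠ 0} : ℝ) := by
      exact_mod_cast h1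
    have hallR : (K : ℝ) * (A.card : ℝ) = N * (Nat.card (Fin s → Fin s → ZMod 3) : ℝ) := by
      exact_mod_cast hall
    have h3 : (K : ℝ) * (rh s * (A.card : ℝ)) ≤
        (K : ℝ) * ((A.filter fun g => P (t g)).card : ℝ) := by
      calc (K : ℝ) * (rh s * (A.card : ℝ)) = rh s * ((K : ℝ) * (A.card : ℝ)) := by ring
        _ = N * (rh s * (Nat.card (Fin s → Fin s → ZMod 3) : ℝ)) := by
            rw [hallR]
            ring
        _ ≤ N * (Nat.card {v : Fin s → Fin s → ZMod 3 // (alt v).det ≠ 0} : ℝ) :=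
            mul_le_mul_of_nonneg_left h2 (Nat.cast_nonneg _)
        _ = _ := h1R.symm
    exact le_of_mul_le_mul_left h3 hKR
  constructor
  · refine hmain (fun v => (alt (C + v)).det ≠ 0) ?_ ?_
    · intro v w hvw hv
      have h1 : Up (C + w) (C + v) := fun j i hji => by
        simp [hvw j i hji]
      change (alt (C + w)).det ≠ 0
      rw [alt_congr h1]
      exact hv
    · exact Nat.card_congr ((Equiv.addLeft C).subtypeEquiv fun v => Iff.rfl)
  · refine hmain (fun v => (alt (C - v)).det ≠ 0) ?_ ?_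
    · intro v w hvw hv
      have h1 : Up (C - w) (C - v) := fun j i hji => by
        simp [hvw j i hji]
      change (alt (C - w)).det ≠ 0
      rw [alt_congr h1]
      exact hv
    · exact Nat.card_congr ((Equiv.subLeft C).subtypeEquiv fun v => Iff.rfl)

end Pool.Agent.PTE
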