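import Pool.Agent.PTE.Stmts
import Pool.Agent.PT.DENS

/-!
# Prime twists of rank zero, `k` odd: module DENSS (the density of the primes with nonsingular
matrix, for one hyperplane)
-/

set_option autoImplicit false

open NumberField IsDedekindDomain Finset
open scoped nonZeroDivisors Pointwise

namespace Pool.Agent.PTE

open Pool.Agent.Lib_helper18 Pool.Agent.Lib_helper18.Eis Pool.Agent.Lib_helper84.Cub
open Pool.Agent.PT

namespace DENSS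

lemma M1_iff {f : ℕ} [NeZero f] (h3 : 3 ∣ f) (a : (ZMod f)ˣ) :
    M1 a ↔ ZMod.castHom h3 (ZMod 3) (a : ZMod f) = 1 := by
  have h1 : ZMod.castHom h3 (ZMod 3) (a : ZMod f) = (((a : ZMod f).val : ℕ) : ZMod 3) := by
    rw [ZMod.castHom_apply, ZMod.cast_eq_val]
  rw [h1]
  unfold M1
  have h2 : ((1 : ℕ) : ZMod 3) = 1 := Nat.cast_one
  rw [← h2, ZMod.natCast_eq_natCast_iff']

section inv

variable {G : Type} [Group G] [Finite G] {s f m : ℕ} [NeZero f] {χ : G →* (ZMod f)ˣ}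
  {F : G → Prop}
  {t : G → Fin s → Fin s → ZMod 3} {κ : (ZMod f)ˣ →* Multiplicative (Fin (m + 1) → ZMod 3)}
  {Φ : (ZMod f)ˣ →* Multiplicative (Fin s → Fin s → ZMod 3)}

/-- Generators of conjugate cyclic subgroups have the same data up to a common sign. -/
lemma inv_main (h3 : 3 ∣ f)
    (hconj : ∀ g τ : G, M1 (χ g) → F g →
      F (τ * g * τ⁻¹) ∧ ∀ j i, j ≠ i → t (τ * g * τ⁻¹) j i = t g j i)
    (hpow : ∀ (g : G) (k : ℕ), M1 (χ g) → F g → ¬ 3 ∣ k →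
      F (g ^ k) ∧ ∀ j i, j ≠ i → t (g ^ k) j i = k * t g j i)
    {g h τ : G} (hg : M1 (χ g)) (hF : F g) (hne : (κ (χ g)).toAdd ≠ 0)
    (hz : Subgroup.zpowers h = Subgroup.zpowers (τ * g * τ⁻¹)) :
    M1 (χ h) ∧ F h ∧
    (((κ (χ h)).toAdd = (κ (χ g)).toAdd ∧ (Φ (χ h)).toAdd = (Φ (χ g)).toAdd ∧
        ∀ j i, j ≠ i → t h j i = t g j i) ∨
      ((κ (χ h)).toAdd = - (κ (χ g)).toAdd ∧ (Φ (χ h)).toAdd = - (Φ (χ g)).toAdd ∧
        ∀ j i, j ≠ i → t h j i = - t g j i)) := by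
  have hχ : χ (τ * g * τ⁻¹) = χ g := by
    rw [map_mul, map_mul, map_inv, mul_comm (χ τ) (χ g), mul_inv_cancel_right]
  have hg' : M1 (χ (τ * g * τ⁻¹)) := by rw [hχ]; exact hg
  obtain ⟨hF', htc⟩ := hconj g τ hg hF
  obtain ⟨k, hk⟩ : ∃ k : ℕ, (τ * g * τ⁻¹) ^ k = h := by
    have h1 : h ∈ Subgroup.zpowers (τ * g * τ⁻¹) := hz ▸ Subgroup.mem_zpowers h
    exact mem_powers_iff_mem_zpowers.mpr h1
  obtain ⟨l, hl⟩ : ∃ l : ℕ, h ^ l = τ * g * τ⁻¹ := by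
    have h1 : τ * g * τ⁻¹ ∈ Subgroup.zpowers h := hz ▸ Subgroup.mem_zpowers _
    exact mem_powers_iff_mem_zpowers.mpr h1
  have c1 : χ h = χ g ^ k := by rw [← hk, map_pow, hχ]
  have c2 : χ g = χ h ^ l := by rw [← map_pow, hl, hχ]
  have k1 : (κ (χ h)).toAdd = k • (κ (χ g)).toAdd := by rw [c1, map_pow, toAdd_pow]
  have k2 : (κ (χ g)).toAdd = l • (κ (χ h)).toAdd := by
    rw [← toAdd_pow, ← map_pow, ← c2]
  have p1 : (Φ (χ h)).toAdd = k • (Φ (χ g)).toAdd := by rw [c1, map_pow, toAdd_pow]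
  rw [← Nat.cast_smul_eq_nsmul (ZMod 3)] at k1 k2 p1
  have hk0 : (k : ZMod 3) ≠ 0 := by
    intro h0
    rw [h0, zero_smul] at k1
    rw [k1, smul_zero] at k2
    exact hne k2
  have h3k : ¬ 3 ∣ k := fun hd => hk0 ((ZMod.natCast_eq_zero_iff k 3).mpr hd)
  obtain ⟨hFk, htk⟩ := hpow _ k hg' hF' h3k
  rw [hk] at hFk htk
  have t1 : ∀ j i, j ≠ i → t h j i = k * t g j i := by
    intro j i hji
    rw [htk j i hji, htc j i hji]
  have hM : M1 (χ h) := by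
    rw [M1_iff h3] at hg ⊢
    rw [c1, Units.val_pow_eq_pow_val, map_pow, hg, one_pow]
  refine ⟨hM, hFk, ?_⟩
  have hcases : (k : ZMod 3) = 1 ∨ (k : ZMod 3) = -1 := by
    revert hk0
    generalize (k : ZMod 3) = x
    revert x
    decide
  rcases hcases with hk1 | hk2
  · left
    rw [hk1, one_smul] at k1 p1
    refine ⟨k1, p1, fun j i hji => ?_⟩
    rw [t1 j i hji, hk1, one_mul]
  · right
    rw [hk2, neg_smul, one_smul] at k1 p1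
    refine ⟨k1, p1, fun j i hji => ?_⟩
    rw [t1 j i hji, hk2, neg_mul, one_mul]

/-- The count for one class. -/
lemma count1 (c : Fin (m + 1) → ZMod 3) (R : G → Prop) (R' : (ZMod f)ˣ → G → Prop)
    (hRR : ∀ g, R g ↔ R' (χ g) g) (δ : ℝ)
    (hK : Nat.card {a : (ZMod f)ˣ // M1 a ∧ (κ a).toAdd = c} * (2 * 3 ^ (m + 1)) = f.totient)
    (hb : ∀ a, M1 a → δ * ((Nat.card G : ℝ) / f.totient) ≤
      (Nat.card {g : G // χ g = a ∧ R' a g} : ℝ)) :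
    δ * (Nat.card G : ℝ) / (2 * 3 ^ (m + 1)) ≤
      (Nat.card {g : G // (M1 (χ g) ∧ (κ (χ g)).toAdd = c) ∧ R g} : ℝ) := by
  classical
  have h1 := DENS.card_fib (G := G) (β := (ZMod f)ˣ) χ
    (fun a => M1 a ∧ (κ a).toAdd = c) R
  rw [h1]
  push_cast
  have h2 : ∀ a ∈ univ.filter (fun a : (ZMod f)ˣ => M1 a ∧ (κ a).toAdd = c),
      δ * ((Nat.card G : ℝ) / f.totient) ≤ (Nat.card {g : G // χ g = a ∧ R g} : ℝ) := by
    intro a ha
    simp only [Finset.mem_filter, Finset.mem_univ, true_and] at ha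
    refine le_trans (hb a ha.1) (le_of_eq ?_)
    congr 1
    refine Nat.card_congr (Equiv.subtypeEquivRight fun g => ?_)
    constructor
    · rintro ⟨h3, h4⟩
      exact ⟨h3, (hRR g).mpr (h3.symm ▸ h4)⟩
    · rintro ⟨h3, h4⟩
      exact ⟨h3, h3 ▸ (hRR g).mp h4⟩
  refine le_trans (le_of_eq ?_) (Finset.sum_le_sum h2)
  rw [Finset.sum_const, nsmul_eq_mul]
  rw [Nat.card_eq_fintype_card, Fintype.card_subtype] at hK
  have hφ : (0 : ℝ) < f.totient := by exact_mod_cast Nat.totient_pos.mpr (NeZero.pos f)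
  have hK' : ((univ.filter (fun a : (ZMod f)ˣ => M1 a ∧ (κ a).toAdd = c)).card : ℝ) *
      (2 * 3 ^ (m + 1)) = f.totient := by exact_mod_cast hK
  rw [← hK']
  have h5 : (0 : ℝ) < ((univ.filter (fun a : (ZMod f)ˣ => M1 a ∧ (κ a).toAdd = c)).card : ℝ) := by
    rcases Nat.eq_zero_or_pos (univ.filter (fun a : (ZMod f)ˣ => M1 a ∧ (κ a).toAdd = c)).card with
      h | h
    · rw [h, Nat.cast_zero, zero_mul] at hK'
      linarith
    · exact_mod_cast h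
  field_simp

end inv

lemma M1_Q {f Q : ℕ} (h3 : 3 ∣ f) (hc : Q.Coprime f) (h : M1 (ZMod.unitOfCoprime Q hc)) :
    Q % 3 = 1 := by
  unfold M1 at h
  rw [ZMod.coe_unitOfCoprime, ZMod.val_natCast, Nat.mod_mod_of_dvd _ h3] at h
  exact h

variable {s : ℕ} {C : Fin s → Fin s → ZMod 3}

/-- Transfer of the conditions. -/
lemma det_same {t₁ t₂ P₁ P₂ : Fin s → Fin s → ZMod 3} (hP : P₁ = P₂)
    (ht : ∀ j i, j ≠ i → t₁ j i = t₂ j i) :
    alt (C + P₁ + t₁) = alt (C + P₂ + t₂) ∧ alt (C - P₁ - t₁) = alt (C - P₂ - t₂) := by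
  subst hP
  refine ⟨DENS.alt_congr fun j i hji => ?_, DENS.alt_congr fun j i hji => ?_⟩
  · simp only [Pi.add_apply, ht j i hji.ne]
  · simp only [Pi.sub_apply, ht j i hji.ne]

lemma det_opp {t₁ t₂ P₁ P₂ : Fin s → Fin s → ZMod 3} (hP : P₁ = -P₂)
    (ht : ∀ j i, j ≠ i → t₁ j i = - t₂ j i) :
    alt (C + P₁ + t₁) = alt (C - P₂ - t₂) ∧ alt (C - P₁ - t₁) = alt (C + P₂ + t₂) := by
  subst hP
  refine ⟨DENS.alt_congr fun j i hji => ?_, DENS.alt_congr fun j i hji => ?_⟩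
  · simp only [Pi.sub_apply, Pi.add_apply, Pi.neg_apply, ht j i hji.ne]
    ring
  · simp only [Pi.sub_apply, Pi.add_apply, Pi.neg_apply, ht j i hji.ne]
    ring

end DENSS

open DENSS in
theorem DENSS_thm (hGALDS : GALDS) (hDCNTS : DCNTS) (hSPLT : SPLT) : DENSS := by
  classical
  intro s b p q p' q' f m κ c C Φ hSys hs hf h9 hc0 hK
  have : NeZero f := ⟨hf.ne'⟩
  have h3f : 3 ∣ f := dvd_trans (by norm_num) h9
  obtain ⟨L, iF, iN, iG, χ, F, t, N₀, hsurj, hconj, hpow, hcnt, hcntF, hfrob⟩ :=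
    hGALDS s b p q p' q' f hSys hf h9
  have hD := hDCNTS s f _ χ F t hs hf hsurj hcnt hcntF
  have hGpos : 0 < Nat.card (L ≃ₐ[ℚ] L) := Nat.card_pos
  let T : Set (L ≃ₐ[ℚ] L) := {g | ((M1 (χ g) ∧ (κ (χ g)).toAdd = c) ∧
      (F g ∧ (alt (C + (Φ (χ g)).toAdd + t g)).det ≠ 0)) ∨
      ((M1 (χ g) ∧ (κ (χ g)).toAdd = -c) ∧
      (F g ∧ (alt (C - (Φ (χ g)).toAdd - t g)).det ≠ 0))}
  have hTdat : ∀ g ∈ T, M1 (χ g) ∧ F g ∧ (κ (χ g)).toAdd ≠ 0 := by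
    rintro g (⟨⟨h1, h2⟩, h3, -⟩ | ⟨⟨h1, h2⟩, h3, -⟩)
    · exact ⟨h1, h3, by rw [h2]; exact hc0⟩
    · exact ⟨h1, h3, by rw [h2]; exact neg_ne_zero.mpr hc0⟩
  have hT : ∀ g h τ : L ≃ₐ[ℚ] L, g ∈ T →
      Subgroup.zpowers h = Subgroup.zpowers (τ * g * τ⁻¹) → h ∈ T := by
    intro g h τ hg hz
    obtain ⟨hM, hFg, hne⟩ := hTdat g hg
    obtain ⟨hM', hFh, hh⟩ := inv_main (κ := κ) (Φ := Φ) h3f hconj hpow hM hFg hne hz
    rcases hh with ⟨e1, e2, e3⟩ | ⟨e1, e2, e3⟩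
    · obtain ⟨d1, d2⟩ := det_same (C := C) e2 e3
      rcases hg with ⟨⟨-, hκ⟩, -, hd⟩ | ⟨⟨-, hκ⟩, -, hd⟩
      · left
        refine ⟨⟨hM', e1.trans hκ⟩, hFh, ?_⟩
        rw [d1]; exact hd
      · right
        refine ⟨⟨hM', e1.trans hκ⟩, hFh, ?_⟩
        rw [d2]; exact hd
    · obtain ⟨d1, d2⟩ := det_opp (C := C) e2 e3
      rcases hg with ⟨⟨-, hκ⟩, -, hd⟩ | ⟨⟨-, hκ⟩, -, hd⟩
      · right
        refine ⟨⟨hM', by rw [e1, hκ]⟩, hFh, ?_⟩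
        rw [d2]; exact hd
      · left
        refine ⟨⟨hM', by rw [e1, hκ, neg_neg]⟩, hFh, ?_⟩
        rw [d1]; exact hd
  have hcard1 := count1 (κ := κ) (χ := χ) c
    (fun g => F g ∧ (alt (C + (Φ (χ g)).toAdd + t g)).det ≠ 0)
    (fun a g => F g ∧ (alt (C + (Φ a).toAdd + t g)).det ≠ 0) (fun g => Iff.rfl)
    (rh s * (2 / 3 ^ (s + 1))) (hK c)
    (fun a ha => (hD a (C + (Φ a).toAdd) ha).1)
  have hcard2 := count1 (κ := κ) (χ := χ) (-c)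
    (fun g => F g ∧ (alt (C - (Φ (χ g)).toAdd - t g)).det ≠ 0)
    (fun a g => F g ∧ (alt (C - (Φ a).toAdd - t g)).det ≠ 0) (fun g => Iff.rfl)
    (rh s * (2 / 3 ^ (s + 1))) (hK (-c))
    (fun a ha => (hD a (C - (Φ a).toAdd) ha).2)
  have hne : c ≠ -c := by
    intro h
    apply hc0
    ext i
    have h1 := congrFun h i
    rw [Pi.neg_apply] at h1
    rw [Pi.zero_apply]
    revert h1
    generalize c i = x
    revert x
    decide
  have hcardT : Nat.card T = Nat.card {g : L ≃ₐ[ℚ] L // (M1 (χ g) ∧ (κ (χ g)).toAdd = c) ∧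
      (F g ∧ (alt (C + (Φ (χ g)).toAdd + t g)).det ≠ 0)} +
      Nat.card {g : L ≃ₐ[ℚ] L // (M1 (χ g) ∧ (κ (χ g)).toAdd = -c) ∧
      (F g ∧ (alt (C - (Φ (χ g)).toAdd - t g)).det ≠ 0)} := by
    have := Fintype.ofFinite (L ≃ₐ[ℚ] L)
    change Nat.card {g : L ≃ₐ[ℚ] L // ((M1 (χ g) ∧ (κ (χ g)).toAdd = c) ∧
      (F g ∧ (alt (C + (Φ (χ g)).toAdd + t g)).det ≠ 0)) ∨
      ((M1 (χ g) ∧ (κ (χ g)).toAdd = -c) ∧
      (F g ∧ (alt (C - (Φ (χ g)).toAdd - t g)).det ≠ 0))} = _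
    simp only [Nat.card_eq_fintype_card, Fintype.card_subtype]
    rw [Finset.filter_or, Finset.card_union_of_disjoint]
    rw [Finset.disjoint_filter]
    rintro g - ⟨⟨-, h1⟩, -⟩ ⟨⟨-, h2⟩, -⟩
    exact hne (h1.symm.trans h2)
  have hF := RI.FROBD_thm L T hT
  have hF2 := RI.PDGE_thm _ (SSS b p q p' q' κ c C Φ ∪
      {Q : ℕ | ∃ (hQ : Q.Coprime f) (ρ : PP), ClQ b κ (-c) Q hQ ρ})
    (Finset.range (N₀ + f + 1)) _ hF (by
    rintro Q ⟨g, hg, P, hP, hQP, hst⟩ hQ hQA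
    rw [Finset.mem_range, not_lt] at hQA
    have hcf : Q.Coprime f := by
      rw [Nat.Prime.coprime_iff_not_dvd hQ]
      intro hd
      have := Nat.le_of_dvd hf hd
      omega
    obtain ⟨hM, hFg, -⟩ := hTdat g hg
    obtain ⟨h1, k, hk, -, hχ, ρ, hρ, hb0, hb1, ht⟩ :=
      hfrob Q hcf hQ (by omega) P g hP hQP hst hM hFg
    have hφT : g ^ k ∈ T := by
      refine hT g (g ^ k) 1 hg ?_
      rw [one_mul, inv_one, mul_one]
      exact DENS.zp hk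
    rcases hφT with ⟨⟨-, hκ⟩, -, hd⟩ | ⟨⟨-, hκ⟩, -, hd⟩
    · left
      rw [hχ] at hκ hd
      refine ⟨hcf, ρ, ⟨h1, hκ, hρ, hb0, hb1⟩, fun τ hτ h0 => hd ?_⟩
      rw [← h0]
      congr 1
      refine DENS.alt_congr fun j i hji => ?_
      obtain ⟨r, hr⟩ : ∃ r : ℤ, (Q : ℤ) ∣ r ^ 3 - b j.castSucc := by
        by_cases hd : (Q : ℤ) ∣ b j.castSucc
        · exact ⟨0, by simpa using hd⟩
        · exact (hSPLT.2 Q ρ hQ h1 hρ).2.2.2.2.2 _ hd (hb0 j)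
      simp only [Pi.add_apply]
      rw [ht j i hji.ne r hr, hτ j i hji.ne r hr]
    · right
      rw [hχ] at hκ
      exact ⟨hcf, ρ, h1, hκ, hρ, hb0, hb1⟩)
  refine DENS.dens_mono hF2 ?_
  have hG : (0 : ℝ) < Nat.card (L ≃ₐ[ℚ] L) := by exact_mod_cast hGpos
  rw [le_div_iff₀ hG, hcardT]
  push_cast
  refine le_trans (le_of_eq ?_) (add_le_add hcard1 hcard2)
  have e1 : (3 : ℝ) ^ (s + m + 2) = 3 ^ (s + 1) * 3 ^ (m + 1) := by
    rw [← pow_add]; congr 1; ring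
  rw [e1]
  have h6 : (3 : ℝ) ^ (s + 1) ≠ 0 := by positivity
  have h7 : (3 : ℝ) ^ (m + 1) ≠ 0 := by positivity
  field_simp
  ring

end Pool.Agent.PTE
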