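import Pool.Agent.PTE.Stmts
import Pool.Agent.PT.DENS

/-!
# Prime twists of rank zero, every `n`: module DIRS (upper bound for the primes in a class)
-/

open NumberField IsDedekindDomain Finset
open scoped nonZeroDivisors Pointwise

namespace Pool.Agent.PTE

open Pool.Agent.Lib_helper18 Pool.Agent.Lib_helper18.Eis Pool.Agent.Lib_helper84.Cub
open Pool.Agent.PT

namespace DIRS

lemma log_nonneg' {s : ℝ} (hs : 1 < s) (hs2 : s ≤ 2) : 0 ≤ Real.log (1 / (s - 1)) := by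
  apply Real.log_nonneg
  rw [le_div_iff₀ (by linarith)]
  linarith

open RI.PD in
/-- An upper bound from finitely many residue classes and finitely many numbers. -/
lemma upper (hDIR : DIR) {f : ℕ} (hf : 0 < f) (𝒞 : Finset (ZMod f)ˣ) (A : Finset ℕ) (R : Set ℕ)
    (hsub : ∀ q ∈ R, q.Prime → q ∉ A → ∃ a ∈ 𝒞, (q : ZMod f) = a) :
    ∃ K : ℝ, ∀ s : ℝ, 1 < s → s ≤ 2 →
      ∑' q : {q : ℕ // q.Prime ∧ q ∈ R}, (q : ℝ) ^ (-s) ≤
        (𝒞.card : ℝ) / f.totient * Real.log (1 / (s - 1)) + K := by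
  classical
  have hD : ∀ a : (ZMod f)ˣ, ∃ C : ℝ, ∀ s : ℝ, 1 < s → s ≤ 2 →
    ∑' q : {q : ℕ // q.Prime ∧ (q : ZMod f) = a}, (q : ℝ) ^ (-s) ≤
      (1 / (f.totient : ℝ)) * Real.log (1 / (s - 1)) + C := fun a => hDIR f a hf
  choose D hD using hD
  refine ⟨A.card + ∑ a ∈ 𝒞, D a, fun s hs hs2 => ?_⟩
  rw [sub_eq]
  have hsum := summ hs
  have hSR := hsum.indicator {q : ℕ | q.Prime ∧ q ∈ R}
  have hSA := hsum.indicator (A : Set ℕ)
  have hSa : ∀ a ∈ 𝒞, Summable (Set.indicator {q : ℕ | q.Prime ∧ (q : ZMod f) = a}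
      (fun n : ℕ => (n : ℝ) ^ (-s))) := fun a _ => hsum.indicator _
  have hpt : ∀ n : ℕ, Set.indicator {q : ℕ | q.Prime ∧ q ∈ R} (fun n : ℕ => (n : ℝ) ^ (-s)) n ≤
      Set.indicator (A : Set ℕ) (fun n : ℕ => (n : ℝ) ^ (-s)) n +
        ∑ a ∈ 𝒞, Set.indicator {q : ℕ | q.Prime ∧ (q : ZMod f) = a}
          (fun n : ℕ => (n : ℝ) ^ (-s)) n := by
    intro n
    have h0 : ∀ a ∈ 𝒞, 0 ≤ Set.indicator {q : ℕ | q.Prime ∧ (q : ZMod f) = a}
        (fun n : ℕ => (n : ℝ) ^ (-s)) n :=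
      fun a _ => Set.indicator_nonneg (fun x _ => term_nonneg s x) n
    have hA0 : 0 ≤ Set.indicator (A : Set ℕ) (fun n : ℕ => (n : ℝ) ^ (-s)) n :=
      Set.indicator_nonneg (fun x _ => term_nonneg s x) n
    have hsum0 := Finset.sum_nonneg h0
    by_cases hn : n ∈ {q : ℕ | q.Prime ∧ q ∈ R}
    · rw [Set.indicator_of_mem hn]
      by_cases hnA : n ∈ (A : Set ℕ)
      · rw [Set.indicator_of_mem hnA]
        linarith
      · obtain ⟨a, ha, hna⟩ := hsub n hn.2 hn.1 (by simpa using hnA)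
        have h2 := Finset.single_le_sum h0 ha
        have hna' : n ∈ {q : ℕ | q.Prime ∧ (q : ZMod f) = a} := ⟨hn.1, hna⟩
        rw [Set.indicator_of_mem hna'] at h2
        linarith
    · rw [Set.indicator_of_notMem hn]
      linarith
  have h2 := hSR.tsum_le_tsum hpt (hSA.add (summable_sum hSa))
  rw [hSA.tsum_add (summable_sum hSa), Summable.tsum_finsetSum hSa] at h2
  have h3 : ∑ a ∈ 𝒞, ∑' n : ℕ, Set.indicator {q : ℕ | q.Prime ∧ (q : ZMod f) = a}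
      (fun n : ℕ => (n : ℝ) ^ (-s)) n ≤
      ∑ a ∈ 𝒞, ((1 / (f.totient : ℝ)) * Real.log (1 / (s - 1)) + D a) := by
    refine Finset.sum_le_sum fun a _ => ?_
    have h4 := hD a s hs hs2
    rwa [DENS.cls_eq] at h4
  rw [Finset.sum_add_distrib, Finset.sum_const, nsmul_eq_mul] at h3
  have h5 : (𝒞.card : ℝ) / f.totient * Real.log (1 / (s - 1)) =
      𝒞.card * (1 / (f.totient : ℝ) * Real.log (1 / (s - 1))) := by ring
  have h6 := fin_le hs A
  rw [h5]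
  linarith

end DIRS

open DIRS in
theorem DIRS_thm (hDIR : DIR) (hCLSC : CLSC) (hCLSCS : CLSCS) : DIRS := by
  classical
  intro m π p hp hp3 hpπ hinj w0 c
  set f : ℕ := 9 * ∏ i, p i with hfdef
  have hf : 0 < f := Nat.mul_pos (by norm_num) (Finset.prod_pos fun i _ => (hp i).pos)
  have h9 : 9 ∣ f := Dvd.intro _ rfl
  have hpf : ∀ i, p i ∣ f := fun i => Dvd.dvd.mul_left (Finset.dvd_prod_of_mem _ (mem_univ i)) 9
  have : NeZero f := ⟨hf.ne'⟩
  have h3f : 3 ∣ f := dvd_trans (by norm_num) h9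
  obtain ⟨κ, hκ, hM2⟩ := hCLSC m π p hp hp3 hpπ hinj f hf h9 hpf
  have hM1 := hCLSCS f m κ hf h9 hM2 (Fin.cons w0 c)
  set 𝒞 : Finset (ZMod f)ˣ := univ.filter (fun a : (ZMod f)ˣ => M1 a ∧
    (κ a).toAdd = (Fin.cons w0 c : Fin (m + 1) → ZMod 3)) with h𝒞
  obtain ⟨K, hK⟩ := upper hDIR hf 𝒞 f.divisors {q : ℕ | InClS π w0 c q} (by
    rintro q ⟨hq3, hq0, hqc⟩ hq hqA
    have hcop : q.Coprime f := by
      rw [Nat.Prime.coprime_iff_not_dvd hq]
      intro hd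
      exact hqA (Nat.mem_divisors.mpr ⟨hd, hf.ne'⟩)
    refine ⟨ZMod.unitOfCoprime q hcop, ?_, by rw [ZMod.coe_unitOfCoprime]⟩
    rw [h𝒞, Finset.mem_filter]
    refine ⟨mem_univ _, ?_, ?_⟩
    · unfold M1
      rw [ZMod.coe_unitOfCoprime, ZMod.val_natCast, Nat.mod_mod_of_dvd _ h3f]
      exact hq3
    · rw [hκ q hcop, hq0]
      congr 1
      funext i
      exact hqc i)
  refine ⟨K, fun s hs hs2 => (hK s hs hs2).trans_eq ?_⟩
  have hφ : 0 < f.totient := Nat.totient_pos.mpr hf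
  rw [Nat.card_eq_fintype_card, Fintype.card_subtype] at hM1
  have e1 : (𝒞.card : ℝ) / f.totient = 1 / (2 * 3 ^ (m + 1)) := by
    rw [div_eq_div_iff (by exact_mod_cast hφ.ne') (by positivity), one_mul]
    exact_mod_cast hM1
  rw [e1]

end Pool.Agent.PTE
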