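import Pool.Agent.PTE.Stmts
import Pool.Agent.PT.EADM

/-!
# EADMS: `AdmC` and `Adm` for the primes `q = 1 (mod 3)`

Follows `Pool/Agent/PT/EADM.lean`.
-/

set_option autoImplicit false

namespace Pool.Agent.PTE

open Pool.Agent.Lib_helper18 Pool.Agent.Lib_helper18.Eis Pool.Agent.Lib_helper84.Cub
open Pool.Agent.PT

open Pool.Agent.PT.EADM in
/-- EADMS: `AdmC` and `Adm`. -/
theorem EADMS_thm (hSTM : STM) (hSPP : SPP) (hSCJ : SCJ) (hSPLT : SPLT) : EADMS := by
  have _ := hSTM
  intro n m k π p e r f w0 c q ρ hN hq hcl hqn hqρ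
  obtain ⟨_, hSPP2, _, hSPP4, _, hSPP6⟩ := hSPP
  obtain ⟨hSCJ1, _, _, hSCJ4⟩ := hSCJ
  obtain ⟨hq3, hqw, hqc⟩ := hcl
  obtain ⟨-, hsplit⟩ := hSPLT
  obtain ⟨-, -, hS3, hS4, -, -⟩ := hsplit q ρ hq hq3 hqρ
  have hn0 : n ≠ 0 := n_ne hN
  have hn3 : ¬ 3 ∣ n := three_not hN
  have hbelow : ∀ π : PP, ∃ l, Below π l := by
    intro π
    obtain ⟨l, hl, h⟩ := hSPP6 π
    exact ⟨l, hl, h⟩
  have hcast : (((n : ℤ) * (q : ℤ) : ℤ) : Eis) = ((n * q : ℕ) : Eis) := by push_cast; ring
  have hnq0 : n * q ≠ 0 := mul_ne_zero hn0 hq.ne_zero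
  have hB0 : (n : ℤ) * (q : ℤ) ≠ 0 := by exact_mod_cast hnq0
  have hB3 : ¬ (3 : ℤ) ∣ (n : ℤ) * (q : ℤ) := by
    intro h
    have h1 : 3 ∣ n * q := by exact_mod_cast h
    rcases Nat.prime_three.dvd_mul.1 h1 with h2 | h2
    · exact hn3 h2
    · have := (Nat.prime_dvd_prime_iff_eq Nat.prime_three hq).1 h2
      omega
  refine ⟨⟨hB0, hB3, ?_⟩, ?_⟩
  · intro ϖ
    obtain ⟨l, hl⟩ := hbelow ϖ
    rw [hcast, hl.V_nat hnq0, Nat.factorization_mul hn0 hq.ne_zero, Finsupp.add_apply]
    have h1 := fac_le hN l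
    by_cases hlq : l = q
    · have h2 : n.factorization l = 0 := by
        rw [hlq]
        exact Nat.factorization_eq_zero_of_not_dvd hqn
      have h3 : q.factorization l = 1 := by
        rw [hlq]
        exact hq.factorization_self
      omega
    · have h3 : q.factorization l = 0 := by
        apply Nat.factorization_eq_zero_of_not_dvd
        intro h
        exact hlq ((Nat.prime_dvd_prime_iff_eq hl.pr hq).1 h)
      omega
  · intro x hsupp
    have hρ3 : ¬ ρ.1 ∣ 3 := (hSPP4 ρ).1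
    -- `ρ` does not divide `x`
    have hρx : ¬ ρ.1 ∣ (x : Eis) := fun h => hqn (hsupp q hq ((hS4 x).1 h))
    have hρn : ¬ ρ.1 ∣ (n : Eis) := by
      intro h
      have h1 := (hS4 (n : ℤ)).1 (by rwa [Int.cast_natCast])
      exact hqn (by exact_mod_cast h1)
    -- the symbol at `ρ`
    have hVq : V ρ.1 (q : Eis) = 1 := by
      obtain ⟨l, hl⟩ := hbelow ρ
      have h1 : ρ.1 ∣ (q : Eis) := by rw [hqρ]; exact dvd_mul_right _ _
      have h2 : l = q := (Nat.prime_dvd_prime_iff_eq hl.pr hq).1 ((hl.dvd_nat _).1 h1)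
      rw [← h2]
      exact hl.V_self
    have hVB : V ρ.1 (((n : ℤ) * (q : ℤ) : ℤ) : Eis) = 1 := by
      have e1 : (((n : ℤ) * (q : ℤ) : ℤ) : Eis) = (n : Eis) * (q : Eis) := by push_cast; ring
      rw [e1, V_mul ρ.2.1 (natCast_ne hn0) (natCast_ne hq.ne_zero), V_eq_zero hρn, hVq, zero_add]
    have hrho : tm ρ.1 (x : Eis) (((n : ℤ) * (q : ℤ) : ℤ) : Eis) = sym ρ.1 (x : Eis) := by
      unfold tm
      rw [hVB, V_eq_zero hρx, ch_unit ρ.2.1 hρx]
      simp
    -- the conditions at the `π i`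
    have key : x ≠ 0 → ∀ i, (V (π i).1 (n : Eis) : ZMod 3) * ch (π i).1 (x : Eis) -
        (V (π i).1 (x : Eis) : ZMod 3) * (ch (π i).1 (n : Eis) + c i) =
        tm (π i).1 (x : Eis) (((n : ℤ) * (q : ℤ) : ℤ) : Eis) := by
      intro hx i
      obtain ⟨l, hl⟩ := hbelow (π i)
      have hpi : (p i : Eis) = (π i).1 * conj (π i).1 := hN.pπ i
      have hlp : l = p i := by
        have h1 : (π i).1 ∣ (p i : Eis) := by rw [hpi]; exact dvd_mul_right _ _
        exact (Nat.prime_dvd_prime_iff_eq hl.pr (hN.pp i)).1 ((hl.dvd_nat _).1 h1)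
      have hq' : ¬ (π i).1 ∣ (q : Eis) := by
        intro h
        have h1 := (Nat.prime_dvd_prime_iff_eq hl.pr hq).1 ((hl.dvd_nat _).1 h)
        apply hqn
        rw [← h1, hlp, hN.eq]
        have he : e i ≠ 0 := by
          have := hN.pe i
          omega
        exact Dvd.dvd.mul_right ((dvd_pow_self _ he).trans
          (Finset.dvd_prod_of_mem (fun i => p i ^ e i) (Finset.mem_univ i))) _
      have h3 : ¬ (π i).1 ∣ 3 := (hSPP4 (π i)).1
      have e1 : (((n : ℤ) * (q : ℤ) : ℤ) : Eis) = (n : Eis) * (q : Eis) := by push_cast; ring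
      rw [e1]
      unfold tm
      rw [V_mul (π i).2.1 (natCast_ne hn0) (natCast_ne hq.ne_zero), V_eq_zero hq', add_zero,
        ch_mul (π i).2.1 h3 (natCast_ne hn0) (natCast_ne hq.ne_zero), ch_unit (π i).2.1 hq',
        hqc i]
    have hnine : ¬ (3 : ℤ) ∣ (n : ℤ) := by
      intro h
      exact hn3 (by exact_mod_cast h)
    have hqq : ¬ (3 : ℤ) ∣ (q : ℤ) := by
      intro h
      have : 3 ∣ q := by exact_mod_cast h
      omega
    have hC : C9 ((n : ℤ) * (q : ℤ)) ↔ wt ((n : ℤ) ^ 2) + w0 = 0 := by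
      rw [C9_iff hB3, mul_pow, wt_mul (sq_mod_three hnine) (sq_mod_three hqq), hqw]
    constructor
    · rintro ⟨⟨hx, h3, _, hsym, h9⟩, hxρ⟩
      refine ⟨hx, h3, ?_, ?_, fun h => h9 (hC.1 h)⟩
      · intro ϖ
        obtain ⟨l, hl⟩ := hbelow ϖ
        rcases hl.h with ⟨hl3, hl2⟩ | ⟨hl3, hl2, hl4, hl5⟩
        · rw [hl2]
          exact hSCJ4 l hl.pr hl3 x _ hx hB0
        · by_cases hln : l ∣ n
          · rcases prime_dvd hN hl.pr hln with ⟨i, hi⟩ | ⟨j, hj⟩
            · have h4 : ϖ.1 ∣ (π i).1 * conj (π i).1 := by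
                rw [← hN.pπ i, ← hi, hl4]
                exact dvd_mul_right _ _
              rcases ϖ.2.1.dvd_or_dvd h4 with h5 | h5
              · have h6 : ϖ = π i :=
                  hSPP2 _ _ (ϖ.2.1.associated_of_dvd (π i).2.1 h5)
                rw [h6, ← key hx i]
                exact hsym i
              · obtain ⟨ϖ', hϖ'⟩ := (hSPP4 (π i)).2
                have h6 : ϖ = ϖ' := by
                  apply hSPP2
                  rw [hϖ']
                  exact ϖ.2.1.associated_of_dvd (prime_conj (π i).2.1) h5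
                rw [h6, hϖ']
                have h7 := hSCJ1 (π i).1 (x : Eis) (((n : ℤ) * (q : ℤ) : ℤ) : Eis) (π i).2.1
                  (hSPP4 (π i)).1 (intCast_ne hx) (intCast_ne hB0)
                rw [map_intCast, map_intCast] at h7
                rw [h7, ← key hx i, hsym i, neg_zero]
            · have := hN.r2 j
              rw [← hj] at this
              omega
          · by_cases hlq : l = q
            · -- the primes above `q`
              have h4 : ϖ.1 ∣ (q : Eis) := by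
                rw [← hlq, hl4]
                exact dvd_mul_right _ _
              rcases hS3 ϖ h4 with h5 | h5
              · rw [h5, hrho, hxρ]
              · rw [h5]
                have h7 := hSCJ1 ρ.1 (x : Eis) (((n : ℤ) * (q : ℤ) : ℤ) : Eis) ρ.2.1
                  hρ3 (intCast_ne hx) (intCast_ne hB0)
                rw [map_intCast, map_intCast] at h7
                rw [h7, hrho, hxρ, neg_zero]
            · have h4 : ¬ ϖ.1 ∣ (x : Eis) := by
                intro h
                exact hln (hsupp l hl.pr ((hl.dvd_int x).1 h))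
              have h5 : ¬ ϖ.1 ∣ (((n : ℤ) * (q : ℤ) : ℤ) : Eis) := by
                rw [hcast, hl.dvd_nat]
                intro h
                rcases hl.pr.dvd_mul.1 h with h6 | h6
                · exact hln h6
                · exact hlq ((Nat.prime_dvd_prime_iff_eq hl.pr hq).1 h6)
              unfold tm
              rw [V_eq_zero h4, V_eq_zero h5]
              simp
      · intro ϖ hϖ h
        obtain ⟨l, hl⟩ := hbelow ϖ
        apply hϖ
        rw [hcast, hl.dvd_nat]
        exact (hsupp l hl.pr ((hl.dvd_int x).1 h)).mul_right q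
    · rintro ⟨hx, h3, hsym, _, h9⟩
      refine ⟨⟨hx, h3, hsupp, fun i => ?_, fun h => h9 (hC.2 h)⟩, ?_⟩
      · rw [key hx i]
        exact hsym (π i)
      · rw [← hrho]
        exact hsym ρ

end Pool.Agent.PTE
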