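import Pool.Agent.PTE.Stmts
import Pool.Agent.PT.FD2

/-!
# PTE: the class of a point (`q = 1 (mod 3)`)
-/

set_option autoImplicit false

namespace Pool.Agent.PTE

open Pool.Agent.Lib_helper18 Pool.Agent.Lib_helper18.Eis Pool.Agent.Lib_helper84.Cub
open Pool.Agent.PT

open Pool.Agent.PT.FD2 in
/-- FD2S: the class of a point. -/
theorem FD2S_thm (hSTM : STM) (hSPP : SPP) : FD2S := by
  intro n q a x hq _ _ _ hB hcell
  obtain ⟨hne, hsum, hprod, hcop, htwo, hnine⟩ := hcell
  rw [Fin.sum_univ_three] at hsum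
  rw [Fin.prod_univ_three] at hprod
  have hq' : Prime (q : ℤ) := Nat.prime_iff_prime_int.1 hq
  have hqd : (q : ℤ) ∣ a 0 * a 1 * a 2 := by
    rw [hprod]
    exact dvd_mul_left _ _
  have hnot : ∀ i j, i ≠ j → (q : ℤ) ∣ a i → ¬ (q : ℤ) ∣ a j := fun i j hij h1 h2 =>
    hq'.not_isUnit ((hcop i j hij).isUnit_of_dvd' h1 h2)
  have hk : (q : ℤ) ∣ a 0 ∨ (q : ℤ) ∣ a 1 ∨ (q : ℤ) ∣ a 2 := by
    rcases hq'.dvd_or_dvd hqd with h | h
    · rcases hq'.dvd_or_dvd h with h | h
      · exact Or.inl h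
      · exact Or.inr (Or.inl h)
    · exact Or.inr (Or.inr h)
  rcases hk with h | h | h
  · refine main hSTM hSPP (a0 := a 1) (a1 := a 2) (a2 := a 0) hq hB (hne 1) (hne 2) (hne 0) (by linear_combination hsum)
      (by linear_combination hprod) (hcop 1 2 (by decide)) ?_ (fun h9 => hnine h9 1 2)
      (hnot 0 1 (by decide) h) (hnot 0 2 (by decide) h)
    obtain ⟨j, hj, hu⟩ := htwo 0
    fin_cases j
    · exact absurd rfl hj
    · exact Or.inl hu
    · exact Or.inr hu
  · refine main hSTM hSPP (a0 := a 0) (a1 := a 2) (a2 := a 1) hq hB (hne 0) (hne 2) (hne 1) (by linear_combination hsum)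
      (by linear_combination hprod) (hcop 0 2 (by decide)) ?_ (fun h9 => hnine h9 0 2)
      (hnot 1 0 (by decide) h) (hnot 1 2 (by decide) h)
    obtain ⟨j, hj, hu⟩ := htwo 1
    fin_cases j
    · exact Or.inl hu
    · exact absurd rfl hj
    · exact Or.inr hu
  · refine main hSTM hSPP (a0 := a 0) (a1 := a 1) (a2 := a 2) hq hB (hne 0) (hne 1) (hne 2) (by linear_combination hsum)
      (by linear_combination hprod) (hcop 0 1 (by decide)) ?_ (fun h9 => hnine h9 0 1)
      (hnot 2 0 (by decide) h) (hnot 2 1 (by decide) h)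
    obtain ⟨j, hj, hu⟩ := htwo 2
    fin_cases j
    · exact Or.inl hu
    · exact Or.inr hu
    · exact absurd rfl hj

end Pool.Agent.PTE
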