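import Pool.Agent.PTE.Stmts
import Pool.Agent.PT.GFR
import Pool.Agent.PT.GALD

/-!
# Prime twists of rank zero, `q = 1 (mod 3)`: summary of the governing field
-/

open NumberField IsDedekindDomain Finset
open scoped nonZeroDivisors Pointwise

namespace Pool.Agent.PTE.GALDS

open Pool.Agent.Lib_helper18 Pool.Agent.Lib_helper18.Eis Pool.Agent.Lib_helper84.Cub
open Pool.Agent.PT Pool.Agent.PT.GALD

lemma om_ne {L : Type} [Field L] [CharZero L] {ω : L} (h : ω ^ 2 + ω + 1 = 0) :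
    ω ≠ 1 ∧ ω ^ 2 ≠ 1 ∧ ω ^ 2 ≠ ω ∧ ω ≠ 0 := by
  have h3 : (3 : L) ≠ 0 := by norm_num
  have h1 : ω ≠ 1 := by
    rintro rfl
    apply h3
    linear_combination h
  have h0 : ω ≠ 0 := by
    rintro rfl
    norm_num at h
  refine ⟨h1, ?_, ?_, h0⟩
  · intro h2
    have h4 : ω = -2 := by linear_combination h - h2
    rw [h4] at h2
    norm_num at h2
  · intro h2
    have h4 : ω * (ω - 1) = 0 := by linear_combination h2
    rcases mul_eq_zero.1 h4 with h5 | h5
    · exact h0 h5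
    · exact h1 (sub_eq_zero.1 h5)

lemma om_pow_inj {L : Type} [Field L] [CharZero L] {ω : L} (h : ω ^ 2 + ω + 1 = 0) {i j : ℕ}
    (hij : ω ^ i = ω ^ j) : i % 3 = j % 3 := by
  have h3 := om_cube h
  obtain ⟨h1, h2, h21, _⟩ := om_ne h
  rw [om_mod h3 i, om_mod h3 j] at hij
  have hi : i % 3 < 3 := Nat.mod_lt _ (by norm_num)
  have hj : j % 3 < 3 := Nat.mod_lt _ (by norm_num)
  generalize i % 3 = a at hij hi
  generalize j % 3 = c at hij hj
  have e01 : ω ^ 0 ≠ ω ^ 1 := by rw [pow_zero, pow_one]; exact h1.symm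
  have e02 : ω ^ 0 ≠ ω ^ 2 := by rw [pow_zero]; exact h2.symm
  have e12 : ω ^ 1 ≠ ω ^ 2 := by rw [pow_one]; exact h21.symm
  interval_cases a <;> interval_cases c <;>
    first
    | rfl
    | exact absurd hij e01
    | exact absurd hij e02
    | exact absurd hij e12
    | exact absurd hij.symm e01
    | exact absurd hij.symm e02
    | exact absurd hij.symm e12

lemma om_zmod_inj {L : Type} [Field L] [CharZero L] {ω : L} (h : ω ^ 2 + ω + 1 = 0) {θ : L}
    (hθ : θ ≠ 0) {u v : ZMod 3} (e : ω ^ u.val * θ = ω ^ v.val * θ) : u = v := by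
  have h1 := om_pow_inj h (mul_right_cancel₀ hθ e)
  have hu := ZMod.val_lt u
  have hv := ZMod.val_lt v
  apply ZMod.val_injective
  omega

lemma om_add {L : Type} [Field L] {ω : L} (h : ω ^ 3 = 1) (u v : ZMod 3) :
    ω ^ u.val * ω ^ v.val = ω ^ (u + v).val := by
  rw [← pow_add]
  apply om_congr h
  rw [ZMod.val_add]
  simp

lemma cube_root {L : Type} [Field L] {ω : L} (h : ω ^ 2 + ω + 1 = 0) {θ ρ : L}
    (e : ρ ^ 3 = θ ^ 3) : ∃ u : ZMod 3, ρ = ω ^ u.val * θ := by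
  have h3 := om_cube h
  have h1 : (ρ - θ) * ((ρ - ω * θ) * (ρ - ω ^ 2 * θ)) = 0 := by
    have h2 : (ρ - θ) * ((ρ - ω * θ) * (ρ - ω ^ 2 * θ)) =
        (ρ ^ 3 - θ ^ 3) - (ω ^ 2 + ω + 1) * (ρ ^ 2 * θ - ω * ρ * θ ^ 2) -
          (ω ^ 3 - 1) * θ ^ 3 := by ring
    rw [h2, h, h3, e]
    ring
  rcases mul_eq_zero.1 h1 with h2 | h2
  · refine ⟨0, ?_⟩
    rw [sub_eq_zero.1 h2]
    simp
  · rcases mul_eq_zero.1 h2 with h4 | h4
    · refine ⟨1, ?_⟩
      rw [sub_eq_zero.1 h4, show (1 : ZMod 3).val = 1 from rfl, pow_one]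
    · refine ⟨2, ?_⟩
      rw [sub_eq_zero.1 h4, show (2 : ZMod 3).val = 2 from rfl]

/-- the vectors with the last entry not zero and all others zero -/
lemma card_good (s : ℕ) : (univ.filter fun w : Fin (s + 1) → ZMod 3 =>
    (∀ j : Fin s, w j.castSucc = 0) ∧ w (Fin.last s) ≠ 0).card = 2 := by
  have h1 : (univ.filter fun c : ZMod 3 => c ≠ 0).card = 2 := by decide
  refine (Finset.card_bij (fun w _ => w (Fin.last s)) ?_ ?_ ?_).trans h1
  · intro w hw
    rw [mem_filter] at hw ⊢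
    exact ⟨mem_univ _, hw.2.2⟩
  · intro w hw w' hw' e
    rw [mem_filter] at hw hw'
    funext j
    refine Fin.lastCases e (fun i => ?_) j
    rw [hw.2.1 i, hw'.2.1 i]
  · intro c hc
    rw [mem_filter] at hc
    refine ⟨Fin.snoc (fun _ => 0) c, ?_, ?_⟩
    · rw [mem_filter]
      refine ⟨mem_univ _, fun j => ?_, ?_⟩
      · rw [Fin.snoc_castSucc]
      · rw [Fin.snoc_last]
        exact hc.2
    · rw [Fin.snoc_last]

end Pool.Agent.PTE.GALDS

namespace Pool.Agent.PTE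

open Pool.Agent.Lib_helper18 Pool.Agent.Lib_helper18.Eis Pool.Agent.Lib_helper84.Cub
open Pool.Agent.PT Pool.Agent.PT.GALD Pool.Agent.PTE.GALDS

theorem GALDS_thm (hGZEROG : GZEROG) (hGCHI : GCHI) (hGCG : GCG) (hGKUM : GKUM) (hGTS : GTS)
    (hGFRS : GFRS) : GALDS := by
  classical
  intro s b p q p' q' f hSys hf h9
  obtain ⟨L, hF, hN, ζ, ω, hG⟩ := hGZEROG (s + 1) b p q p' q' f hSys hf h9
  have hgal := hG.gal
  obtain ⟨χ, hχs, hχζ, hχF⟩ := hGCHI L f ζ hf hG.prim
  obtain ⟨N₀, hFr⟩ := hGFRS s b p q p' q' f L ζ ω hSys hG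
  have hω3 : ω ^ 3 = 1 := om_cube hG.rel
  have hf1 : 1 < f := by
    obtain ⟨c, hc⟩ := h9
    omega
  have h3f : 3 ∣ f := (by norm_num : (3 : ℕ) ∣ 9).trans h9
  have hfz : NeZero f := ⟨hf.ne'⟩
  obtain ⟨hT1, hT⟩ := hGTS s b p q p' q' f L ζ ω hSys hG
  -- action on ω
  have hωχ : ∀ g : L ≃ₐ[ℚ] L, g ω = ω ^ ((χ g : ZMod f)).val := by
    intro g
    rw [hG.hω, map_pow, hχζ g, ← pow_mul, mul_comm, pow_mul, ← hG.hω]
  have hM : ∀ g : L ≃ₐ[ℚ] L, M1 (χ g) → g ω = ω := by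
    intro g hg
    rw [hωχ g]
    conv_rhs => rw [← pow_one ω]
    apply om_congr hω3
    unfold M1 at hg
    omega
  have hb0 : ∀ j, b j ≠ 0 := by
    intro j h0
    refine hSys.ind (Pi.single j 1) ⟨j, by simp⟩ ⟨0, ?_⟩
    have h1 : ∏ i, b i ^ (Pi.single j 1 : Fin (s + 1) → ℕ) i = 0 := by
      refine Finset.prod_eq_zero (Finset.mem_univ j) ?_
      rw [Pi.single_eq_same, pow_one, h0]
    rw [h1]
    norm_num
  have hz1 : ∀ z : L ≃ₐ[ℚ] L, z ζ = ζ → z ω = ω ∧ χ z = 1 := by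
    intro z hzζ
    refine ⟨by rw [hG.hω, map_pow, hzζ], ?_⟩
    have h1 := hχζ z
    rw [hzζ] at h1
    have h2 : ((χ z : ZMod f)).val = 1 := by
      apply hG.prim.pow_inj (ZMod.val_lt _) hf1
      rw [← h1, pow_one]
    apply Units.ext
    have h3 := ZMod.natCast_zmod_val (χ z : ZMod f)
    rw [h2] at h3
    rw [← h3]
    simp
  let t : (L ≃ₐ[ℚ] L) → Fin s → Fin s → ZMod 3 := fun g j i =>
    if h : j ≠ i ∧ g ω = ω ∧ Fx b g then ((hT j i h.1).1 g h.2.1 h.2.2).choose else 0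
  have ht : ∀ (g : L ≃ₐ[ℚ] L) (j i : Fin s), j ≠ i → g ω = ω → Fx b g →
      IsTS b p q p' q' ω g j.castSucc i.castSucc (t g j i) := by
    intro g j i hji hg hF
    have h : j ≠ i ∧ g ω = ω ∧ Fx b g := ⟨hji, hg, hF⟩
    have e : t g j i = ((hT j i h.1).1 g h.2.1 h.2.2).choose := dif_pos h
    rw [e]
    exact ((hT j i h.1).1 g h.2.1 h.2.2).choose_spec.1
  have htu : ∀ (g : L ≃ₐ[ℚ] L) (j i : Fin s) (c : ZMod 3), j ≠ i → g ω = ω → Fx b g →
      IsTS b p q p' q' ω g j.castSucc i.castSucc c → t g j i = c := by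
    intro g j i c hji hg hF hc
    exact ((hT j i hji).1 g hg hF).unique (ht g j i hji hg hF) hc
  refine ⟨L, hF, hN, hG.gal, χ, Fx b, t, N₀, hχs, ?_, ?_, ?_, ?_, ?_⟩
  · intro g τ hg hFg
    obtain ⟨_, h1, _⟩ := hT1 g (hM g hg) hFg
    obtain ⟨h2, h3⟩ := h1 τ
    refine ⟨h3, fun j i hji => ?_⟩
    exact htu _ _ _ _ hji h2 h3 ((hT j i hji).2.1 g τ _ (hM g hg) hFg (ht g j i hji (hM g hg) hFg))
  · intro g k hg hFg hk
    obtain ⟨_, _, h1⟩ := hT1 g (hM g hg) hFg
    obtain ⟨h2, h3⟩ := h1 k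
    refine ⟨h3 hk, fun j i hji => ?_⟩
    exact htu _ _ _ _ hji h2 (h3 hk) ((hT j i hji).2.2 g _ k (hM g hg)
      (ht g j i hji (hM g hg) hFg))
  · intro a v v' ha
    obtain ⟨z, hzζ, hzρ, hzA⟩ := hGCG (s + 1) b p q p' q' f L ζ ω hSys hG
      (fun j i => if h : j ≠ Fin.last s ∧ i ≠ Fin.last s then
        v' (j.castPred h.1) (i.castPred h.2) - v (j.castPred h.1) (i.castPred h.2) else 0)
    obtain ⟨hzω, hχz⟩ := hz1 z hzζ
    have hFz : ∀ g : L ≃ₐ[ℚ] L, Fx b (g * z) ↔ Fx b g := by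
      intro g
      have h1 : ∀ (j : Fin (s + 1)) (ρ : L), ρ ^ 3 = (b j : L) → (g * z) ρ = g ρ := by
        intro j ρ hρ
        rw [AlgEquiv.mul_apply, hzρ j ρ hρ]
      unfold Fx
      constructor
      · rintro ⟨h2, h3⟩
        exact ⟨fun j ρ hρ => by rw [← h1 _ ρ hρ]; exact h2 j ρ hρ,
          fun ρ hρ => by rw [← h1 _ ρ hρ]; exact h3 ρ hρ⟩
      · rintro ⟨h2, h3⟩
        exact ⟨fun j ρ hρ => by rw [h1 _ ρ hρ]; exact h2 j ρ hρ,
          fun ρ hρ => by rw [h1 _ ρ hρ]; exact h3 ρ hρ⟩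
    have key : ∀ g : L ≃ₐ[ℚ] L, g ω = ω → Fx b g → ∀ j i, j < i →
        t (g * z) j i = (v' j i - v j i) + t g j i := by
      intro g hg hFg j i hji
      have hgz : (g * z) ω = ω := by rw [AlgEquiv.mul_apply, hzω, hg]
      apply htu _ _ _ _ hji.ne hgz ((hFz g).2 hFg)
      intro ρ A hρ hA
      have h1 := ht g j i hji.ne hg hFg ρ A hρ hA
      have h2 := hzA j.castSucc i.castSucc (Fin.castSucc_lt_castSucc_iff.2 hji) ρ A hρ hA
      have h3 : j.castSucc ≠ Fin.last s ∧ i.castSucc ≠ Fin.last s :=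
        ⟨(Fin.castSucc_lt_last j).ne, (Fin.castSucc_lt_last i).ne⟩
      simp only [dif_pos h3, Fin.castPred_castSucc] at h2
      rw [AlgEquiv.mul_apply, h2, map_mul, map_pow, hg, h1, ← mul_assoc, om_add hω3]
    apply Nat.card_congr
    refine Equiv.subtypeEquiv (Equiv.mulRight z) ?_
    intro g
    have hχ : χ (g * z) = χ g := by rw [map_mul, hχz, mul_one]
    show (χ g = a ∧ Fx b g ∧ ∀ j i, j < i → t g j i = v j i) ↔
      (χ (g * z) = a ∧ Fx b (g * z) ∧ ∀ j i, j < i → t (g * z) j i = v' j i)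
    rw [hχ, hFz g]
    constructor
    · rintro ⟨h1, h2, h3⟩
      refine ⟨h1, h2, fun j i hji => ?_⟩
      rw [key g (hM g (by rw [h1]; exact ha)) h2 j i hji, h3 j i hji]
      ring
    · rintro ⟨h1, h2, h3⟩
      refine ⟨h1, h2, fun j i hji => ?_⟩
      have h4 := h3 j i hji
      rw [key g (hM g (by rw [h1]; exact ha)) h2 j i hji] at h4
      linear_combination h4
  · intro a ha
    choose θ hθ using hG.root
    have hθ0 : ∀ j, θ j ≠ 0 := by
      intro j h0
      have h1 := hθ j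
      rw [h0] at h1
      apply hb0 j
      have h2 : ((b j : ℤ) : L) = 0 := by rw [← h1]; norm_num
      exact_mod_cast h2
    have hex : ∀ (g : L ≃ₐ[ℚ] L) (j : Fin (s + 1)), ∃ u : ZMod 3, g (θ j) = ω ^ u.val * θ j := by
      intro g j
      apply cube_root hG.rel
      rw [← map_pow, hθ j, map_intCast]
    choose uu huu using hex
    have huniq : ∀ (g : L ≃ₐ[ℚ] L) (j : Fin (s + 1)) (u : ZMod 3), g (θ j) = ω ^ u.val * θ j →
        uu g j = u := by
      intro g j u h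
      apply om_zmod_inj hG.rel (hθ0 j)
      rw [← huu g j, h]
    -- criterion for `Fx`
    have hFu : ∀ g : L ≃ₐ[ℚ] L, g ω = ω → (Fx b g ↔
        (∀ j : Fin s, uu g j.castSucc = 0) ∧ uu g (Fin.last s) ≠ 0) := by
      intro g hg
      constructor
      · rintro ⟨h1, h2⟩
        refine ⟨fun j => ?_, fun h0 => ?_⟩
        · apply huniq
          rw [h1 j _ (hθ _)]
          simp
        · apply h2 _ (hθ _)
          rw [huu, h0]
          simp
      · rintro ⟨h1, h2⟩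
        have h3 : ∀ (j : Fin (s + 1)) (ρ : L), ρ ^ 3 = (b j : L) →
            g ρ = ω ^ (uu g j).val * ρ := by
          intro j ρ hρ
          obtain ⟨u, hu⟩ := cube_root hG.rel (θ := θ j) (ρ := ρ) (by rw [hρ, hθ])
          rw [hu, map_mul, map_pow, hg, huu]
          ring
        refine ⟨fun j ρ hρ => ?_, fun ρ hρ h4 => ?_⟩
        · rw [h3 _ ρ hρ, h1 j]
          simp
        · rw [h3 _ ρ hρ] at h4
          have hρ0 : ρ ≠ 0 := by
            intro h0
            rw [h0] at hρ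
            apply hb0 (Fin.last s)
            have h5 : ((b (Fin.last s) : ℤ) : L) = 0 := by rw [← hρ]; norm_num
            exact_mod_cast h5
          apply h2
          apply om_zmod_inj hG.rel hρ0
          rw [h4]
          simp
    have hfib : ∀ w w' : Fin (s + 1) → ZMod 3,
        (univ.filter fun g : L ≃ₐ[ℚ] L => χ g = a ∧ uu g = w).card =
        (univ.filter fun g : L ≃ₐ[ℚ] L => χ g = a ∧ uu g = w').card := by
      intro w w'
      obtain ⟨z, hzζ, hzρ⟩ := hGKUM (s + 1) b p q p' q' f L ζ ω hSys hG (w' - w)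
      obtain ⟨hzω, hχz⟩ := hz1 z hzζ
      have key : ∀ g : L ≃ₐ[ℚ] L, g ω = ω → uu (g * z) = (w' - w) + uu g := by
        intro g hg
        funext j
        apply huniq
        rw [AlgEquiv.mul_apply, hzρ j _ (hθ j), map_mul, map_pow, hg, huu, ← mul_assoc,
          om_add hω3]
        rfl
      refine Finset.card_bij (fun g _ => g * z) ?_ ?_ ?_
      · intro g hg
        rw [mem_filter] at hg ⊢
        obtain ⟨_, h1, h2⟩ := hg
        refine ⟨mem_univ _, by rw [map_mul, hχz, mul_one, h1], ?_⟩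
        rw [key g (hM g (by rw [h1]; exact ha)), h2]
        abel
      · intro g _ g' _ e
        exact mul_right_cancel e
      · intro g hg
        rw [mem_filter] at hg
        obtain ⟨_, h1, h2⟩ := hg
        have h3 : g * z⁻¹ * z = g := inv_mul_cancel_right g z
        have h4 : χ (g * z⁻¹) = a := by rw [map_mul, map_inv, hχz, inv_one, mul_one, h1]
        refine ⟨g * z⁻¹, ?_, h3⟩
        rw [mem_filter]
        refine ⟨mem_univ _, h4, ?_⟩
        have h5 := key (g * z⁻¹) (hM _ (by rw [h4]; exact ha))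
        rw [h3, h2] at h5
        funext j
        have h7 := congrFun h5 j
        simp only [Pi.add_apply, Pi.sub_apply] at h7
        linear_combination (-1 : ZMod 3) * h7
    have hsub : ∀ (D : Finset (Fin (s + 1) → ZMod 3)),
        (univ.filter fun g : L ≃ₐ[ℚ] L => χ g = a ∧ uu g ∈ D).card =
        D.card * (univ.filter fun g : L ≃ₐ[ℚ] L => χ g = a ∧ uu g = 0).card := by
      intro D
      rw [Finset.card_eq_sum_card_fiberwise (f := uu) (t := D)]
      · rw [← smul_eq_mul, ← Finset.sum_const]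
        refine Finset.sum_congr rfl fun w hw => ?_
        rw [← hfib w 0, Finset.filter_filter]
        congr 1
        apply Finset.filter_congr
        intro g _
        constructor
        · rintro ⟨⟨h1, _⟩, h2⟩
          exact ⟨h1, h2⟩
        · rintro ⟨h1, h2⟩
          exact ⟨⟨h1, by rw [h2]; exact hw⟩, h2⟩
      · intro g hg
        have h1 := (mem_filter.1 (Finset.mem_coe.1 hg)).2.2
        exact h1
    have h1 : Nat.card {g : L ≃ₐ[ℚ] L // χ g = a} =
        3 ^ (s + 1) * (univ.filter fun g : L ≃ₐ[ℚ] L => χ g = a ∧ uu g = 0).card := by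
      rw [Nat.card_eq_fintype_card, Fintype.card_subtype]
      have h2 := hsub univ
      simp only [mem_univ, and_true] at h2
      rw [h2, Finset.card_univ, Fintype.card_fun, ZMod.card, Fintype.card_fin]
    have h2 : Nat.card {g : L ≃ₐ[ℚ] L // χ g = a ∧ Fx b g} =
        2 * (univ.filter fun g : L ≃ₐ[ℚ] L => χ g = a ∧ uu g = 0).card := by
      rw [Nat.card_eq_fintype_card, Fintype.card_subtype]
      have h2 := hsub (univ.filter fun w : Fin (s + 1) → ZMod 3 =>
        (∀ j : Fin s, w j.castSucc = 0) ∧ w (Fin.last s) ≠ 0)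
      rw [card_good] at h2
      rw [← h2]
      congr 1
      apply Finset.filter_congr
      intro g _
      constructor
      · rintro ⟨h3, h4⟩
        refine ⟨h3, mem_filter.2 ⟨mem_univ _, ?_⟩⟩
        exact (hFu g (hM g (by rw [h3]; exact ha))).1 h4
      · rintro ⟨h3, h4⟩
        exact ⟨h3, (hFu g (hM g (by rw [h3]; exact ha))).2 (mem_filter.1 h4).2⟩
    rw [h1, h2]
    ring
  · intro Q hQ hQp hN₀ P g hP hQP hst hg hFg
    have hfin := GFR.quo_finite hQp hP hQP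
    obtain ⟨k, hk, hfr⟩ := GFR.exists_frob_gen (R := ℤ) P g hst
    obtain ⟨h3o, _, hpow⟩ := hT1 g (hM g hg) hFg
    have hk3 : ¬ 3 ∣ k := by
      intro h
      have h1 := Nat.dvd_gcd h h3o
      rw [hk] at h1
      omega
    obtain ⟨hkω, hkF⟩ := hpow k
    have hχk := hχF Q hQ hQp P (g ^ k) hP hQP hfr
    have hQ3 : Q % 3 = 1 := by
      have h1 := hωχ (g ^ k)
      rw [hkω, hχk, ZMod.coe_unitOfCoprime, ZMod.val_natCast] at h1
      have h2 := om_pow_inj hG.rel (i := 1) (j := Q % f) (by rw [pow_one]; exact h1)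
      rw [Nat.mod_mod_of_dvd _ h3f] at h2
      omega
    obtain ⟨ρ, hρ1, hρ2, hρ3, hρ4⟩ := hFr Q hQp hN₀ hQ3 P hP hQP (g ^ k) hfr (hkF hk3)
    refine ⟨hQ3, k, hk, hk3, hχk, ρ, hρ1, hρ2, hρ3, fun j i hji r hr => ?_⟩
    exact hρ4 j i hji r _ hr (ht (g ^ k) j i hji hkω (hkF hk3))

end Pool.Agent.PTE
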