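import Pool.Agent.PTE.Stmts
import Pool.Agent.PT.GC

/-!
# Prime twists of rank zero: the commutators in the governing field, without the condition modulo 9
-/

open NumberField IsDedekindDomain Finset
open scoped nonZeroDivisors Pointwise

namespace Pool.Agent.PTE

open Pool.Agent.Lib_helper18 Pool.Agent.Lib_helper18.Eis Pool.Agent.Lib_helper84.Cub
open Pool.Agent.PT

theorem GCG_thm (hKUM : KUM) (hGKI : GKI) : GCG := by
  intro s b p q p' q' f L _ _ ζ ω hS hG
  have hω := hG.rel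
  have := hG.gal
  have hf : 0 < f := by
    rcases Nat.eq_zero_or_pos f with h | h
    · exfalso
      have h1 := hG.hω
      rw [h, Nat.zero_div, pow_zero] at h1
      rw [h1] at hω
      norm_num at hω
    · exact h
  have hζf : ζ ^ f = 1 := hG.prim.pow_eq_one
  have hζ : ∀ z : L ≃ₐ[ℚ] L, z ζ = ζ → z ω = ω := by
    intro z hz
    rw [hG.hω, map_pow, hz]
  have hb : ∀ i, b i ≠ 0 := by
    intro i hi
    refine hS.ind (fun l => if l = i then 1 else 0) ⟨i, by simp⟩ ⟨0, ?_⟩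
    symm
    rw [zero_pow (by norm_num)]
    exact Finset.prod_eq_zero (Finset.mem_univ i) (by simp [hi])
  choose θ hθ using hG.root
  -- Kummer theory
  have hgi : ∀ v : Fin s → ZMod 3, ∃ g : L ≃ₐ[ℚ] L, g ζ = ζ ∧
      ∀ l, g (θ l) = ω ^ (v l).val * θ l := by
    intro v
    let F := IntermediateField.adjoin ℚ {ζ}
    have hζF : ζ ∈ F := IntermediateField.mem_adjoin_simple_self ℚ ζ
    let ζF : F := ⟨ζ, hζF⟩
    obtain ⟨g, hg⟩ := hKUM F L (ζF ^ (f / 3)) (Fin s) (fun i => ((b i : ℤ) : F)) θ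
      (by
        apply Subtype.ext
        push_cast
        rw [← hG.hω]
        exact hω)
      (fun i => by exact_mod_cast hb i)
      (fun i => by rw [hθ i, map_intCast])
      (by
        rintro n ⟨β, hβ⟩
        by_contra hcon
        push Not at hcon
        have h1 : ((β : L)) ^ 3 = ((∏ i, b i ^ n i : ℤ) : L) := by
          have h2 := congrArg (algebraMap F L) hβ
          rw [map_pow, map_prod] at h2
          push_cast
          rw [show ((β : L)) ^ 3 = (algebraMap F L β) ^ 3 from rfl, ← h2]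
          refine Finset.prod_congr rfl (fun i _ => ?_)
          rw [map_pow, map_intCast]
        obtain ⟨t, ht⟩ := hGKI L f ζ (β : L) (∏ i, b i ^ n i) hf hζf β.2 h1
        exact hS.ind n hcon ⟨t, ht⟩)
      v
    refine ⟨g.restrictScalars ℚ, ?_, fun l => ?_⟩
    · exact g.commutes ζF
    · have h3 := hg l
      rw [AlgEquiv.restrictScalars_apply, h3, map_pow]
      rw [show algebraMap F L ζF = ζ from rfl, ← hG.hω]
  have hg1 : ∀ i, ∃ g : L ≃ₐ[ℚ] L, g ζ = ζ ∧ g (θ i) = ω * θ i ∧ ∀ l, l ≠ i → g (θ l) = θ l := by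
    intro i
    obtain ⟨g, hg, hg'⟩ := hgi (fun l => if l = i then 1 else 0)
    refine ⟨g, hg, ?_, fun l hl => ?_⟩
    · rw [hg' i, if_pos rfl]
      rw [show (1 : ZMod 3).val = 1 from rfl, pow_one]
    · rw [hg' l, if_neg hl, ZMod.val_zero, pow_zero, one_mul]
  choose g hgζ hgθ hgθ' using hg1
  have hgω : ∀ i, g i ω = ω := fun i => hζ _ (hgζ i)
  have hroot : ∀ (j : Fin s) (ρ : L), ρ ^ 3 = (b j : L) → ∃ k : ℕ, ρ = ω ^ k * θ j := by
    intro j ρ hρ
    exact GC.cube_eq hω (by rw [hρ, hθ j])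
  have hgρ : ∀ (j : Fin s) (ρ : L), ρ ^ 3 = (b j : L) → g j ρ = ω * ρ := by
    intro j ρ hρ
    obtain ⟨k, hk⟩ := hroot j ρ hρ
    rw [hk, map_mul, map_pow, hgω, hgθ]
    ring
  have hgρ' : ∀ (i j : Fin s) (ρ : L), ρ ^ 3 = (b j : L) → j ≠ i → g i ρ = ρ := by
    intro i j ρ hρ hji
    obtain ⟨k, hk⟩ := hroot j ρ hρ
    rw [hk, map_mul, map_pow, hgω, hgθ' i j hji]
  apply GC.all hω hζ
  intro j i hji
  refine ⟨(g j * g i)⁻¹ * (g i * g j), ?_, fun l ρ hρ => ?_, fun l k hlk ρ A hρ hA => ?_⟩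
  · have h1 : g i (g j ζ) = ω ^ 0 * g j (g i ζ) := by
      rw [hgζ j, hgζ i, hgζ j, pow_zero, one_mul]
    rw [GC.comm_apply (g j) (g i) 0 (hgω j) (hgω i) ζ h1, pow_zero, one_mul]
  · have h1 : g i (g j ρ) = ω ^ 0 * g j (g i ρ) := by
      rw [pow_zero, one_mul]
      by_cases h2 : l = i
      · subst h2
        rw [hgρ l ρ hρ, hgρ' j l ρ hρ (ne_of_gt hji), hgρ l ρ hρ, map_mul, hgω j,
          hgρ' j l ρ hρ (ne_of_gt hji)]
      · by_cases h3 : l = j
        · subst h3
          rw [hgρ l ρ hρ, hgρ' i l ρ hρ h2, hgρ l ρ hρ, map_mul, hgω i, hgρ' i l ρ hρ h2]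
        · rw [hgρ' i l ρ hρ h2, hgρ' j l ρ hρ h3, hgρ' i l ρ hρ h2]
    rw [GC.comm_apply (g j) (g i) 0 (hgω j) (hgω i) ρ h1, pow_zero, one_mul]
  · have hsol := (hS.sol l k hlk.ne).toSolW
    by_cases h2 : (l, k) = (j, i)
    · rw [Prod.mk.injEq] at h2
      obtain ⟨rfl, rfl⟩ := h2
      simp only [if_true]
      have h1 : g k (g l A) = ω ^ 1 * g l (g k A) :=
        GC.mv (g l) (g k) 1 hω hρ (hθ k) hsol (hgω l) (hgω k) (hgρ l ρ hρ)
          (hgρ' k l ρ hρ hlk.ne) (by rw [pow_one]; exact hgθ k) hA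
      exact GC.comm_apply (g l) (g k) 1 (hgω l) (hgω k) A h1
    · simp only [if_neg h2]
      have h1 : g i (g j A) = ω ^ 0 * g j (g i A) := by
        by_cases h3 : l = j
        · subst h3
          have h4 : k ≠ i := fun h => h2 (by rw [h])
          exact GC.mv (g l) (g i) 0 hω hρ (hθ k) hsol (hgω l) (hgω i) (hgρ l ρ hρ)
            (hgρ' i l ρ hρ hji.ne) (by rw [pow_zero, one_mul]; exact hgθ' i k h4) hA
        · by_cases h4 : l = i
          · subst h4
            have h5 : k ≠ j := (hji.trans hlk).ne'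
            have h6 := GC.mv (g l) (g j) 0 hω hρ (hθ k) hsol (hgω l) (hgω j) (hgρ l ρ hρ)
              (hgρ' j l ρ hρ hji.ne') (by rw [pow_zero, one_mul]; exact hgθ' j k h5) hA
            rw [pow_zero, one_mul] at h6 ⊢
            exact h6.symm
          · rw [pow_zero, one_mul]
            exact GC.fx (g j) (g i) hω hρ hsol (hgω j) (hgω i) (hgρ' j l ρ hρ h3)
              (hgρ' i l ρ hρ h4) hA
      have h5 := GC.comm_apply (g j) (g i) 0 (hgω j) (hgω i) A h1
      rw [ZMod.val_zero]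
      exact h5

end Pool.Agent.PTE
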