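import Pool.Agent.PTE.Stmts
import Pool.Agent.PT.GFR

/-!
# Frobenius elements and the classes `t` for the primes `= 1 (mod 3)`
-/

open NumberField IsDedekindDomain Finset
open scoped nonZeroDivisors Pointwise

namespace Pool.Agent.PTE

open Pool.Agent.Lib_helper18 Pool.Agent.Lib_helper18.Eis Pool.Agent.Lib_helper84.Cub
open Pool.Agent.PT

namespace GFRS

open Pool.Agent.PT.GFR (lf_prod int_mk int_mem card_under frob_mk quo_finite
  isIntegral_root omega_cube isIntegral_omega pow_mod3 not_dvd_of_lt)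

/-- The value at `ω` of the Frobenius element. -/
theorem frob_omega {L : Type} [Field L] [NumberField L] {Q : ℕ} (hQ : Q.Prime)
    {P : Ideal (𝓞 L)} (hP : P.IsPrime) (hQP : (Q : 𝓞 L) ∈ P) (hQ3 : Q % 3 = 1)
    {φ : L ≃ₐ[ℚ] L} (hφ : IsArithFrobAt ℤ φ P) {ω : L} (hω : ω ^ 2 + ω + 1 = 0) :
    φ ω = ω := by
  let z : 𝓞 L := ⟨ω, isIntegral_omega hω⟩
  have hz : z ^ 3 = 1 := by
    apply RingOfIntegers.coe_injective
    change ω ^ 3 = 1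
    exact omega_cube hω
  have h3 : ((3 : ℕ) : 𝓞 L) ∉ P := by
    have h4 := int_mem hQ hP hQP 3
    intro h5
    have h6 : ((3 : ℤ) : 𝓞 L) ∈ P := by simpa using h5
    rw [h4] at h6
    have h7 : Q ∣ 3 := by exact_mod_cast h6
    have h8 := (Nat.prime_dvd_prime_iff_eq hQ Nat.prime_three).1 h7
    omega
  have h1 := hφ.apply_of_pow_eq_one hz h3
  rw [card_under hQ hP hQP, pow_mod3 hz Q, hQ3, pow_one] at h1
  exact congrArg (fun x : 𝓞 L => (x : L)) h1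

/-- the linear forms are prime to `ρ` -/
theorem lf_not_dvd {Q : ℕ} {ρ : Eis} (hρ : ∀ x : ℤ, ρ ∣ (x : Eis) ↔ (Q : ℤ) ∣ x) {b p q r : ℤ}
    (hb : ¬ (Q : ℤ) ∣ p ^ 3 + b * q ^ 3)
    (hr : (Q : ℤ) ∣ r ^ 3 - b) : ¬ ρ ∣ Lf p q 1 r ∧ ¬ ρ ∣ Lf p q 2 r := by
  have key : ¬ ρ ∣ Lf p q 0 r * Lf p q 1 r * Lf p q 2 r := by
    rw [lf_prod, hρ]
    intro h1
    refine hb ?_
    have h2 : p ^ 3 + b * q ^ 3 = p ^ 3 + q ^ 3 * r ^ 3 - (r ^ 3 - b) * q ^ 3 := by ring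
    rw [h2]
    exact dvd_sub h1 (Dvd.dvd.mul_right hr _)
  exact ⟨fun h => key (Dvd.dvd.mul_right (Dvd.dvd.mul_left h _) _),
    fun h => key (Dvd.dvd.mul_left h _)⟩

/-- elements with the same cube -/
theorem cases_root {R : Type*} [CommRing R] [IsDomain R] {z x y : R} (hz : z ^ 2 + z + 1 = 0)
    (h : x ^ 3 = y ^ 3) : ∃ k : ℕ, x = z ^ k * y := by
  have hz3 := omega_cube hz
  have h2 : (x - y) * ((x - z * y) * (x - z ^ 2 * y)) = 0 := by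
    linear_combination h + (-x ^ 2 * y + x * y ^ 2) * hz + (x * y ^ 2 - y ^ 3) * hz3
  rcases mul_eq_zero.1 h2 with h3 | h3
  · exact ⟨0, by rw [pow_zero, one_mul]; exact sub_eq_zero.1 h3⟩
  rcases mul_eq_zero.1 h3 with h4 | h4
  · exact ⟨1, by rw [pow_one]; exact sub_eq_zero.1 h4⟩
  · exact ⟨2, sub_eq_zero.1 h4⟩

/-- The data at the prime `P`; `F` is the residue field. -/
structure Dat {L : Type} [Field L] [NumberField L] {F : Type} [Field F] (Q : ℕ)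
    (φ : L ≃ₐ[ℚ] L) (ω : 𝓞 L) (ρ : Eis) (mk : 𝓞 L →+* F) (z : F) (ψ : Eis →+* F) : Prop where
  hQ : Q.Prime
  rel : z ^ 2 + z + 1 = 0
  ne1 : z ≠ 1
  ωz : mk ω = z
  ψw : ψ w = z
  ψρ : ψ ρ = 0
  i0 : ∀ n : ℤ, ((n : ℤ) : F) = 0 ↔ (Q : ℤ) ∣ n
  fr : ∀ x : 𝓞 L, mk (φ • x) = mk x ^ Q
  fω : φ (ω : L) = ω
  rω : ω ^ 2 + ω + 1 = 0
  hq : Prime ρ
  h3 : ¬ ρ ∣ 3
  hN : N ρ = Q
  hd : ∀ x : ℤ, ρ ∣ (x : Eis) ↔ (Q : ℤ) ∣ x

namespace Dat

variable {L : Type} [Field L] [NumberField L] {F : Type} [Field F] {Q : ℕ}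
  {φ : L ≃ₐ[ℚ] L} {ω : 𝓞 L} {ρ : Eis} {mk : 𝓞 L →+* F} {z : F} {ψ : Eis →+* F}

theorem z3 (D : Dat Q φ ω ρ mk z ψ) : z ^ 3 = 1 := omega_cube D.rel

theorem z0 (D : Dat Q φ ω ρ mk z ψ) : z ≠ 0 := by
  intro h
  have := D.z3
  rw [h] at this
  norm_num at this

theorem order (D : Dat Q φ ω ρ mk z ψ) : orderOf z = 3 := by
  have := Fact.mk Nat.prime_three
  exact orderOf_eq_prime D.z3 D.ne1

theorem pow_inj (D : Dat Q φ ω ρ mk z ψ) {s t : ZMod 3} (h : z ^ s.val = z ^ t.val) : s = t := by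
  have h3 := IsPrimitiveRoot.orderOf z
  rw [D.order] at h3
  exact ZMod.val_injective 3 (h3.pow_inj (ZMod.val_lt s) (ZMod.val_lt t) h)

theorem three_mul (D : Dat Q φ ω ρ mk z ψ) : 3 * ((N ρ - 1) / 3) + 1 = Q := by
  rw [three_mul_div D.hq D.h3, D.hN]

/-- the Frobenius power of an element whose cube comes from the Eisenstein integers -/
theorem pow_Q (D : Dat Q φ ω ρ mk z ψ) {x : F} {e : Eis} (he : ¬ ρ ∣ e) (hx : x ^ 3 = ψ e) :
    x ^ Q = z ^ (sym ρ e).val * x := by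
  have h1 := map_pow_eq D.hq D.h3 he ψ D.ψρ
  rw [← hx, D.ψw, ← pow_mul] at h1
  conv_lhs => rw [← D.three_mul, pow_succ, h1]

theorem cube (_ : Dat Q φ ω ρ mk z ψ) {b : ℤ} {θ : 𝓞 L} (hθ : θ ^ 3 = (b : 𝓞 L)) :
    mk θ ^ 3 = (b : F) := by
  rw [← map_pow, hθ, map_intCast]

theorem ne0 (D : Dat Q φ ω ρ mk z ψ) {b : ℤ} {θ : 𝓞 L} (hθ : θ ^ 3 = (b : 𝓞 L))
    (hb : ¬ (Q : ℤ) ∣ b) : mk θ ≠ 0 := by
  intro h
  have h1 := D.cube hθ
  rw [h, zero_pow (by norm_num)] at h1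
  exact hb ((D.i0 b).1 h1.symm)

theorem fr_root (D : Dat Q φ ω ρ mk z ψ) {b : ℤ} {θ : 𝓞 L} (hθ : θ ^ 3 = (b : 𝓞 L))
    (hb : ¬ (Q : ℤ) ∣ b) : mk (φ • θ) = z ^ (sym ρ (b : Eis)).val * mk θ := by
  rw [D.fr]
  refine D.pow_Q (fun h => hb ((D.hd b).1 h)) ?_
  rw [D.cube hθ, map_intCast]

/-- a fixed cube root -/
theorem sym_zero (D : Dat Q φ ω ρ mk z ψ) {b : ℤ} {θ : 𝓞 L} (hθ : θ ^ 3 = (b : 𝓞 L))
    (hb : ¬ (Q : ℤ) ∣ b) (h : φ • θ = θ) : sym ρ (b : Eis) = 0 := by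
  have h1 := D.fr_root hθ hb
  rw [h] at h1
  refine D.pow_inj ?_
  have h3 : z ^ (sym ρ (b : Eis)).val * mk θ = 1 * mk θ := by rw [one_mul, ← h1]
  rw [mul_right_cancel₀ (D.ne0 hθ hb) h3, ZMod.val_zero, pow_zero]

/-- a cube root which is not fixed -/
theorem sym_ne (D : Dat Q φ ω ρ mk z ψ) {b : ℤ} {θ : 𝓞 L} (hθ : θ ^ 3 = (b : 𝓞 L))
    (hb : ¬ (Q : ℤ) ∣ b) (h : φ • θ ≠ θ) : sym ρ (b : Eis) ≠ 0 := by
  intro h0
  have h1 : (φ • θ) ^ 3 = θ ^ 3 := by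
    rw [← smul_pow', hθ]
    have h7 : ((b : 𝓞 L) : L) = (b : L) := map_intCast (algebraMap (𝓞 L) L) b
    apply RingOfIntegers.coe_injective
    refine (congrArg φ h7).trans ?_
    rw [map_intCast]
    exact h7.symm
  obtain ⟨k, hk⟩ := cases_root D.rω h1
  have h3 := D.fr_root hθ hb
  rw [hk, map_mul, map_pow, D.ωz, h0, ZMod.val_zero, pow_zero] at h3
  have h5 : z ^ k = 1 := mul_right_cancel₀ (D.ne0 hθ hb) h3
  have h6 : 3 ∣ k := D.order ▸ orderOf_dvd_of_pow_eq_one h5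
  obtain ⟨l, rfl⟩ := h6
  refine h ?_
  rw [hk, pow_mul, omega_cube D.rω, one_pow, one_mul]

/-- a cube root with the residue `r` -/
theorem exists_root (D : Dat Q φ ω ρ mk z ψ) {b r : ℤ} (hr : (Q : ℤ) ∣ r ^ 3 - b)
    {θ : 𝓞 L} (hθ : θ ^ 3 = (b : 𝓞 L)) :
    ∃ θ' : 𝓞 L, θ' ^ 3 = (b : 𝓞 L) ∧ mk θ' = (r : F) := by
  have h4 := (D.i0 (r ^ 3 - b)).2 hr
  push_cast at h4
  obtain ⟨k, hk⟩ := cases_root (x := (r : F)) (y := mk θ) D.rel
    (by rw [D.cube hθ]; exact sub_eq_zero.1 h4)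
  refine ⟨ω ^ k * θ, ?_, ?_⟩
  · rw [mul_pow, ← pow_mul, mul_comm k 3, pow_mul, omega_cube D.rω, one_pow, one_mul, hθ]
  · rw [map_mul, map_pow, D.ωz, hk]

theorem core (D : Dat Q φ ω ρ mk z ψ) {b p q p' q' r : ℤ}
    (h1 : ¬ (Q : ℤ) ∣ p ^ 3 + b * q ^ 3) (h2 : ¬ (Q : ℤ) ∣ p' ^ 3 + b * q' ^ 3)
    (hr : (Q : ℤ) ∣ r ^ 3 - b) {θ : 𝓞 L} {A : L} (hrθ : mk θ = (r : F))
    (hφθ : φ (θ : L) = θ)
    (hA : A ^ 3 * aD (ω : L) p q p' q' θ = aN (ω : L) p q p' q' θ)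
    {t : ZMod 3} (ht : φ A = (ω : L) ^ t.val * A) : t = TAUVS ρ p q p' q' r := by
  -- the elements of the ring of integers
  let dD : 𝓞 L := (p + q * ω * θ) * (p' + q' * ω ^ 2 * θ)
  let dN : 𝓞 L := (p + q * ω ^ 2 * θ) * (p' + q' * ω * θ)
  have hdD : algebraMap (𝓞 L) L dD = aD (ω : L) p q p' q' θ := by
    simp only [dD, aD, map_mul, map_add, map_pow, map_intCast]
  have hdN : algebraMap (𝓞 L) L dN = aN (ω : L) p q p' q' θ := by
    simp only [dN, aN, map_mul, map_add, map_pow, map_intCast]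
  have hA' : (A * aD (ω : L) p q p' q' θ) ^ 3 = algebraMap (𝓞 L) L (dN * dD ^ 2) := by
    rw [map_mul, map_pow, hdD, hdN, ← hA]
    ring
  have hAint : IsIntegral ℤ (A * aD (ω : L) p q p' q' θ) := by
    refine IsIntegral.of_pow (n := 3) (by norm_num) ?_
    rw [hA']
    exact RingOfIntegers.isIntegral_coe _
  obtain ⟨AB, hABv⟩ : ∃ AB : 𝓞 L, (AB : L) = A * aD (ω : L) p q p' q' θ := ⟨⟨_, hAint⟩, rfl⟩
  have hAB : AB ^ 3 = dN * dD ^ 2 := by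
    apply RingOfIntegers.coe_injective
    rw [← hA', ← hABv, map_pow]
  have hφD : φ (aD (ω : L) p q p' q' θ) = aD (ω : L) p q p' q' θ := by
    simp only [aD, map_mul, map_add, map_pow, map_intCast, D.fω, hφθ]
  have hφA : φ • AB = ω ^ t.val * AB := by
    apply RingOfIntegers.coe_injective
    rw [map_mul, map_pow]
    have h7 : algebraMap (𝓞 L) L (φ • AB) = φ (AB : L) := rfl
    have h8 : algebraMap (𝓞 L) L AB = A * aD (ω : L) p q p' q' θ := hABv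
    rw [h7, hABv, h8, map_mul, hφD, ht]
    ring
  obtain ⟨e1, e2⟩ := lf_not_dvd D.hd h1 hr
  obtain ⟨e1', e2'⟩ := lf_not_dvd D.hd h2 hr
  have hψL : ∀ (p q : ℤ) (i : ℕ), ψ (Lf p q i r) = p + q * z ^ i * r := by
    intro p q i
    simp only [Lf, map_add, map_mul, map_pow, map_intCast, D.ψw]
  set E : Eis := Lf p q 2 r * Lf p' q' 1 r * (Lf p q 1 r * Lf p' q' 2 r) ^ 2 with hE
  have hq := D.hq
  have hEd : ¬ ρ ∣ E := by
    intro h3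
    rcases hq.dvd_or_dvd h3 with h4 | h4
    · rcases hq.dvd_or_dvd h4 with h5 | h5
      · exact e2 h5
      · exact e1' h5
    · rcases hq.dvd_or_dvd (hq.dvd_of_dvd_pow h4) with h5 | h5
      · exact e1 h5
      · exact e2' h5
  have hmkA : mk AB ^ 3 = ψ E := by
    rw [← map_pow, hAB, hE]
    simp only [dD, dN, map_mul, map_add, map_pow, map_intCast, hrθ, D.ωz, pow_one, hψL]
  have ha0 : mk AB ≠ 0 := by
    intro h3
    rw [h3, zero_pow (by norm_num)] at hmkA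
    have h4 := map_pow_eq hq D.h3 hEd ψ D.ψρ
    rw [← hmkA, D.ψw] at h4
    have h5 := D.three_mul
    have h6 := D.hQ.two_le
    rw [zero_pow (by omega)] at h4
    exact pow_ne_zero _ D.z0 h4.symm
  have hfinal : z ^ t.val = z ^ (sym ρ E).val := by
    have h3 := congrArg mk hφA
    rw [D.fr, D.pow_Q hEd hmkA, map_mul, map_pow, D.ωz] at h3
    exact (mul_right_cancel₀ ha0 h3).symm
  have ht' : t = sym ρ E := D.pow_inj hfinal
  rw [ht', hE]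
  have g1 : ¬ ρ ∣ Lf p q 2 r * Lf p' q' 1 r := fun h3 => (hq.dvd_or_dvd h3).elim e2 e1'
  have g2 : ¬ ρ ∣ Lf p q 1 r * Lf p' q' 2 r := fun h3 => (hq.dvd_or_dvd h3).elim e1 e2'
  have g3 : ¬ ρ ∣ (Lf p q 1 r * Lf p' q' 2 r) ^ 2 := fun h3 => g2 (hq.dvd_of_dvd_pow h3)
  rw [sym_mul hq D.h3 g1 g3, sym_mul hq D.h3 e2 e1', sym_pow hq D.h3 g2, sym_mul hq D.h3 e1 e2']
  unfold TAUVS
  have h2z : ((2 : ℕ) : ZMod 3) = -1 := by decide
  rw [h2z]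
  ring

end Dat

/-- the integral element -/
theorem exists_int {L : Type} [Field L] [NumberField L] {θ : L} {b : ℤ} (h : θ ^ 3 = (b : L)) :
    ∃ θ' : 𝓞 L, (θ' : L) = θ ∧ θ' ^ 3 = (b : 𝓞 L) := by
  refine ⟨⟨θ, isIntegral_root h⟩, rfl, ?_⟩
  apply RingOfIntegers.coe_injective
  rw [map_intCast]
  exact h

/-- existence of the data -/
theorem exists_dat (hSPLT : SPLT) (hSPP : SPP) {L : Type} [Field L] [NumberField L] {Q : ℕ}
    (hQ : Q.Prime) {P : Ideal (𝓞 L)} (hP : P.IsPrime) (hQP : (Q : 𝓞 L) ∈ P) (hQ3 : Q % 3 = 1)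
    {φ : L ≃ₐ[ℚ] L} (hφ : IsArithFrobAt ℤ φ P) {ω : L} (hω : ω ^ 2 + ω + 1 = 0) :
    ∃ (ωB : 𝓞 L) (ρ : PP) (F : Type) (_ : Field F) (mk : 𝓞 L →+* F) (z : F) (ψ : Eis →+* F),
      (ωB : L) = ω ∧ (Q : Eis) = ρ.1 * conj ρ.1 ∧ Dat Q φ ωB ρ.1 mk z ψ := by
  have hfin := quo_finite hQ hP hQP
  have hmax : P.IsMaximal :=
    Ideal.Quotient.maximal_of_isField _ (Finite.isField_of_domain (𝓞 L ⧸ P))
  let _ : Field (𝓞 L ⧸ P) := Ideal.Quotient.field P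
  let ωB : 𝓞 L := ⟨ω, isIntegral_omega hω⟩
  have h3 : ωB ^ 2 + ωB + 1 = 0 := by
    apply RingOfIntegers.coe_injective
    change ω ^ 2 + ω + 1 = 0
    exact hω
  set z : 𝓞 L ⧸ P := Ideal.Quotient.mk P ωB with hz
  have hzrel : z ^ 2 + z + 1 = 0 := by
    rw [hz, ← map_pow, ← map_add, ← map_one (Ideal.Quotient.mk P), ← map_add, h3, map_zero]
  have h3Q : ¬ (Q : ℤ) ∣ 3 := by
    intro h3
    have h4 : Q ∣ 3 := by exact_mod_cast h3
    have h5 := (Nat.prime_dvd_prime_iff_eq hQ Nat.prime_three).1 h4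
    omega
  have hz1 : z ≠ 1 := by
    intro h3
    rw [h3] at hzrel
    refine h3Q ((int_mk hQ hP hQP 3).1 ?_)
    push_cast
    linear_combination hzrel
  let ψ : Eis →+* 𝓞 L ⧸ P := Pool.Agent.PT.GFR.lift z hzrel
  have hψQ : ψ (Q : Eis) = 0 := by
    rw [map_natCast, ← map_natCast (Ideal.Quotient.mk P)]
    exact Ideal.Quotient.eq_zero_iff_mem.2 hQP
  have hψw : ψ w = z := Pool.Agent.PT.GFR.lift_w z hzrel
  obtain ⟨ρ, hρQ, hψρ⟩ : ∃ ρ : PP, (Q : Eis) = ρ.1 * conj ρ.1 ∧ ψ ρ.1 = 0 := by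
    obtain ⟨ρ₀, h0⟩ := hSPLT.1 Q hQ hQ3
    have h1 : ψ ρ₀.1 * ψ (conj ρ₀.1) = 0 := by rw [← map_mul, ← h0, hψQ]
    rcases mul_eq_zero.1 h1 with h2 | h2
    · exact ⟨ρ₀, h0, h2⟩
    · obtain ⟨ρ', h3⟩ := (hSPP.2.2.2.1 ρ₀).2
      refine ⟨ρ', ?_, ?_⟩
      · rw [h3, conj_conj, mul_comm]
        exact h0
      · rw [h3]
        exact h2
  have hN : N ρ.1 = Q := by
    have h1 := mul_conj ρ.1
    rw [← hρQ] at h1
    have h2 : ((Q : ℤ) : Eis) = ((ρ.1.norm : ℤ) : Eis) := by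
      rw [Int.cast_natCast]
      exact h1
    have h3 : (Q : ℤ) = ρ.1.norm := by
      have h4 := congrArg Eis.re h2
      simpa using h4
    have h4 := N_cast ρ.1
    rw [← h3] at h4
    exact_mod_cast h4
  exact ⟨ωB, ρ, 𝓞 L ⧸ P, inferInstance, Ideal.Quotient.mk P, z, ψ, rfl, hρQ,
    { hQ := hQ
      rel := hzrel
      ne1 := hz1
      ωz := rfl
      ψw := hψw
      ψρ := hψρ
      i0 := fun n => int_mk hQ hP hQP n
      fr := fun x => frob_mk hQ hP hQP hφ x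
      fω := frob_omega hQ hP hQP hQ3 hφ hω
      rω := h3
      hq := ρ.2.1
      h3 := (hSPP.2.2.2.1 ρ).1
      hN := hN
      hd := (hSPLT.2 Q ρ hQ hQ3 hρQ).2.2.2.1 }⟩

theorem ne_zero {s : ℕ} {b : Fin s → ℤ} {p q p' q' : Fin s → Fin s → ℤ}
    (hS : SysG b p q p' q') (j : Fin s) : b j ≠ 0 := by
  classical
  intro h0
  refine hS.ind (Pi.single j 1) ⟨j, by simp⟩ ⟨0, ?_⟩
  have h1 : ∏ i, b i ^ (Pi.single j 1 : Fin s → ℕ) i = 0 := by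
    refine Finset.prod_eq_zero (Finset.mem_univ j) ?_
    rw [Pi.single_eq_same, pow_one, h0]
  rw [h1]
  norm_num

end GFRS

theorem GFRS_thm (hSPLT : SPLT) (hSPP : SPP) : GFRS := by
  classical
  intro s b p q p' q' f L _ _ ζ ω hS hG
  let B : Fin (s + 1) → Fin (s + 1) → ℕ := fun j i => (b j).natAbs +
    (p j i ^ 3 + b j * q j i ^ 3).natAbs + (p' j i ^ 3 + b j * q' j i ^ 3).natAbs
  refine ⟨∑ j, ∑ i, B j i, fun Q hQ hQN hQ3 P hP hQP φ hφ hF => ?_⟩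
  have hB : ∀ j i, B j i < Q := by
    intro j i
    refine lt_of_le_of_lt ?_ hQN
    have h1 : B j i ≤ ∑ i, B j i :=
      Finset.single_le_sum (f := fun i => B j i) (fun _ _ => Nat.zero_le _) (Finset.mem_univ i)
    refine h1.trans ?_
    exact Finset.single_le_sum (f := fun j => ∑ i, B j i) (fun _ _ => Nat.zero_le _)
      (Finset.mem_univ j)
  have hb : ∀ j, ¬ (Q : ℤ) ∣ b j := fun j =>
    GFR.not_dvd_of_lt (GFRS.ne_zero hS j) (by have := hB j j; simp only [B] at this; omega)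
  obtain ⟨ωB, ρ, F, _, mk, z, ψ, rfl, hρ, D⟩ := GFRS.exists_dat hSPLT hSPP hQ hP hQP hQ3 hφ hG.rel
  refine ⟨ρ, hρ, fun j => ?_, ?_, fun j i hji r t hr ht => ?_⟩
  · obtain ⟨θ, hθ⟩ := hG.root j.castSucc
    obtain ⟨θB, rfl, hθB⟩ := GFRS.exists_int hθ
    exact D.sym_zero hθB (hb _) (RingOfIntegers.coe_injective (hF.1 j _ hθ))
  · obtain ⟨θ, hθ⟩ := hG.root (Fin.last s)
    obtain ⟨θB, rfl, hθB⟩ := GFRS.exists_int hθ
    exact D.sym_ne hθB (hb _) fun h => hF.2 _ hθ (congrArg (fun x : 𝓞 L => (x : L)) h)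
  · have hji' : j.castSucc ≠ i.castSucc := fun h => hji (Fin.castSucc_injective _ h)
    have hsol := hS.sol j.castSucc i.castSucc hji'
    have h2 : p' j.castSucc i.castSucc ^ 3 + b j.castSucc * q' j.castSucc i.castSucc ^ 3 ≠ 0 := by
      intro h0
      refine hsol.n1 ?_
      rw [hsol.eq, h0, mul_zero]
    have hBji := hB j.castSucc i.castSucc
    simp only [B] at hBji
    obtain ⟨θ₀, hθ₀⟩ := hG.root j.castSucc
    obtain ⟨θ₁, rfl, hθ₁⟩ := GFRS.exists_int hθ₀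
    obtain ⟨θ, hθ, hrθ⟩ := D.exists_root hr hθ₁
    have hθL : (θ : L) ^ 3 = (b j.castSucc : L) := by
      rw [← map_pow, hθ, map_intCast]
    obtain ⟨A, hA⟩ := hG.A j.castSucc i.castSucc hji' θ hθL
    exact D.core (GFR.not_dvd_of_lt hsol.n1 (by omega)) (GFR.not_dvd_of_lt h2 (by omega))
      hr hrθ (hF.1 j θ hθL) hA (ht θ A hθL hA)

end Pool.Agent.PTE
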