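import Pool.Agent.PTE.Stmts

/-!
# Kummer theory for the cube roots of the `b_j` in the governing field
-/

open NumberField IsDedekindDomain Finset
open scoped nonZeroDivisors Pointwise

namespace Pool.Agent.PTE

open Pool.Agent.Lib_helper18 Pool.Agent.Lib_helper18.Eis Pool.Agent.Lib_helper84.Cub
open Pool.Agent.PT

namespace GKUM

theorem cube_eq {L : Type} [Field L] {ω : L} (h : ω ^ 2 + ω + 1 = 0) {x y : L}
    (hxy : x ^ 3 = y ^ 3) : ∃ k : ℕ, x = ω ^ k * y := by
  have h1 : (x - y) * ((x - ω * y) * (x - ω ^ 2 * y)) = 0 := by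
    linear_combination hxy + (-x ^ 2 * y + ω * x * y ^ 2 - (ω - 1) * y ^ 3) * h
  rcases mul_eq_zero.1 h1 with h2 | h2
  · exact ⟨0, by rw [pow_zero, one_mul]; exact sub_eq_zero.1 h2⟩
  · rcases mul_eq_zero.1 h2 with h3 | h3
    · exact ⟨1, by rw [pow_one]; exact sub_eq_zero.1 h3⟩
    · exact ⟨2, sub_eq_zero.1 h3⟩

end GKUM

theorem GKUM_thm (hKUM : KUM) (hGKI : GKI) : GKUM := by
  intro s b p q p' q' f L _ _ ζ ω hS hG v
  have hω := hG.rel
  haveI := hG.gal
  have hf : 0 < f := by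
    rcases Nat.eq_zero_or_pos f with h | h
    · exfalso
      have h1 := hG.hω
      rw [h, Nat.zero_div, pow_zero] at h1
      rw [h1] at hω
      norm_num at hω
    · exact h
  have hζf : ζ ^ f = 1 := hG.prim.pow_eq_one
  have hζ : ∀ z : L ≃ₐ[ℚ] L, z ζ = ζ → z ω = ω := by
    intro z hz
    rw [hG.hω, map_pow, hz]
  have hb : ∀ i, b i ≠ 0 := by
    intro i hi
    refine hS.ind (fun l => if l = i then 1 else 0) ⟨i, by simp⟩ ⟨0, ?_⟩
    symm
    rw [zero_pow (by norm_num)]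
    exact Finset.prod_eq_zero (Finset.mem_univ i) (by simp [hi])
  choose θ hθ using hG.root
  let F := IntermediateField.adjoin ℚ {ζ}
  have hζF : ζ ∈ F := IntermediateField.mem_adjoin_simple_self ℚ ζ
  let ζF : F := ⟨ζ, hζF⟩
  obtain ⟨g, hg⟩ := hKUM F L (ζF ^ (f / 3)) (Fin s) (fun i => ((b i : ℤ) : F)) θ
    (by
      apply Subtype.ext
      push_cast
      rw [← hG.hω]
      exact hω)
    (fun i => by exact_mod_cast hb i)
    (fun i => by rw [hθ i, map_intCast])
    (by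
      rintro n ⟨β, hβ⟩
      by_contra hcon
      push Not at hcon
      have h1 : ((β : L)) ^ 3 = ((∏ i, b i ^ n i : ℤ) : L) := by
        have h2 := congrArg (algebraMap F L) hβ
        rw [map_pow, map_prod] at h2
        push_cast
        rw [show ((β : L)) ^ 3 = (algebraMap F L β) ^ 3 from rfl, ← h2]
        refine Finset.prod_congr rfl (fun i _ => ?_)
        rw [map_pow, map_intCast]
      obtain ⟨t, ht⟩ := hGKI L f ζ (β : L) (∏ i, b i ^ n i) hf hζf β.2 h1
      exact hS.ind n hcon ⟨t, ht⟩)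
    v
  have hgζ : (g.restrictScalars ℚ) ζ = ζ := g.commutes ζF
  have hgθ : ∀ l, (g.restrictScalars ℚ) (θ l) = ω ^ (v l).val * θ l := by
    intro l
    have h3 := hg l
    rw [AlgEquiv.restrictScalars_apply, h3, map_pow]
    rw [show algebraMap F L ζF = ζ from rfl, ← hG.hω]
  refine ⟨g.restrictScalars ℚ, hgζ, fun j ρ hρ => ?_⟩
  obtain ⟨k, hk⟩ := GKUM.cube_eq hω (show ρ ^ 3 = θ j ^ 3 by rw [hρ, hθ j])
  rw [hk, map_mul, map_pow, hζ _ hgζ, hgθ]
  ring

end Pool.Agent.PTE
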