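import Pool.Agent.PTE.Stmts
import Pool.Agent.PT.GZERO

/-!
# PTE: existence of the governing field
-/

set_option autoImplicit false

open NumberField IsDedekindDomain Finset
open scoped nonZeroDivisors Pointwise

namespace Pool.Agent.PTE

open Pool.Agent.Lib_helper18 Pool.Agent.Lib_helper18.Eis Pool.Agent.Lib_helper84.Cub
open Pool.Agent.PT

open Pool.Agent.PT.GZERO in
/-- GZEROG: existence of the governing field. -/
theorem GZEROG_thm : GZEROG := by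
  intro s b p q p' q' f hSys hf h9
  have : NeZero (f : AlgebraicClosure ℚ) := ⟨Nat.cast_ne_zero.2 hf.ne'⟩
  have : NeZero f := ⟨hf.ne'⟩
  obtain ⟨ζ, hζ⟩ := HasEnoughRootsOfUnity.exists_primitiveRoot (AlgebraicClosure ℚ) f
  have hω := rel_of_prim (prim_pow hf h9 hζ)
  have hN : ∀ j i, j ≠ i → p j i ^ 3 + b j * q j i ^ 3 ≠ 0 ∧
      p' j i ^ 3 + b j * q' j i ^ 3 ≠ 0 := by
    intro j i hji
    have h1 := hSys.sol j i hji
    refine ⟨h1.n1, fun h2 => h1.n1 ?_⟩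
    rw [h1.eq, h2, mul_zero]
  have hA : ∀ (j i : Fin s) (ρ : AlgebraicClosure ℚ), ∃ A : AlgebraicClosure ℚ, j ≠ i →
      ρ ^ 3 = (b j : AlgebraicClosure ℚ) →
      A ^ 3 * aD (ζ ^ (f / 3)) (p j i) (q j i) (p' j i) (q' j i) ρ =
        aN (ζ ^ (f / 3)) (p j i) (q j i) (p' j i) (q' j i) ρ := by
    intro j i ρ
    obtain ⟨A, hA⟩ := IsAlgClosed.exists_pow_nat_eq
      (aN (ζ ^ (f / 3)) (p j i) (q j i) (p' j i) (q' j i) ρ /
        aD (ζ ^ (f / 3)) (p j i) (q j i) (p' j i) (q' j i) ρ) (n := 3) (by norm_num)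
    refine ⟨A, fun hji hρ => ?_⟩
    rw [hA, div_mul_cancel₀]
    exact (ne_of_prod hω (hN j i hji).1 (hN j i hji).2 hρ).1
  choose A hA using hA
  have hθ : ∀ j : Fin s, ∃ θ : AlgebraicClosure ℚ, θ ^ 3 = (b j : AlgebraicClosure ℚ) :=
    fun j => IsAlgClosed.exists_pow_nat_eq _ (by norm_num)
  have hR : ∀ j : Fin s, {ρ : AlgebraicClosure ℚ | ρ ^ 3 = (b j : AlgebraicClosure ℚ)}.Finite := by
    intro j
    classical
    refine (Polynomial.nthRoots 3 (b j : AlgebraicClosure ℚ)).toFinset.finite_toSet.subset ?_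
    intro ρ hρ
    simp only [Finset.mem_coe, Multiset.mem_toFinset]
    exact (Polynomial.mem_nthRoots (by norm_num)).2 hρ
  obtain ⟨L, iF, iN, iG, ι, hι⟩ := exists_field
    (({ζ} ∪ ⋃ j : Fin s, {ρ | ρ ^ 3 = (b j : AlgebraicClosure ℚ)}) ∪
      ⋃ j : Fin s, ⋃ i : Fin s, A j i '' {ρ | ρ ^ 3 = (b j : AlgebraicClosure ℚ)})
    (((Set.finite_singleton ζ).union (Set.finite_iUnion hR)).union
      (Set.finite_iUnion fun j => Set.finite_iUnion fun i => (hR j).image _))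
  have hinj : Function.Injective ι := ι.injective
  obtain ⟨z, hz⟩ := hι ζ (Or.inl (Or.inl rfl))
  have hzp : IsPrimitiveRoot z f := by
    refine IsPrimitiveRoot.of_map_of_injective (f := ι) ?_ hinj
    rw [hz]
    exact hζ
  have hzω : ι (z ^ (f / 3)) = ζ ^ (f / 3) := by rw [map_pow, hz]
  have hrel := rel_of_prim (prim_pow hf h9 hzp)
  have hNmap : ∀ (u v u' v' : ℤ) (ρ : L), ι (aN (z ^ (f / 3)) u v u' v' ρ) =
      aN (ζ ^ (f / 3)) u v u' v' (ι ρ) := by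
    intro u v u' v' ρ
    unfold aN
    simp only [map_mul, map_add, map_pow, map_intCast, hz]
  have hDmap : ∀ (u v u' v' : ℤ) (ρ : L), ι (aD (z ^ (f / 3)) u v u' v' ρ) =
      aD (ζ ^ (f / 3)) u v u' v' (ι ρ) := by
    intro u v u' v' ρ
    unfold aD
    simp only [map_mul, map_add, map_pow, map_intCast, hz]
  refine ⟨L, iF, iN, z, z ^ (f / 3), iG, hzp, h9, rfl, hrel, ?_, ?_, ?_⟩
  · intro j
    obtain ⟨θ, hθ⟩ := hθ j
    obtain ⟨y, hy⟩ := hι θ (Or.inl (Or.inr (Set.mem_iUnion.2 ⟨j, hθ⟩)))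
    refine ⟨y, hinj ?_⟩
    rw [map_pow, hy, hθ, map_intCast]
  · intro j i hji ρ hρ
    have hρ' : (ι ρ) ^ 3 = (b j : AlgebraicClosure ℚ) := by rw [← map_pow, hρ, map_intCast]
    obtain ⟨y, hy⟩ := hι (A j i (ι ρ)) (Or.inr (Set.mem_iUnion.2 ⟨j, Set.mem_iUnion.2
      ⟨i, ⟨ι ρ, hρ', rfl⟩⟩⟩))
    refine ⟨y, hinj ?_⟩
    rw [map_mul, map_pow, hy, hDmap, hNmap]
    exact hA j i (ι ρ) hji hρ'
  · intro j i hji ρ hρ
    exact ne_of_prod hrel (hN j i hji).1 (hN j i hji).2 hρ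

end Pool.Agent.PTE
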