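import Pool.Agent.PTE.Stmts
import Pool.Agent.PT.MAINT
import Pool.Agent.PT.DENS

/-!
# PTE: the theorem for all `n` prime to `3`
-/

set_option autoImplicit false

namespace Pool.Agent.PTE

open Pool.Agent.Lib_helper18 Pool.Agent.Lib_helper18.Eis Pool.Agent.Lib_helper84.Cub
open Pool.Agent.PT

/-- MAINS: the theorem for all `n` prime to `3`. -/
theorem MAINS_thm (hENF : ENF) (hFINA : FINA) (hFINAS : FINAS) : MAINS := by
  intro N hN h3
  obtain ⟨n, t, π, p, e, r, f, hn, ht, hNn, hNF, hl⟩ := hENF N hN h3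
  have key : RI.DensityGE {q : ℕ | ¬ ∃ X Y : ℚ, X ^ 3 + Y ^ 3 = (n : ℚ) * q}
      (1 / (30 * 3 ^ Nat.card {p : ℕ // p.Prime ∧ p % 3 = 1 ∧ ¬ 3 ∣ N.factorization p})) := by
    rcases Nat.even_or_odd (Nat.card {p : ℕ // p.Prime ∧ p % 3 = 2 ∧
      ¬ 3 ∣ N.factorization p}) with h | h
    · refine PT.DENS.dens_mono (hFINA n _ _ π p e r f hNF (Or.inl h)) ?_
      apply one_div_le_one_div_of_le
      · positivity
      · have h1 : (0 : ℝ) < 3 ^ Nat.card {p : ℕ // p.Prime ∧ p % 3 = 1 ∧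
          ¬ 3 ∣ N.factorization p} := by positivity
        linarith
    · exact hFINAS n _ _ π p e r f hNF h
  obtain ⟨C, hC⟩ := key
  refine ⟨C, fun s hs1 hs2 => ?_⟩
  have hset : {q : ℕ | ¬ ∃ X Y : ℚ, X ^ 3 + Y ^ 3 = (n : ℚ) * q} =
      {q : ℕ | ¬ ∃ X Y : ℚ, X ^ 3 + Y ^ 3 = (N : ℚ) * q} := by
    ext q
    simp only [Set.mem_setOf_eq]
    rw [hNn, MAINT.sum_cubes_iff ht q]
  have := hC s hs1 hs2
  rw [hset] at this
  exact this

end Pool.Agent.PTE
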