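import Pool.Agent.PTE.Stmts
import Pool.Agent.Lib_helper18.FD7

/-!
# SPLT: the primes `q = 1 (mod 3)`
-/

namespace Pool.Agent.PTE

open Pool.Agent.Lib_helper18 Pool.Agent.Lib_helper18.Eis Pool.Agent.Lib_helper84.Cub
open Pool.Agent.PT

namespace SPLT

/-- A rational integer `x` with `x ^ ((q - 1) / 3) = 1` modulo `q` is a cube modulo `q`. -/
theorem exists_cube {q : ℕ} (hq : q.Prime) (h3 : q % 3 = 1) (u : (ZMod q)ˣ)
    (hu : u ^ ((q - 1) / 3) = 1) : ∃ v : (ZMod q)ˣ, v ^ 3 = u := by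
  have : Fact q.Prime := ⟨hq⟩
  obtain ⟨g, hg⟩ := IsCyclic.exists_generator (α := (ZMod q)ˣ)
  have hord : orderOf g = q - 1 := by
    rw [orderOf_eq_card_of_forall_mem_zpowers hg, Nat.card_eq_fintype_card,
      ZMod.card_units_eq_totient, Nat.totient_prime hq]
  obtain ⟨j, hj⟩ := Subgroup.mem_zpowers_iff.1 (hg u)
  have hq2 := hq.two_le
  obtain ⟨k, hk⟩ : ∃ k, q - 1 = 3 * k := ⟨(q - 1) / 3, by omega⟩
  have hk0 : 0 < k := by omega
  have hk' : (q - 1) / 3 = k := by omega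
  rw [hk', ← hj, ← zpow_natCast, ← zpow_mul, ← orderOf_dvd_iff_zpow_eq_one, hord, hk] at hu
  push_cast at hu
  have h4 : (3 : ℤ) ∣ j := Int.dvd_of_mul_dvd_mul_right (by omega) hu
  obtain ⟨i, rfl⟩ := h4
  refine ⟨g ^ i, ?_⟩
  rw [← hj, ← zpow_natCast, ← zpow_mul, mul_comm i]
  rfl

theorem norm_eq {q : ℕ} {ρ : Eis} (h : (q : Eis) = ρ * conj ρ) : ρ.norm = q := by
  rw [mul_conj] at h
  have h1 := congrArg Eis.re h
  rw [natCast_re, intCast_re] at h1
  exact h1.symm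

end SPLT

set_option linter.unusedVariables false in
theorem SPLT_thm (hSTM : STM) (hSPP : SPP) (hSCJ : SCJ) : SPLT := by
  refine ⟨fun q hq h3 => ?_, fun q ρ hq h3 hρ => ?_⟩
  · have : Fact q.Prime := ⟨hq⟩
    obtain ⟨π0, hπ0, _⟩ := exists_pi hq h3
    have hp := prime_of_norm_eq hπ0
    obtain ⟨ρ, hρ⟩ := hSPP.1 π0 hp (not_dvd_three hπ0 h3)
    obtain ⟨u, hu⟩ := hρ
    have h1 : ρ.1.norm = q := by
      rw [← hu, norm_mul, isUnit_iff_norm.mp u.isUnit, mul_one, hπ0]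
    exact ⟨ρ, (mul_conj_p h1).symm⟩
  · have : Fact q.Prime := ⟨hq⟩
    have hn := SPLT.norm_eq hρ
    have hp := ρ.2.1
    have h3' := not_dvd_three hn h3
    obtain ⟨ρ', hρ'⟩ := (hSPP.2.2.2.1 ρ).2
    refine ⟨fun h => not_dvd_conj h3 hn h.dvd, ⟨ρ', hρ'⟩, ?_, ?_, ?_, ?_⟩
    · intro σ hσ
      rcases (norm_of_dvd_p hn σ.2.1 hσ).2 with h | h
      · exact Or.inl (congrArg Subtype.val (hSPP.2.1 σ ρ h))
      · right
        rw [← hρ'] at h ⊢
        exact congrArg Subtype.val (hSPP.2.1 σ ρ' h)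
    · intro x
      exact dvd_intCast_iff hn
    · intro a ha
      exact sym_conj hp h3' ha
    · intro x hx hs
      have hx' : ¬ ρ.1 ∣ (x : Eis) := by rwa [dvd_intCast_iff hn]
      have h4 := sym_spec hp h3' hx'
      have hN : N ρ.1 = q := by
        have h5 := N_cast ρ.1
        rw [hn] at h5
        exact_mod_cast h5
      rw [hs, hN] at h4
      have h5 : (x : Eis) ^ ((q - 1) / 3) - w ^ (0 : ZMod 3).val =
          ((x ^ ((q - 1) / 3) - 1 : ℤ) : Eis) := by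
        push_cast
        rfl
      rw [h5, dvd_intCast_iff hn, ← ZMod.intCast_zmod_eq_zero_iff_dvd] at h4
      have hx0 : (x : ZMod q) ≠ 0 := by
        intro h
        exact hx ((ZMod.intCast_zmod_eq_zero_iff_dvd _ _).1 h)
      obtain ⟨v, hv⟩ := SPLT.exists_cube hq h3 (Units.mk0 (x : ZMod q) hx0) (by
        apply Units.ext
        push_cast at h4
        rw [Units.val_pow_eq_pow_val, Units.val_mk0, Units.val_one]
        exact sub_eq_zero.1 h4)
      obtain ⟨r, hr⟩ := ZMod.intCast_surjective (v : ZMod q)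
      refine ⟨r, ?_⟩
      rw [← ZMod.intCast_zmod_eq_zero_iff_dvd]
      push_cast
      have h6 := congrArg Units.val hv
      rw [Units.val_pow_eq_pow_val, Units.val_mk0] at h6
      rw [hr, h6, sub_self]

end Pool.Agent.PTE
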