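import Pool.Agent.PT.Final
import Pool.Agent.PTE.CLSCS
import Pool.Agent.PTE.DCNTS
import Pool.Agent.PTE.DCONSTS
import Pool.Agent.PTE.DENSS
import Pool.Agent.PTE.DIRS
import Pool.Agent.PTE.DSUM
import Pool.Agent.PTE.EADMS
import Pool.Agent.PTE.ECLS
import Pool.Agent.PTE.EHPL
import Pool.Agent.PTE.FD2S
import Pool.Agent.PTE.FINAS
import Pool.Agent.PTE.GALDS
import Pool.Agent.PTE.GCG
import Pool.Agent.PTE.GFRS
import Pool.Agent.PTE.GKUM
import Pool.Agent.PTE.GTS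
import Pool.Agent.PTE.GZEROG
import Pool.Agent.PTE.HYPS
import Pool.Agent.PTE.MAINS
import Pool.Agent.PTE.SPLT

/-!
# Prime twists of rank zero, every `n` prime to `3`: assembly
-/

namespace Pool.Agent.PTE.Final

open Pool.Agent.PT Pool.Agent.PT.Final Pool.Agent.PTE

theorem fSPLT : SPLT := SPLT_thm fSTM fSPP fSCJ

theorem fHYPS : HYPS := HYPS_thm fSTM fSPP fSSL fSREC fSCJ fSPLT

theorem fEADMS : EADMS := EADMS_thm fSTM fSPP fSCJ fSPLT

theorem fFD2S : FD2S := FD2S_thm fSTM fSPP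

theorem fEHPL : EHPL := EHPL_thm fEVEC fSPP fSTM

theorem fECLS : ECLS := ECLS_thm fEMAT fEHPL fESYS fEADMS fHYPS fFD1 fFD2S fTEND fSPLT

theorem fDCONSTS : DCONSTS := DCONSTS_thm fSTM fSPP fSSL fSLC fSCJ fLCI fAVV fLFIN fSPLT

theorem fGZEROG : GZEROG := GZEROG_thm

theorem fGCG : GCG := GCG_thm fKUM fGKI

theorem fGKUM : GKUM := GKUM_thm fKUM fGKI

theorem fGTS : GTS := GTS_thm

theorem fGFRS : GFRS := GFRS_thm fSPLT fSPP

theorem fGALDS : GALDS := GALDS_thm fGZEROG fGCHI fGCG fGKUM fGTS fGFRS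

theorem fDCNTS : DCNTS := DCNTS_thm fSING

theorem fCLSCS : CLSCS := CLSCS_thm

theorem fDENSS : DENSS := DENSS_thm fGALDS fDCNTS fSPLT

theorem fDIRS : DIRS := DIRS_thm fDIR fCLSC fCLSCS

theorem fDSUM : DSUM := DSUM_thm

theorem fFINAS : FINAS := FINAS_thm fSPLT fECLS fDCONSTS fCLSC fCLSCS fDENSS fDIRS fDSUM

theorem fMAINS : MAINS := MAINS_thm fENF fFINA fFINAS

end Pool.Agent.PTE.Final
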