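import Pool.Agent.PTE.Stmts
import Pool.Agent.PT.GT
import Pool.Agent.PT.GC

/-!
# GTS: existence, uniqueness and properties of `t`
-/

set_option autoImplicit false
set_option linter.unusedSectionVars false

namespace Pool.Agent.PTE

open Pool.Agent.Lib_helper18 Pool.Agent.Lib_helper18.Eis Pool.Agent.Lib_helper84.Cub
open Pool.Agent.PT

namespace GTS

open Pool.Agent.PT.GT

variable {L : Type} [Field L] [NumberField L] {ω : L}

/-- The element `A` for `ω ρ` in terms of the one for `ρ`. -/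
theorem mov {ρ t A A' : L} {p q p' q' b x : ℤ}
    (hω : ω ^ 2 + ω + 1 = 0) (hρ : ρ ^ 3 = (b : L)) (ht : t ^ 3 = (x : L))
    (hs : SolW b x p q p' q')
    (hA : A ^ 3 * aD ω p q p' q' ρ = aN ω p q p' q' ρ)
    (hA' : A' ^ 3 * aD ω p q p' q' (ω * ρ) = aN ω p q p' q' (ω * ρ)) :
    ∃ e : ℕ, A' * (p + q * ω ^ 2 * ρ) = ω ^ e * (A * t * (p' + q' * ω ^ 2 * ρ)) := by
  have h3 := hA'
  have hN := PT.GC.nrm hω hρ (p := p) (q := q)
  have hN' := PT.GC.nrm hω hρ (p := p') (q := q')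
  have hnz := mul_ne_zero (PT.GC.ne3 hω hρ (PT.GC.n1' hs)).1 (PT.GC.ne3 hω hρ hs.n1).2.1
  unfold aD aN at h3 hA
  have hc := PT.GC.om3 hω
  have h4 : A' ^ 3 * ((p + q * ω ^ 2 * ρ) * (p' + q' * ρ)) =
      (p + q * ρ) * (p' + q' * ω ^ 2 * ρ) := by
    have e1 : (p : L) + q * ω * (ω * ρ) = p + q * ω ^ 2 * ρ := by ring
    have e2 : (p' : L) + q' * ω ^ 2 * (ω * ρ) = p' + q' * ρ := by
      linear_combination ((q' : L) * ρ) * hc
    have e3 : (p : L) + q * ω ^ 2 * (ω * ρ) = p + q * ρ := by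
      linear_combination ((q : L) * ρ) * hc
    have e4 : (p' : L) + q' * ω * (ω * ρ) = p' + q' * ω ^ 2 * ρ := by ring
    rw [e1, e2, e3, e4] at h3
    exact h3
  have heq : ((p ^ 3 + b * q ^ 3 : ℤ) : L) = (x : L) * ((p' ^ 3 + b * q' ^ 3 : ℤ) : L) := by
    rw [hs.eq]
    push_cast
    ring
  rw [← hN, ← hN'] at heq
  apply PT.GC.cube_eq hω
  apply mul_right_cancel₀ hnz
  rw [mul_pow, mul_pow, mul_pow, ht]
  calc A' ^ 3 * ((p : L) + q * ω ^ 2 * ρ) ^ 3 * ((p' + q' * ρ) * (p + q * ω * ρ))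
      = (A' ^ 3 * ((p + q * ω ^ 2 * ρ) * (p' + q' * ρ))) *
          ((p + q * ω ^ 2 * ρ) ^ 2 * (p + q * ω * ρ)) := by ring
    _ = ((p : L) + q * ρ) * ((p + q * ω * ρ) * (p + q * ω ^ 2 * ρ)) *
          ((p' + q' * ω ^ 2 * ρ) * (p + q * ω ^ 2 * ρ)) := by rw [h4]; ring
    _ = (A ^ 3 * ((p + q * ω * ρ) * (p' + q' * ω ^ 2 * ρ))) *
          (x * ((p' + q' * ω ^ 2 * ρ) ^ 2 * (p' + q' * ρ))) := by rw [heq, hA]; ring
    _ = A ^ 3 * (x : L) * ((p' : L) + q' * ω ^ 2 * ρ) ^ 3 * ((p' + q' * ρ) * (p + q * ω * ρ)) := by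
        ring

/-- `g` acts by `ω^t` on all `A` belonging to `ρ`. -/
def W (ω : L) (p q p' q' : ℤ) (g : L ≃ₐ[ℚ] L) (t : ZMod 3) (ρ : L) : Prop :=
  ∀ A : L, A ^ 3 * aD ω p q p' q' ρ = aN ω p q p' q' ρ → g A = E ω t * A

theorem W_step {ρ θ A : L} {p q p' q' b x : ℤ} {g : L ≃ₐ[ℚ] L} {t : ZMod 3}
    (hω : ω ^ 2 + ω + 1 = 0) (hρ : ρ ^ 3 = (b : L)) (hθ : θ ^ 3 = (x : L))
    (hs : SolW b x p q p' q') (hg : g ω = ω) (hgρ : g ρ = ρ) (hgθ : g θ = θ)
    (hA : A ^ 3 * aD ω p q p' q' ρ = aN ω p q p' q' ρ) (h : W ω p q p' q' g t ρ) :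
    W ω p q p' q' g t (ω * ρ) := by
  intro A' hA'
  obtain ⟨e, he⟩ := mov hω hρ hθ hs hA hA'
  have hnz := (PT.GC.ne3 hω hρ hs.n1).2.2
  apply mul_right_cancel₀ hnz
  have h1 := congrArg g he
  simp only [map_mul, map_pow, map_add, map_intCast, hg, hgρ, hgθ, h A hA] at h1
  rw [h1, mul_assoc (E ω t) A' _, he]
  ring

theorem W_all {ρ ρ' θ : L} {p q p' q' b x : ℤ} {g : L ≃ₐ[ℚ] L} {t : ZMod 3}
    (hω : ω ^ 2 + ω + 1 = 0) (hρ : ρ ^ 3 = (b : L)) (hρ' : ρ' ^ 3 = (b : L))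
    (hθ : θ ^ 3 = (x : L)) (hs : SolW b x p q p' q') (hg : g ω = ω)
    (hgρ : ∀ ρ : L, ρ ^ 3 = (b : L) → g ρ = ρ) (hgθ : g θ = θ)
    (hA : ∀ ρ : L, ρ ^ 3 = (b : L) → ∃ A, A ^ 3 * aD ω p q p' q' ρ = aN ω p q p' q' ρ)
    (h : W ω p q p' q' g t ρ) : W ω p q p' q' g t ρ' := by
  have hc := PT.GC.om3 hω
  obtain ⟨k, hk⟩ := PT.GC.cube_eq hω (hρ'.trans hρ.symm)
  have hpow : ∀ k : ℕ, (ω ^ k * ρ) ^ 3 = (b : L) ∧ W ω p q p' q' g t (ω ^ k * ρ) := by
    intro k
    induction k with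
    | zero => exact ⟨by rw [pow_zero, one_mul, hρ], by rw [pow_zero, one_mul]; exact h⟩
    | succ k ih =>
      obtain ⟨A, hA1⟩ := hA _ ih.1
      have e : ω ^ (k + 1) * ρ = ω * (ω ^ k * ρ) := by ring
      rw [e]
      refine ⟨?_, W_step hω ih.1 hθ hs hg (hgρ _ ih.1) hgθ hA1 ih.2⟩
      rw [mul_pow, hc, one_mul, ih.1]
  rw [hk]
  exact (hpow k).2

theorem pow_ω {g : L ≃ₐ[ℚ] L} (hg : g ω = ω) (k : ℕ) : (g ^ k) ω = ω := by
  induction k with
  | zero => rfl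
  | succ k ih =>
    rw [pow_succ']
    change g ((g ^ k) ω) = ω
    rw [ih, hg]

theorem pow_E (rel : ω ^ 2 + ω + 1 = 0) {g : L ≃ₐ[ℚ] L} (hg : g ω = ω) {x : L} {u : ZMod 3}
    (hx : g x = E ω u * x) (k : ℕ) : (g ^ k) x = E ω (k * u) * x := by
  induction k with
  | zero =>
    rw [Nat.cast_zero, zero_mul, E_zero, one_mul]
    rfl
  | succ k ih =>
    rw [pow_succ']
    change g ((g ^ k) x) = _
    rw [ih, map_mul, map_E' hg, hx, ← mul_assoc, ← E_add rel]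
    congr 2
    push_cast
    ring

theorem conj_apply (g τ : L ≃ₐ[ℚ] L) (x : L) : (τ * g * τ⁻¹) x = τ (g (τ⁻¹ x)) := rfl

theorem apply_inv (τ : L ≃ₐ[ℚ] L) (x : L) : τ (τ⁻¹ x) = x := τ.apply_symm_apply x

end GTS

open Pool.Agent.PT.GT in
/-- GTS: existence, uniqueness and properties of `t`. -/
theorem GTS_thm : GTS := by
  intro s b p q p' q' f L _ _ ζ ω hS hG
  have rel := hG.rel
  have h3 := cube_one rel
  have hω0 := ω_ne_zero rel
  have rootne : ∀ (g : L ≃ₐ[ℚ] L) (ρ : L), g ρ ≠ ρ → ρ ≠ 0 := by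
    rintro g ρ h rfl
    exact h (map_zero g)
  refine ⟨?_, ?_⟩
  · intro g hg hF
    have hmove : ∀ ρ : L, ρ ^ 3 = (b (Fin.last s) : L) → ∃ u : ZMod 3, u ≠ 0 ∧
        g ρ = E ω u * ρ := by
      intro ρ hρ
      have h1 : (g ρ) ^ 3 = ρ ^ 3 := by rw [← map_pow, hρ, map_intCast]
      obtain ⟨u, hu⟩ := of_cube rel h1
      refine ⟨u, ?_, hu⟩
      rintro rfl
      rw [E_zero, one_mul] at hu
      exact hF.2 ρ hρ hu
    have hk0 : ∀ (k : ℕ) (ρ : L), ρ ^ 3 = (b (Fin.last s) : L) → (g ^ k) ρ = ρ → 3 ∣ k := by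
      intro k ρ hρ hk
      obtain ⟨u, hu0, hu⟩ := hmove ρ hρ
      have h1 := GTS.pow_E rel hg hu k
      rw [hk] at h1
      have hρ0 := rootne g ρ (hF.2 ρ hρ)
      have h2 : E ω 0 = E ω (k * u) := by
        apply mul_right_cancel₀ hρ0
        rw [E_zero, one_mul]
        exact h1
      have h4 := E_inj rel h2
      have : Fact (Nat.Prime 3) := ⟨Nat.prime_three⟩
      rcases mul_eq_zero.1 h4.symm with h5 | h5
      · exact (ZMod.natCast_eq_zero_iff k 3).1 h5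
      · exact absurd h5 hu0
    refine ⟨?_, ?_, ?_⟩
    · obtain ⟨θ, hθ⟩ := hG.root (Fin.last s)
      apply hk0 _ θ hθ
      rw [pow_orderOf_eq_one]
      rfl
    · intro τ
      have hinv : ∀ (j : Fin (s + 1)) (ρ : L), ρ ^ 3 = (b j : L) → (τ⁻¹ ρ) ^ 3 = (b j : L) := by
        intro j ρ hρ
        rw [← map_pow, hρ, map_intCast]
      refine ⟨?_, ?_, ?_⟩
      · rw [GTS.conj_apply]
        have h1 : g (τ⁻¹ ω) = τ⁻¹ ω := by
          rcases map_ω rel (τ⁻¹ : L ≃ₐ[ℚ] L) with h | h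
          · rw [h, hg]
          · rw [h, map_pow, hg]
        rw [h1, GTS.apply_inv]
      · intro j ρ hρ
        rw [GTS.conj_apply, hF.1 j _ (hinv _ ρ hρ), GTS.apply_inv]
      · intro ρ hρ h1
        rw [GTS.conj_apply] at h1
        apply hF.2 _ (hinv _ ρ hρ)
        apply τ.injective
        rw [h1, GTS.apply_inv]
    · intro k
      refine ⟨GTS.pow_ω hg k, fun hk => ⟨?_, ?_⟩⟩
      · intro j ρ hρ
        have h1 : g ρ = E ω 0 * ρ := by rw [hF.1 j ρ hρ, E_zero, one_mul]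
        rw [GTS.pow_E rel hg h1, mul_zero, E_zero, one_mul]
      · intro ρ hρ h1
        exact hk (hk0 k ρ hρ h1)
  · intro j i hji
    have hji' : j.castSucc ≠ i.castSucc := fun h => hji (Fin.castSucc_injective _ h)
    have hsol := hS.sol _ _ hji'
    have hAne : ∀ ρ A : L, ρ ^ 3 = (b j.castSucc : L) →
        A ^ 3 * aD ω (p j.castSucc i.castSucc) (q j.castSucc i.castSucc)
          (p' j.castSucc i.castSucc) (q' j.castSucc i.castSucc) ρ =
        aN ω (p j.castSucc i.castSucc) (q j.castSucc i.castSucc)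
          (p' j.castSucc i.castSucc) (q' j.castSucc i.castSucc) ρ → A ≠ 0 := by
      rintro ρ A hρ hA rfl
      apply (hG.D _ _ hji' ρ hρ).2
      rw [← hA]
      ring
    refine ⟨?_, ?_, ?_⟩
    · intro g hg hF
      obtain ⟨ρ, hρ⟩ := hG.root j.castSucc
      obtain ⟨θ, hθ⟩ := hG.root i.castSucc
      obtain ⟨A, hA⟩ := hG.A _ _ hji' ρ hρ
      have hA0 := hAne ρ A hρ hA
      obtain ⟨hD, hN⟩ := hG.D _ _ hji' ρ hρ
      have hgρ := hF.1 j ρ hρ
      have e1 : (g A) ^ 3 = A ^ 3 := by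
        have h1 := congrArg g hA
        rw [map_mul, map_pow, map_aD' hg, map_aN' hg, hgρ, ← hA] at h1
        exact mul_right_cancel₀ hD h1
      obtain ⟨t, ht⟩ := of_cube rel e1
      have hW : GTS.W ω (p j.castSucc i.castSucc) (q j.castSucc i.castSucc)
          (p' j.castSucc i.castSucc) (q' j.castSucc i.castSucc) g t ρ := by
        intro A' hA'
        have e2 : A' ^ 3 = A ^ 3 := mul_right_cancel₀ hD (hA'.trans hA.symm)
        obtain ⟨m, hm⟩ := of_cube rel e2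
        rw [hm, map_mul, map_E' hg, ht]
        ring
      refine ⟨t, ?_, ?_⟩
      · intro ρ' A' hρ' hA'
        exact GTS.W_all rel hρ hρ' hθ hsol.toSolW hg (hF.1 j) (hF.1 i θ hθ)
          (hG.A _ _ hji') hW A' hA'
      · intro t' ht'
        have h1 : g A = E ω t' * A := ht' ρ A hρ hA
        rw [ht] at h1
        exact (E_inj rel (mul_right_cancel₀ hA0 h1)).symm
    · intro g τ t hg hF ht ρ A hρ hA
      have hρ' : (τ⁻¹ ρ) ^ 3 = (b j.castSucc : L) := by rw [← map_pow, hρ, map_intCast]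
      have hA0 := hAne ρ A hρ hA
      have e1 := congrArg (τ⁻¹ : L ≃ₐ[ℚ] L) hA
      rw [map_mul, map_pow] at e1
      rw [GTS.conj_apply]
      change τ (g (τ⁻¹ A)) = E ω t * A
      rcases map_ω rel (τ⁻¹ : L ≃ₐ[ℚ] L) with hτ | hτ
      · rw [map_aD' hτ, map_aN' hτ] at e1
        have h1 : g (τ⁻¹ A) = E ω t * τ⁻¹ A := ht _ _ hρ' e1
        have hτω : τ ω = ω := by
          have := congrArg τ hτ
          rw [GTS.apply_inv] at this
          exact this.symm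
        rw [h1, map_mul, map_E' hτω, GTS.apply_inv]
      · rw [map_aD rel hτ, map_aN rel hτ] at e1
        have hA1 : τ⁻¹ A ≠ 0 := by
          rw [Ne, EmbeddingLike.map_eq_zero_iff]
          exact hA0
        have h1 : g ((τ⁻¹ A)⁻¹) = E ω t * (τ⁻¹ A)⁻¹ := by
          apply ht _ _ hρ'
          rw [inv_pow, ← e1]
          field_simp
        have hτω : τ ω = ω ^ 2 := by
          have h4 := congrArg τ hτ
          rw [GTS.apply_inv, map_pow] at h4
          rcases map_ω rel τ with h5 | h5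
          · exfalso
            rw [h5] at h4
            apply ω_ne_one rel
            have h6 : ω * (ω - 1) = 0 := by linear_combination -h4
            rcases mul_eq_zero.1 h6 with h7 | h7
            · exact absurd h7 hω0
            · exact sub_eq_zero.1 h7
          · exact h5
        have h2 : g (τ⁻¹ A) = E ω (-t) * τ⁻¹ A := by
          rw [map_inv₀] at h1
          rw [E_neg rel]
          have h4 := congrArg (fun x => x⁻¹) h1
          simp only [inv_inv, mul_inv] at h4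
          exact h4
        rw [h2, map_mul, map_E rel hτω, neg_neg, GTS.apply_inv]
    · intro g t k hg ht ρ A hρ hA
      have h1 : g A = E ω t * A := ht ρ A hρ hA
      exact GTS.pow_E rel hg h1 k

end Pool.Agent.PTE
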