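import Pool.Agent.PT.Stmts4

/-!
# Prime twists of rank zero, every `n` prime to `3`: statements

Twists by primes `q = 1 (mod 3)`, `q = ρ conj ρ`, used when the number `k` of primes `= 2 (mod 3)`
dividing `n` is odd.
-/

open NumberField IsDedekindDomain Finset
open scoped nonZeroDivisors Pointwise

namespace Pool.Agent.PTE

open Pool.Agent.Lib_helper18 Pool.Agent.Lib_helper18.Eis Pool.Agent.Lib_helper84.Cub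
open Pool.Agent.PT

/-! ### Arithmetic of `q = ρ conj ρ` -/

/-- SPLT: the primes `q = 1 (mod 3)`. -/
def SPLT : Prop :=
  (∀ q : ℕ, q.Prime → q % 3 = 1 → ∃ ρ : PP, (q : Eis) = ρ.1 * conj ρ.1) ∧
  ∀ (q : ℕ) (ρ : PP), q.Prime → q % 3 = 1 → (q : Eis) = ρ.1 * conj ρ.1 →
    ¬ Associated ρ.1 (conj ρ.1) ∧ (∃ ρ' : PP, ρ'.1 = conj ρ.1) ∧
    (∀ σ : PP, σ.1 ∣ (q : Eis) → σ.1 = ρ.1 ∨ σ.1 = conj ρ.1) ∧
    (∀ x : ℤ, ρ.1 ∣ (x : Eis) ↔ (q : ℤ) ∣ x) ∧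
    (∀ a : Eis, ¬ ρ.1 ∣ a → sym (conj ρ.1) (conj a) = - sym ρ.1 a) ∧
    (∀ x : ℤ, ¬ (q : ℤ) ∣ x → sym ρ.1 (x : Eis) = 0 → ∃ r : ℤ, (q : ℤ) ∣ r ^ 3 - x)

/-- `q = 1 (mod 3)` is in the class `(w0, c)`. -/
def InClS {m : ℕ} (π : Fin m → PP) (w0 : ZMod 3) (c : Fin m → ZMod 3) (q : ℕ) : Prop :=
  q % 3 = 1 ∧ wt ((q : ℤ) ^ 2) = w0 ∧ ∀ i, sym (π i).1 (q : Eis) = c i

/-- HYPS: the minus part of the Selmer group of `n q` is trivial. -/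
def HYPS : Prop := ∀ (n m k : ℕ) (π : Fin m → PP) (p e : Fin m → ℕ) (r f : Fin k → ℕ)
  (w0 : ZMod 3) (c : Fin m → ZMod 3) (q : ℕ) (ρ : PP) (y : ℤ), NF n π p e r f → q.Prime →
  InClS π w0 c q → ¬ q ∣ n → (q : Eis) = ρ.1 * conj ρ.1 → wt ((n : ℤ) ^ 2) + w0 ≠ 0 →
  (Mp n π p e r none c).det ≠ 0 → AdmC n π w0 c y → sym ρ.1 (y : Eis) ≠ 0 →
  HypM ((n : ℤ) * q)

/-- EADMS: `AdmC` and `Adm`. -/
def EADMS : Prop := ∀ (n m k : ℕ) (π : Fin m → PP) (p e : Fin m → ℕ) (r f : Fin k → ℕ)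
  (w0 : ZMod 3) (c : Fin m → ZMod 3) (q : ℕ) (ρ : PP), NF n π p e r f → q.Prime →
  InClS π w0 c q → ¬ q ∣ n → (q : Eis) = ρ.1 * conj ρ.1 →
  BOk ((n : ℤ) * q) ∧ ∀ x : ℤ, (∀ l : ℕ, l.Prime → (l : ℤ) ∣ x → l ∣ n) →
    ((AdmC n π w0 c x ∧ sym ρ.1 (x : Eis) = 0) ↔ Adm ((n : ℤ) * q) x)

/-- FD2S: the class of a point; the prime `q` can be put into the last cell. -/
def FD2S : Prop := ∀ (n q : ℕ) (a x : Fin 3 → ℤ), q.Prime → q % 3 = 1 → ¬ q ∣ n → 0 < n →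
  BOk ((n : ℤ) * q) → Cell ((n : ℤ) * q) a x →
  ∃ z X Y : ℤ, Pt ((n : ℤ) * q) z X Y ∧ Adm ((n : ℤ) * q) z ∧
    (∀ l : ℕ, l.Prime → (l : ℤ) ∣ z → l ∣ n) ∧ ¬ ∃ t : ℤ, t ^ 3 = z

/-! ### Hyperplanes -/

/-- EHPL: bases of the admissible classes adapted to a hyperplane. -/
def EHPL : Prop := ∀ (n m k : ℕ) (π : Fin m → PP) (p e : Fin m → ℕ) (r f : Fin k → ℕ)
  (w0 : ZMod 3) (c : Fin m → ZMod 3), NF n π p e r f → 0 < k →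
  wt ((n : ℤ) ^ 2) + w0 ≠ 0 → (Mp n π p e r none c).det ≠ 0 →
  ∃ v : Fin k → ℤ, (∀ i, AdmC n π w0 c (v i)) ∧
    ∀ δ : Fin k → ZMod 3, δ ≠ 0 → ∃ (s : ℕ) (b : Fin (s + 1) → ℤ), s + 1 = k ∧
      (∀ i, AdmC n π w0 c (b i)) ∧ (∀ i (π : PP), V π.1 (b i : Eis) ≤ 2) ∧
      (∀ g : Fin (s + 1) → ℕ, (∃ i, ¬ 3 ∣ g i) → ¬ ∃ t : ℤ, t ^ 3 = ∏ i, b i ^ g i) ∧
      (∀ i j, i ≠ j → C9 (b i) ∨ C9 (b j)) ∧
      ∀ ρ : PP, ¬ ρ.1 ∣ (n : Eis) → (∀ i : Fin s, sym ρ.1 (b i.castSucc : Eis) = 0) →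
        sym ρ.1 (b (Fin.last s) : Eis) ≠ 0 →
        (∃ ε : ZMod 3, ε ≠ 0 ∧ ∀ i, sym ρ.1 (v i : Eis) = ε * δ i) ∧
        ∀ x : ℤ, AdmC n π w0 c x → sym ρ.1 (x : Eis) = 0 → ∃ (g : Fin s → ℕ) (u t : ℤ),
          u ≠ 0 ∧ t ≠ 0 ∧ x * u ^ 3 = (∏ i, b i.castSucc ^ g i) * t ^ 3

/-- A system of classes, without the condition modulo `9`. -/
structure SysG {s : ℕ} (b : Fin s → ℤ) (p q p' q' : Fin s → Fin s → ℤ) : Prop where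
  ind : ∀ c : Fin s → ℕ, (∃ i, ¬ 3 ∣ c i) → ¬ ∃ t : ℤ, t ^ 3 = ∏ i, b i ^ c i
  sol : ∀ j i, j ≠ i → Sol (b j) (b i) (p j i) (q j i) (p' j i) (q' j i)

/-- the restriction of a matrix to the first `s` indices -/
def rs {s : ℕ} (P : Fin (s + 1) → Fin (s + 1) → ℤ) : Fin s → Fin s → ℤ :=
  fun j i => P j.castSucc i.castSucc

/-- the restriction of a vector to the first `s` indices -/
def rv {s : ℕ} (b : Fin (s + 1) → ℤ) : Fin s → ℤ := fun j => b j.castSucc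

/-- ECLS: the class and the systems. -/
def ECLS : Prop := ∀ (n m k : ℕ) (π : Fin m → PP) (p e : Fin m → ℕ) (r f : Fin k → ℕ),
  NF n π p e r f → Odd k →
  ∃ (w0 : ZMod 3) (c : Fin m → ZMod 3) (v : Fin k → ℤ), w0 ≠ 0 ∧
    (∀ i, v i ≠ 0 ∧ ∀ l : ℕ, l.Prime → (l : ℤ) ∣ v i → l ∣ n) ∧
    ∀ δ : Fin k → ZMod 3, δ ≠ 0 → ∃ (s : ℕ) (b : Fin (s + 1) → ℤ)
      (P Q P' Q' : Fin (s + 1) → Fin (s + 1) → ℤ), s + 1 = k ∧ SysG b P Q P' Q' ∧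
      (∀ i, b i ≠ 0) ∧
      (∀ ρ : PP, ¬ ρ.1 ∣ (n : Eis) → (∀ i : Fin s, sym ρ.1 (b i.castSucc : Eis) = 0) →
        sym ρ.1 (b (Fin.last s) : Eis) ≠ 0 →
        ∃ ε : ZMod 3, ε ≠ 0 ∧ ∀ i, sym ρ.1 (v i : Eis) = ε * δ i) ∧
      ∀ (q : ℕ) (ρ : PP), q.Prime → InClS π w0 c q → ¬ q ∣ n → 3 < q →
        (q : Eis) = ρ.1 * conj ρ.1 → (∀ i : Fin s, sym ρ.1 (b i.castSucc : Eis) = 0) →
        sym ρ.1 (b (Fin.last s) : Eis) ≠ 0 →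
        BOk ((n : ℤ) * q) ∧ (∀ i : Fin s, Adm ((n : ℤ) * q) (b i.castSucc)) ∧
        (∀ i j, Mat (rv b) (rs P) (rs Q) (rs P') (rs Q') ((n : ℤ) * q) i j =
          - Mat (rv b) (rs P) (rs Q) (rs P') (rs Q') ((n : ℤ) * q) j i) ∧
        ((∃ X Y : ℚ, X ^ 3 + Y ^ 3 = (n : ℚ) * q) →
          (Mat (rv b) (rs P) (rs Q) (rs P') (rs Q') ((n : ℤ) * q)).det = 0)

/-! ### Dependence of the pairing on the prime -/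

/-- The cubic residue symbol modulo `ρ` of
`[(p + q w^2 r)(p' + q' w r)] / [(p + q w r)(p' + q' w^2 r)]`. -/
noncomputable def TAUVS (ρ : Eis) (p q p' q' r : ℤ) : ZMod 3 :=
  sym ρ (Lf p q 2 r) + sym ρ (Lf p' q' 1 r) - sym ρ (Lf p q 1 r) - sym ρ (Lf p' q' 2 r)

/-- DCONSTS: the pairing `O_{nQ}(b, η)` as a function of the prime `Q = 1 (mod 3)`. -/
def DCONSTS : Prop := ∀ (n : ℕ) (b x p q p' q' : ℤ), 0 < n → ¬ 3 ∣ n → Sol b x p q p' q' →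
  b ≠ 0 → x ≠ 0 → ∃ f₀ : ℕ, 0 < f₀ ∧ ∀ f : ℕ, 0 < f → f₀ ∣ f →
  ∃ (C : ZMod 3) (Φ : (ZMod f)ˣ →* Multiplicative (ZMod 3)) (N₀ : ℕ),
    ∀ (Q : ℕ) (hQ : Q.Coprime f) (ρ : PP), Q.Prime → N₀ < Q → Q % 3 = 1 →
      (Q : Eis) = ρ.1 * conj ρ.1 →
      BOk ((n : ℤ) * Q) → Adm ((n : ℤ) * Q) b → Adm ((n : ℤ) * Q) x →
      ∀ r : ℤ, (Q : ℤ) ∣ r ^ 3 - b → OO ((n : ℤ) * Q) b x p q p' q' =
        C + (Φ (ZMod.unitOfCoprime Q hQ)).toAdd + TAUVS ρ.1 p q p' q' r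

/-! ### The governing field -/

/-- `a` is `1` modulo `3`. -/
def M1 {f : ℕ} (a : (ZMod f)ˣ) : Prop := (a : ZMod f).val % 3 = 1

/-- GZEROG: existence of the governing field. -/
def GZEROG : Prop := ∀ (s : ℕ) (b : Fin s → ℤ) (p q p' q' : Fin s → Fin s → ℤ) (f : ℕ),
  SysG b p q p' q' → 0 < f → 9 ∣ f →
  ∃ (L : Type) (_ : Field L) (_ : NumberField L) (ζ ω : L), GovF b p q p' q' f L ζ ω

/-- GCG: the commutators. -/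
def GCG : Prop := ∀ (s : ℕ) (b : Fin s → ℤ) (p q p' q' : Fin s → Fin s → ℤ) (f : ℕ)
  (L : Type) [Field L] [NumberField L] (ζ ω : L), SysG b p q p' q' →
  GovF b p q p' q' f L ζ ω →
  ∀ v : Fin s → Fin s → ZMod 3, ∃ z : L ≃ₐ[ℚ] L, z ζ = ζ ∧
    (∀ (j : Fin s) (ρ : L), ρ ^ 3 = (b j : L) → z ρ = ρ) ∧
    ∀ j i, j < i → ∀ ρ A : L, ρ ^ 3 = (b j : L) →
      A ^ 3 * aD ω (p j i) (q j i) (p' j i) (q' j i) ρ =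
        aN ω (p j i) (q j i) (p' j i) (q' j i) ρ →
      z A = ω ^ (v j i).val * A

/-- GKUM: Kummer theory for the cube roots of the `b_j`. -/
def GKUM : Prop := ∀ (s : ℕ) (b : Fin s → ℤ) (p q p' q' : Fin s → Fin s → ℤ) (f : ℕ)
  (L : Type) [Field L] [NumberField L] (ζ ω : L), SysG b p q p' q' →
  GovF b p q p' q' f L ζ ω →
  ∀ v : Fin s → ZMod 3, ∃ z : L ≃ₐ[ℚ] L, z ζ = ζ ∧
    ∀ (j : Fin s) (ρ : L), ρ ^ 3 = (b j : L) → z ρ = ω ^ (v j).val * ρ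

/-- `g` fixes the cube roots of the first `s` numbers and moves those of the last one. -/
def Fx {s : ℕ} (b : Fin (s + 1) → ℤ) {L : Type} [Field L] [NumberField L] (g : L ≃ₐ[ℚ] L) :
    Prop :=
  (∀ (j : Fin s) (ρ : L), ρ ^ 3 = (b j.castSucc : L) → g ρ = ρ) ∧
  ∀ ρ : L, ρ ^ 3 = (b (Fin.last s) : L) → g ρ ≠ ρ

/-- The relation between `g` and `t = t_{ji}(g)`: `g A = ω^t A` for all `A` with
`A^3 = α_{ji}(ρ)`, `ρ^3 = b_j`. -/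
def IsTS {s : ℕ} (b : Fin s → ℤ) (p q p' q' : Fin s → Fin s → ℤ) {L : Type} [Field L]
    [NumberField L] (ω : L) (g : L ≃ₐ[ℚ] L) (j i : Fin s) (t : ZMod 3) : Prop :=
  ∀ ρ A : L, ρ ^ 3 = (b j : L) →
    A ^ 3 * aD ω (p j i) (q j i) (p' j i) (q' j i) ρ = aN ω (p j i) (q j i) (p' j i) (q' j i) ρ →
    g A = ω ^ t.val * A

/-- GTS: existence, uniqueness and properties of `t`. -/
def GTS : Prop := ∀ (s : ℕ) (b : Fin (s + 1) → ℤ) (p q p' q' : Fin (s + 1) → Fin (s + 1) → ℤ)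
  (f : ℕ) (L : Type) [Field L] [NumberField L] (ζ ω : L), SysG b p q p' q' →
  GovF b p q p' q' f L ζ ω →
  (∀ g : L ≃ₐ[ℚ] L, g ω = ω → Fx b g →
    3 ∣ orderOf g ∧ (∀ τ : L ≃ₐ[ℚ] L, (τ * g * τ⁻¹) ω = ω ∧ Fx b (τ * g * τ⁻¹)) ∧
    ∀ k : ℕ, (g ^ k) ω = ω ∧ (¬ 3 ∣ k → Fx b (g ^ k))) ∧
  ∀ j i : Fin s, j ≠ i →
  (∀ g : L ≃ₐ[ℚ] L, g ω = ω → Fx b g →
    ∃! t : ZMod 3, IsTS b p q p' q' ω g j.castSucc i.castSucc t) ∧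
  (∀ (g τ : L ≃ₐ[ℚ] L) (t : ZMod 3), g ω = ω → Fx b g →
    IsTS b p q p' q' ω g j.castSucc i.castSucc t →
    IsTS b p q p' q' ω (τ * g * τ⁻¹) j.castSucc i.castSucc t) ∧
  (∀ (g : L ≃ₐ[ℚ] L) (t : ZMod 3) (k : ℕ), g ω = ω →
    IsTS b p q p' q' ω g j.castSucc i.castSucc t →
    IsTS b p q p' q' ω (g ^ k) j.castSucc i.castSucc (k * t))

/-- GFRS: Frobenius elements and `t`. -/
def GFRS : Prop := ∀ (s : ℕ) (b : Fin (s + 1) → ℤ)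
  (p q p' q' : Fin (s + 1) → Fin (s + 1) → ℤ) (f : ℕ)
  (L : Type) [Field L] [NumberField L] (ζ ω : L), SysG b p q p' q' →
  GovF b p q p' q' f L ζ ω →
  ∃ N₀ : ℕ, ∀ Q : ℕ, Q.Prime → N₀ < Q → Q % 3 = 1 → ∀ (P : Ideal (𝓞 L)), P.IsPrime →
    (Q : 𝓞 L) ∈ P → ∀ φ : L ≃ₐ[ℚ] L, IsArithFrobAt ℤ φ P → Fx b φ →
    ∃ ρ : PP, (Q : Eis) = ρ.1 * conj ρ.1 ∧
      (∀ j : Fin s, sym ρ.1 (b j.castSucc : Eis) = 0) ∧ sym ρ.1 (b (Fin.last s) : Eis) ≠ 0 ∧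
      ∀ j i : Fin s, j ≠ i → ∀ (r : ℤ) (t : ZMod 3), (Q : ℤ) ∣ r ^ 3 - b j.castSucc →
        IsTS b p q p' q' ω φ j.castSucc i.castSucc t →
        t = TAUVS ρ.1 (rs p j i) (rs q j i) (rs p' j i) (rs q' j i) r

/-- GALDS: summary of the governing field. -/
def GALDS : Prop := ∀ (s : ℕ) (b : Fin (s + 1) → ℤ)
  (p q p' q' : Fin (s + 1) → Fin (s + 1) → ℤ) (f : ℕ), SysG b p q p' q' → 0 < f → 9 ∣ f →
  ∃ (L : Type) (_ : Field L) (_ : NumberField L) (_ : IsGalois ℚ L)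
    (χ : (L ≃ₐ[ℚ] L) →* (ZMod f)ˣ) (F : (L ≃ₐ[ℚ] L) → Prop)
    (t : (L ≃ₐ[ℚ] L) → Fin s → Fin s → ZMod 3) (N₀ : ℕ),
    Function.Surjective χ ∧
    (∀ g τ : L ≃ₐ[ℚ] L, M1 (χ g) → F g →
      F (τ * g * τ⁻¹) ∧ ∀ j i, j ≠ i → t (τ * g * τ⁻¹) j i = t g j i) ∧
    (∀ (g : L ≃ₐ[ℚ] L) (k : ℕ), M1 (χ g) → F g → ¬ 3 ∣ k →
      F (g ^ k) ∧ ∀ j i, j ≠ i → t (g ^ k) j i = k * t g j i) ∧
    (∀ (a : (ZMod f)ˣ) (v v' : Fin s → Fin s → ZMod 3), M1 a →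
      Nat.card {g : L ≃ₐ[ℚ] L // χ g = a ∧ F g ∧ ∀ j i, j < i → t g j i = v j i} =
        Nat.card {g : L ≃ₐ[ℚ] L // χ g = a ∧ F g ∧ ∀ j i, j < i → t g j i = v' j i}) ∧
    (∀ a : (ZMod f)ˣ, M1 a → 3 ^ (s + 1) * Nat.card {g : L ≃ₐ[ℚ] L // χ g = a ∧ F g} =
      2 * Nat.card {g : L ≃ₐ[ℚ] L // χ g = a}) ∧
    ∀ (Q : ℕ) (hQ : Q.Coprime f), Q.Prime → N₀ < Q →
      ∀ (P : Ideal (𝓞 L)) (g : L ≃ₐ[ℚ] L), P.IsPrime → (Q : 𝓞 L) ∈ P →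
      MulAction.stabilizer (L ≃ₐ[ℚ] L) P = Subgroup.zpowers g → M1 (χ g) → F g →
      Q % 3 = 1 ∧ ∃ k : ℕ, k.Coprime (orderOf g) ∧ ¬ 3 ∣ k ∧
        χ (g ^ k) = ZMod.unitOfCoprime Q hQ ∧ ∃ ρ : PP, (Q : Eis) = ρ.1 * conj ρ.1 ∧
          (∀ j : Fin s, sym ρ.1 (b j.castSucc : Eis) = 0) ∧
          sym ρ.1 (b (Fin.last s) : Eis) ≠ 0 ∧
          ∀ j i : Fin s, j ≠ i → ∀ r : ℤ, (Q : ℤ) ∣ r ^ 3 - b j.castSucc →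
            t (g ^ k) j i = TAUVS ρ.1 (rs p j i) (rs q j i) (rs p' j i) (rs q' j i) r

/-! ### Counting and densities -/

/-- a lower bound for the proportion of the nonsingular alternating matrices of size `s` -/
noncomputable def rh (s : ℕ) : ℝ := if s = 0 then 1 else 5 / 8

/-- DCNTS: elements with nonsingular matrix in a class of the Galois group. -/
def DCNTS : Prop := ∀ (s f : ℕ) (G : Type) [Group G] [Finite G] (χ : G →* (ZMod f)ˣ)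
  (F : G → Prop) (t : G → Fin s → Fin s → ZMod 3), Even s → 0 < f → Function.Surjective χ →
  (∀ (a : (ZMod f)ˣ) (v v' : Fin s → Fin s → ZMod 3), M1 a →
    Nat.card {g : G // χ g = a ∧ F g ∧ ∀ j i, j < i → t g j i = v j i} =
      Nat.card {g : G // χ g = a ∧ F g ∧ ∀ j i, j < i → t g j i = v' j i}) →
  (∀ a : (ZMod f)ˣ, M1 a → 3 ^ (s + 1) * Nat.card {g : G // χ g = a ∧ F g} =
    2 * Nat.card {g : G // χ g = a}) →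
  ∀ (a : (ZMod f)ˣ) (C : Fin s → Fin s → ZMod 3), M1 a →
    rh s * (2 / 3 ^ (s + 1)) * ((Nat.card G : ℝ) / f.totient) ≤
      (Nat.card {g : G // χ g = a ∧ F g ∧ (alt (C + t g)).det ≠ 0} : ℝ) ∧
    rh s * (2 / 3 ^ (s + 1)) * ((Nat.card G : ℝ) / f.totient) ≤
      (Nat.card {g : G // χ g = a ∧ F g ∧ (alt (C - t g)).det ≠ 0} : ℝ)

/-- CLSCS: the number of classes modulo `f`. -/
def CLSCS : Prop := ∀ (f m : ℕ) (κ : (ZMod f)ˣ →* Multiplicative (Fin (m + 1) → ZMod 3)),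
  0 < f → 9 ∣ f →
  (∀ c : Fin (m + 1) → ZMod 3,
    Nat.card {a : (ZMod f)ˣ // M2 a ∧ (κ a).toAdd = c} * (2 * 3 ^ (m + 1)) = f.totient) →
  ∀ c : Fin (m + 1) → ZMod 3,
    Nat.card {a : (ZMod f)ˣ // M1 a ∧ (κ a).toAdd = c} * (2 * 3 ^ (m + 1)) = f.totient

/-- The prime `Q` has the class `c`, the first `s` numbers are cubes modulo `Q` and the last one
is not. -/
def ClQ {s f m : ℕ} (b : Fin (s + 1) → ℤ)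
    (κ : (ZMod f)ˣ →* Multiplicative (Fin (m + 1) → ZMod 3)) (c : Fin (m + 1) → ZMod 3) (Q : ℕ)
    (hQ : Q.Coprime f) (ρ : PP) : Prop :=
  Q % 3 = 1 ∧ (κ (ZMod.unitOfCoprime Q hQ)).toAdd = c ∧ (Q : Eis) = ρ.1 * conj ρ.1 ∧
    (∀ j : Fin s, sym ρ.1 (b j.castSucc : Eis) = 0) ∧ sym ρ.1 (b (Fin.last s) : Eis) ≠ 0

/-- The primes of the class `c` with nonsingular matrix. -/
def SSS {s f m : ℕ} (b : Fin (s + 1) → ℤ) (p q p' q' : Fin (s + 1) → Fin (s + 1) → ℤ)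
    (κ : (ZMod f)ˣ →* Multiplicative (Fin (m + 1) → ZMod 3)) (c : Fin (m + 1) → ZMod 3)
    (C : Fin s → Fin s → ZMod 3) (Φ : (ZMod f)ˣ →* Multiplicative (Fin s → Fin s → ZMod 3)) :
    Set ℕ :=
  {Q : ℕ | ∃ (hQ : Q.Coprime f) (ρ : PP), ClQ b κ c Q hQ ρ ∧
    ∀ τ : Fin s → Fin s → ZMod 3,
      (∀ j i, j ≠ i → ∀ r : ℤ, (Q : ℤ) ∣ r ^ 3 - b j.castSucc →
        τ j i = TAUVS ρ.1 (rs p j i) (rs q j i) (rs p' j i) (rs q' j i) r) →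
      (alt (C + (Φ (ZMod.unitOfCoprime Q hQ)).toAdd + τ)).det ≠ 0}

/-- DENSS: the density of the primes with nonsingular matrix, for one hyperplane. -/
def DENSS : Prop := ∀ (s : ℕ) (b : Fin (s + 1) → ℤ)
  (p q p' q' : Fin (s + 1) → Fin (s + 1) → ℤ) (f m : ℕ)
  (κ : (ZMod f)ˣ →* Multiplicative (Fin (m + 1) → ZMod 3)) (c : Fin (m + 1) → ZMod 3)
  (C : Fin s → Fin s → ZMod 3) (Φ : (ZMod f)ˣ →* Multiplicative (Fin s → Fin s → ZMod 3)),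
  SysG b p q p' q' → Even s → 0 < f → 9 ∣ f → c ≠ 0 →
  (∀ c : Fin (m + 1) → ZMod 3,
    Nat.card {a : (ZMod f)ˣ // M1 a ∧ (κ a).toAdd = c} * (2 * 3 ^ (m + 1)) = f.totient) →
  RI.DensityGE (SSS b p q p' q' κ c C Φ ∪
    {Q : ℕ | ∃ (hQ : Q.Coprime f) (ρ : PP), ClQ b κ (-c) Q hQ ρ})
    (2 * rh s / 3 ^ (s + m + 2))

/-- DIRS: upper bound for the number of primes in a class. -/
def DIRS : Prop := ∀ (m : ℕ) (π : Fin m → PP) (p : Fin m → ℕ), (∀ i, (p i).Prime) →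
  (∀ i, p i % 3 = 1) → (∀ i, (p i : Eis) = (π i).1 * conj (π i).1) → Function.Injective p →
  ∀ (w0 : ZMod 3) (c : Fin m → ZMod 3), ∃ K : ℝ, ∀ s : ℝ, 1 < s → s ≤ 2 →
    ∑' q : {q : ℕ // q.Prime ∧ q ∈ {q : ℕ | InClS π w0 c q}}, (q : ℝ) ^ (-s) ≤
      1 / (2 * 3 ^ (m + 1)) * Real.log (1 / (s - 1)) + K

/-- DSUM: sum of densities. -/
def DSUM : Prop := ∀ (ι : Type) [Fintype ι] (S S' : ι → Set ℕ) (T R : Set ℕ) (d u : ℝ) (N : ℕ),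
  (∀ i, RI.DensityGE (S i ∪ S' i) d) →
  (∃ K : ℝ, ∀ s : ℝ, 1 < s → s ≤ 2 →
    ∑' q : {q : ℕ // q.Prime ∧ q ∈ R}, (q : ℝ) ^ (-s) ≤ u * Real.log (1 / (s - 1)) + K) →
  (∀ i q, q.Prime → N < q → q ∈ S' i → q ∈ R) →
  (∀ i q, q.Prime → N < q → q ∈ S i → q ∈ T) →
  (∀ q : ℕ, q.Prime → N < q → ∃ i₁ i₂, ∀ i, q ∈ S i ∨ q ∈ S' i → i = i₁ ∨ i = i₂) →
  RI.DensityGE T ((Fintype.card ι * d - 2 * u) / 2)

/-- FINAS: the theorem for numbers in normal form, `k` odd. -/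
def FINAS : Prop := ∀ (n m k : ℕ) (π : Fin m → PP) (p e : Fin m → ℕ) (r f : Fin k → ℕ),
  NF n π p e r f → Odd k →
  RI.DensityGE {q : ℕ | ¬ ∃ X Y : ℚ, X ^ 3 + Y ^ 3 = (n : ℚ) * q} (1 / (30 * 3 ^ m))

/-- MAINS: the theorem for all `n` prime to `3`. -/
def MAINS : Prop := ∀ n : ℕ, 0 < n → ¬ 3 ∣ n →
  ∃ C : ℝ, ∀ s : ℝ, 1 < s → s ≤ 2 →
    1 / (30 * 3 ^ Nat.card {p : ℕ // p.Prime ∧ p % 3 = 1 ∧ ¬ 3 ∣ n.factorization p}) *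
      Real.log (1 / (s - 1)) - C ≤
    ∑' q : {q : ℕ // q.Prime ∧ ¬ ∃ X Y : ℚ, X ^ 3 + Y ^ 3 = (n : ℚ) * q}, (q : ℝ) ^ (-s)

end Pool.Agent.PTE
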